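import Pool.Agent.H19.DM.GDef
import Pool.Agent.H77.UB.V1

/-! # DM.AIn : the coordinate ring of `S` is an integral extension of a polynomial ring in two variables (MATHLIB, about 60 lines)

`t = algebraMap K0[X] A X` is transcendental over `K0` (`FaithfulSMul`: `K0[X] → A` is injective) and `A[X] → OH` is injective (`dc_gen` uniqueness: `AdjoinRoot.of` is injective for a monic polynomial of positive degree: `AdjoinRoot.of.injective_of_degree_ne_zero`-like, or `mk_eq_zero` and degrees as in `dc_uniq` of `VG/DCov.lean`).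
ALGEBRAIC INDEPENDENCE of `t` and `x`: a polynomial `P(T, X)` is an element of `K0[T][X]` (`MvPolynomial.finSuccEquiv`, or `AlgebraicIndependent` of `![t, x]` from: `t` transcendental over `K0`, `x` transcendental over `K0(t)` resp. `K0[t]`; `algebraicIndependent_unique_type_iff`, `AlgebraicIndependent.option_iff`, `Fin.cons`) and
`∑ p_i(t) x^i = 0` in `A[X]` implies all `p_i(t) = 0`.  INTEGRAL: `H19.VG.dc_int` with `H77.UB.int_T`. -/

namespace H19.DM

open Polynomial

private theorem ofInj {A : Type} [CommRing A] [Nontrivial A] (g : A[X]) :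
    Function.Injective (AdjoinRoot.of (X ^ 2 - C g) : A[X] →+* H19.VG.RG g) := by
  rw [injective_iff_map_eq_zero]
  intro p hp
  have hd : (X ^ 2 - C g : A[X][X]).natDegree = 2 := natDegree_X_pow_sub_C
  have h1 : AdjoinRoot.mk (X ^ 2 - C g) (C p) = 0 := by
    rw [AdjoinRoot.mk_C]
    exact hp
  rw [AdjoinRoot.mk_eq_zero] at h1
  have h2 : (C p : A[X][X]) = 0 := by
    by_contra h0
    refine (H19.VG.dc_monic g).not_dvd_of_natDegree_lt h0 ?_ h1
    rw [hd, natDegree_C]
    norm_num
  exact C_eq_zero.1 h2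

private theorem psiInj {K0 : Type} [Field K0] :
    Function.Injective (MvPolynomial.aeval ![(C X : K0[X][X]), X] : MvPolynomial (Fin 2) K0 →ₐ[K0] K0[X][X]) := by
  let φ : K0[X][X] →+* MvPolynomial (Fin 2) K0 :=
    eval₂RingHom ((aeval (MvPolynomial.X 0 : MvPolynomial (Fin 2) K0) : K0[X] →ₐ[K0] _) : K0[X] →+* MvPolynomial (Fin 2) K0)
      (MvPolynomial.X 1)
  have h : φ.comp (MvPolynomial.aeval ![(C X : K0[X][X]), X] : MvPolynomial (Fin 2) K0 →ₐ[K0] K0[X][X]).toRingHom
      = RingHom.id _ := by
    apply MvPolynomial.ringHom_ext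
    · intro c
      have h1 : (MvPolynomial.aeval ![(C X : K0[X][X]), X] : MvPolynomial (Fin 2) K0 →ₐ[K0] K0[X][X]).toRingHom
          (MvPolynomial.C c) = C (C c) := by
        change MvPolynomial.aeval ![(C X : K0[X][X]), X] (MvPolynomial.C c) = _
        rw [MvPolynomial.aeval_C]
        rfl
      rw [RingHom.comp_apply, h1]
      change eval₂ _ _ (C (C c)) = _
      rw [eval₂_C]
      change aeval _ (C c) = _
      rw [aeval_C]
      rfl
    · intro i
      have h1 : (MvPolynomial.aeval ![(C X : K0[X][X]), X] : MvPolynomial (Fin 2) K0 →ₐ[K0] K0[X][X]).toRingHom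
          (MvPolynomial.X i) = ![(C X : K0[X][X]), X] i := by
        change MvPolynomial.aeval ![(C X : K0[X][X]), X] (MvPolynomial.X i) = _
        rw [MvPolynomial.aeval_X]
      rw [RingHom.comp_apply, h1, RingHom.id_apply]
      fin_cases i
      · change eval₂ _ _ (C X) = _
        rw [eval₂_C]
        change aeval _ X = _
        rw [aeval_X]
        rfl
      · change eval₂ _ _ X = _
        rw [eval₂_X]
        rfl
  intro x y hxy
  have h2 := congrArg φ hxy
  have h3 : ∀ z, φ (MvPolynomial.aeval ![(C X : K0[X][X]), X] z) = z := fun z => RingHom.congr_fun h z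
  rw [h3, h3] at h2
  exact h2

theorem aiN {K0 A : Type} [Field K0] [CommRing A] [Nontrivial A] [Algebra K0 A] [Algebra K0[X] A] [IsScalarTower K0 K0[X] A]
    [Module.Finite K0[X] A] [FaithfulSMul K0[X] A] (g : A[X]) :
    AlgebraicIndependent K0 ![(AdjoinRoot.of (X ^ 2 - C g) (C (algebraMap K0[X] A X)) : H19.VG.RG g), AdjoinRoot.of (X ^ 2 - C g) X] ∧
      ∀ r : H19.VG.RG g, IsIntegral (Algebra.adjoin K0
        ({AdjoinRoot.of (X ^ 2 - C g) (C (algebraMap K0[X] A X)), AdjoinRoot.of (X ^ 2 - C g) X} : Set (H19.VG.RG g))) r := by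
  constructor
  · have hinj : Function.Injective (algebraMap K0[X] A) := FaithfulSMul.algebraMap_injective K0[X] A
    let θ : K0[X][X] →+* H19.VG.RG g := (AdjoinRoot.of (X ^ 2 - C g)).comp (mapRingHom (algebraMap K0[X] A))
    have hθ : Function.Injective θ := (ofInj g).comp (map_injective _ hinj)
    have h : (MvPolynomial.aeval ![(AdjoinRoot.of (X ^ 2 - C g) (C (algebraMap K0[X] A X)) : H19.VG.RG g), AdjoinRoot.of (X ^ 2 - C g) X] :
        MvPolynomial (Fin 2) K0 →ₐ[K0] H19.VG.RG g).toRingHom =
        θ.comp (MvPolynomial.aeval ![(C X : K0[X][X]), X] : MvPolynomial (Fin 2) K0 →ₐ[K0] K0[X][X]).toRingHom := by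
      apply MvPolynomial.ringHom_ext
      · intro c
        rw [RingHom.comp_apply]
        change MvPolynomial.aeval _ (MvPolynomial.C c) = θ (MvPolynomial.aeval _ (MvPolynomial.C c))
        rw [MvPolynomial.aeval_C, MvPolynomial.aeval_C]
        have h1 : algebraMap K0 K0[X][X] c = C (C c) := rfl
        rw [h1]
        change _ = AdjoinRoot.of (X ^ 2 - C g) (Polynomial.map (algebraMap K0[X] A) (C (C c)))
        rw [map_C]
        have h2 : algebraMap K0[X] A (C c) = algebraMap K0 A c := by
          have h3 : (C c : K0[X]) = algebraMap K0 K0[X] c := rfl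
          rw [h3, ← IsScalarTower.algebraMap_apply K0 K0[X] A]
        rw [h2]
        rfl
      · intro i
        rw [RingHom.comp_apply]
        change MvPolynomial.aeval _ (MvPolynomial.X i) = θ (MvPolynomial.aeval _ (MvPolynomial.X i))
        rw [MvPolynomial.aeval_X, MvPolynomial.aeval_X]
        fin_cases i
        · change AdjoinRoot.of (X ^ 2 - C g) (C (algebraMap K0[X] A X)) = AdjoinRoot.of (X ^ 2 - C g) (Polynomial.map (algebraMap K0[X] A) (C X))
          rw [map_C]
        · change AdjoinRoot.of (X ^ 2 - C g) X = AdjoinRoot.of (X ^ 2 - C g) (Polynomial.map (algebraMap K0[X] A) X)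
          rw [map_X]
    intro x y hxy
    have h1 : ∀ z, MvPolynomial.aeval ![(AdjoinRoot.of (X ^ 2 - C g) (C (algebraMap K0[X] A X)) : H19.VG.RG g), AdjoinRoot.of (X ^ 2 - C g) X] z =
        θ (MvPolynomial.aeval ![(C X : K0[X][X]), X] z) := fun z => RingHom.congr_fun h z
    rw [h1, h1] at hxy
    exact psiInj (hθ hxy)
  · exact fun r => H19.VG.dc_int g (H77.UB.int_T rfl) r

end H19.DM
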