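import Pool.Agent.H19.ES.Crv

/-! # DM.BcD : extension of the field for finite free `K0[X]`-algebras, with the discriminant (COPY of `Pool/Agent/H77/UB/Bc.lean` with two more conclusions, MATHLIB only, about 120 lines)

Copy the proof of `bc`.  `tA K (K ⊗ A) = algebraMap K[X] _ X = e (algebraMap X) = e (X ⊗ 1) = e (1 ⊗ tA K0 A)`.
DISCRIMINANT: `f i = 1 ⊗ f0 i`, `f.repr (1 ⊗ a) j = (f0.repr a j).map (algebraMap K0 K)`, so `Algebra.leftMulMatrix f (1 ⊗ a) = (Algebra.leftMulMatrix f0 a).map (mapRingHom (algebraMap K0 K))` (`Algebra.leftMulMatrix_eq_repr_mul`), `Algebra.trace K[X] _ (1 ⊗ a) = (Algebra.trace K0[X] A a).map _`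
(`Algebra.trace_eq_matrix_trace`), `Algebra.discr_def`, `Algebra.traceMatrix_apply`, `RingHom.map_det`.  (Or: `Algebra.discr` is invariant under the base change `K0[X] → K[X]` if Mathlib has it for `Algebra.TensorProduct.basis`, and under the isomorphism `e'`.) -/

namespace H19.DM

open Polynomial TensorProduct H19.ES

attribute [local instance] Polynomial.algebra in
theorem bcD {K0 A : Type} [Field K0] [CommRing A] [Algebra K0 A] [Algebra K0[X] A] [IsScalarTower K0 K0[X] A] {m s0 : ℕ}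
    (f0 : Module.Basis (Fin m) K0[X] A) (hs : StB f0 s0) (K : Type) [Field K] [Algebra K0 K] :
    ∃ (_ : Algebra K[X] (K ⊗[K0] A)) (_ : IsScalarTower K K[X] (K ⊗[K0] A)) (f : Module.Basis (Fin m) K[X] (K ⊗[K0] A)),
      StB f s0 ∧ (∀ (a : A) (e0 : ℕ), (∀ j, (f0.repr a j).natDegree ≤ e0) →
        ∀ j, (f.repr ((1 : K) ⊗ₜ[K0] a) j).natDegree ≤ e0) ∧
      tA K (K ⊗[K0] A) = (1 : K) ⊗ₜ[K0] tA K0 A ∧
      Algebra.discr K[X] f = (Algebra.discr K0[X] f0).map (algebraMap K0 K) := by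
  let e : K[X] ⊗[K0[X]] A ≃ₐ[K] K ⊗[K0] A := Algebra.IsPushout.cancelBaseChangeAlg K0 K K0[X] K[X] A
  have he : ∀ c : A, e (1 ⊗ₜ c) = 1 ⊗ₜ c := fun c => Algebra.IsPushout.cancelBaseChangeAlg_tmul K0 K K0[X] K[X] A c
  let inst1 : Algebra K[X] (K ⊗[K0] A) :=
    ((e : K[X] ⊗[K0[X]] A →+* K ⊗[K0] A).comp (algebraMap K[X] (K[X] ⊗[K0[X]] A))).toAlgebra
  have hal : ∀ p : K[X], algebraMap K[X] (K ⊗[K0] A) p = e (algebraMap K[X] (K[X] ⊗[K0[X]] A) p) := fun p => rfl
  have inst2 : IsScalarTower K K[X] (K ⊗[K0] A) := by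
    refine IsScalarTower.of_algebraMap_eq fun c => ?_
    rw [hal, ← IsScalarTower.algebraMap_apply, AlgEquiv.commutes]
  let e' : (K[X] ⊗[K0[X]] A) ≃ₗ[K[X]] (K ⊗[K0] A) :=
    { (e : K[X] ⊗[K0[X]] A ≃+* K ⊗[K0] A).toAddEquiv with
      map_smul' := fun p x => by
        rw [Algebra.smul_def, RingHom.id_apply, Algebra.smul_def, hal]
        exact map_mul e _ _ }
  have he' : ∀ x, e' x = e x := fun x => rfl
  let f : Module.Basis (Fin m) K[X] (K ⊗[K0] A) := (Algebra.TensorProduct.basis K[X] f0).map e'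
  have hf : ∀ (a : A) (j : Fin m), f.repr ((1 : K) ⊗ₜ[K0] a) j = (f0.repr a j).map (algebraMap K0 K) := by
    intro a j
    have h1 : (1 : K) ⊗ₜ[K0] a = e' (1 ⊗ₜ a) := (he a).symm
    rw [h1]
    change (Algebra.TensorProduct.basis K[X] f0).repr (e'.symm (e' (1 ⊗ₜ a))) j = _
    rw [LinearEquiv.symm_apply_apply, Algebra.TensorProduct.basis_repr_tmul, one_smul, Finsupp.mapRange_apply]
    rfl
  have h3 : ∀ i, f i = (1 : K) ⊗ₜ[K0] f0 i := by
    intro i
    change e' ((Algebra.TensorProduct.basis K[X] f0) i) = _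
    rw [Algebra.TensorProduct.basis_apply]
    exact he (f0 i)
  have h2 : ∀ i j, f i * f j = (1 : K) ⊗ₜ[K0] (f0 i * f0 j) := by
    intro i j
    rw [h3, h3, Algebra.TensorProduct.tmul_mul_tmul, one_mul]
  have htr : ∀ a : A, Algebra.trace K[X] (K ⊗[K0] A) ((1 : K) ⊗ₜ[K0] a) = (Algebra.trace K0[X] A a).map (algebraMap K0 K) := by
    intro a
    rw [Algebra.trace_eq_matrix_trace f, Algebra.trace_eq_matrix_trace f0, Matrix.trace, Matrix.trace, Polynomial.map_sum]
    refine Finset.sum_congr rfl fun i _ => ?_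
    rw [Matrix.diag_apply, Matrix.diag_apply, Algebra.leftMulMatrix_eq_repr_mul, Algebra.leftMulMatrix_eq_repr_mul, h3,
      Algebra.TensorProduct.tmul_mul_tmul, one_mul, hf]
  refine ⟨inst1, inst2, f, ?_, ?_, ?_, ?_⟩
  · intro i j l
    rw [h2, hf]
    exact (natDegree_map_le).trans (hs i j l)
  · intro a e0 h j
    rw [hf]
    exact (natDegree_map_le).trans (h j)
  · have h4 : (algebraMap K[X] (K ⊗[K0] A) X) = (1 : K) ⊗ₜ[K0] algebraMap K0[X] A X := by
      rw [hal, ← he]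
      refine congrArg e ?_
      have h5 : (algebraMap K0[X] A X) = (X : K0[X]) • (1 : A) := by rw [Algebra.smul_def, mul_one]
      rw [h5, ← TensorProduct.smul_tmul]
      rw [Algebra.TensorProduct.algebraMap_apply, Algebra.smul_def, mul_one]
      have h6 : algebraMap K0[X] K[X] X = X := by
        change Polynomial.map (algebraMap K0 K) X = X
        exact Polynomial.map_X _
      rw [h6]
      rfl
    exact h4
  · rw [Algebra.discr_def, Algebra.discr_def]
    have h7 : Algebra.traceMatrix K[X] f = (Polynomial.mapRingHom (algebraMap K0 K)).mapMatrix (Algebra.traceMatrix K0[X] f0) := by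
      ext i j : 2
      rw [RingHom.mapMatrix_apply, Matrix.map_apply, Algebra.traceMatrix_apply, Algebra.traceMatrix_apply,
        Algebra.traceForm_apply, Algebra.traceForm_apply, h2, htr]
      rfl
    rw [h7, ← RingHom.map_det]
    rfl

end H19.DM
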