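import Pool.Agent.H19.DM.GDef

/-! # DM.PsiR : zero-cycles of `X = Spec R` as a functional on the points of `Spec O` with general base point (about 250 lines)

`ι : R → L = Frac O` is a rational map `Spec O - - > Spec R`, `O` is integral over `R` (`hint`), and at every point `s` with general base point (`s ∘ j` injective) every `l ∈ L` is regular or its inverse is regular and vanishes (`hval`).
`cl s = Φ (single P 1)` if all `s i` are general (`Injective (s i ∘ j)`) and there is `P` with `FR ι (s i) (P i)` for all `i` (`open Classical in if h : .. then .. else 0`), else `0`.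

FACTS about `FR` (`F` any field):
(F1) UNIQUE: `FR ι s P`, `FR ι s P'` → `P = P'`: `(u, v)`, `(u', v')` for the same `r`: `algebraMap (u * v') = ι r * v * v' = algebraMap (u' * v)`, so `u v' = u' v` (`hinj`), apply `s`: `P r * s v * s v' = P' r * s v' * s v`, cancel.
(F2) GALOIS: `FR ι y P → FR ι ((pts K0 K O).act σ y) ((pts K0 K R).act σ P)` (the same `u`, `v`).
(F3) Let `y : O → Ω` specialise to `x : O → K` at `π` (`∀ q, Rd π.V π.φ (y q) (x q)`), `x` general.  If `FR ι x P0` then there is `P` with `FR ι y P` and `∀ r, Rd (P r) (P0 r)`: for `r` take `u, v` with `x v ≠ 0`; `y v ≠ 0` (`Rd.ne_zero`); `P r := y u / y v`,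
independent of the choice (as in F1), so it is a `K0`-algebra homomorphism (`choose u v`; `map_add` etc. by cross multiplication and `hinj`); `Rd (y u / y v) (x u / x v)` (`Rd.div` or `Rd.inv`, `x v ≠ 0`), `x u / x v = P0 r`.
(F4) the same `y`, `x`; if there is NO `P0` with `FR ι x P0` then for every `P` with `FR ι y P` there is `r` with `P r ∉ π.V`.  Proof: some `r` has no `u, v` with `x v ≠ 0`, `ι r * v = u` (otherwise define `P0 r := x u / x v` as in F3); `hval` gives `u, v` with `x v ≠ 0`,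
`x u = 0`, `ι r * u = v`.  `FR ι y P` gives `u', v'`, `y v' ≠ 0`, `ι r * v' = u'`, `y u' = P r * y v'`.  Then `v * v' = ι r * u * v' = u * u'` in `O`, so `y v * y v' = y u * P r * y v'`, `y v = y u * P r`.  If `P r ∈ π.V` then `y u * P r` reduces to `0` (`x u = 0`), but `y v` reduces to `x v ≠ 0`.
(F5) if `FR ι y P` and `∀ r, P r ∈ π.V` then `∀ q, y q ∈ π.V`: `q` is integral over `R` (`hint q`: a monic `p : R[X]` with `p.eval₂ ι q = 0`).  For each coefficient `r` of `p` take `u_r, v_r`; `V` = the product of all `v_r`: `y V ≠ 0`, and `V * (∑ coefficients r_i q^i) = 0` in `L` gives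
`∑ (u_i * ∏_{others} v) q^i = 0` in `O` (`hinj`), apply `y`, divide by `y V`: `p.eval₂ P (y q) = 0` (a cleaner way: the set of `l ∈ L` with `∃ u v, y v ≠ 0 ∧ l * v = u` is a subring `Ly` and `l ↦ y u / y v` is a ring homomorphism `Ly → Ω` which extends `y` and `P`; apply it to the equation).  So `y q`
is integral over `π.V`, hence in `π.V` (`IsIntegrallyClosed`; see `hm_root` in `Pool/Agent/H19/EM/HMap.lean`).

RELATION.  `gY s : Option (Fin n → R →ₐ[K0] Om K)`: `some P` if all `s i` are general and `FR ι (s i) (P i)` for all `i`, else `none`; `gX` the same over `K` (so `cl s = ((gX s).elim 0 (fun P => Φ (single P 1)))`).  For `S, π, π', c, c'` as in `RelR`: `S' := S.filterMap gY`, Galois stable (F2, F1; `s` general iff `act σ s` general).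
`Fibre π S' (c.filterMap gX)`: `S = S1 + S2`, `Rel (SpT π) S1 c`.  For `s ∈ S1`, `p ∈ c` related: `p` is allowed (`OkP`), so all `p i` and hence all `s i` are general (`s i (j b) = 0 → p i (j b) = 0 → b = 0`; use differences).  If `gX p = some P0` then `gY s = some P` with `SpT π P P0` (F3, F1).  If `gX p = none` then `gY s = none` or `gY s = some P`
with some `P i` off (F4): goes to the second part.  For `s ∈ S2` (`s i` off): `gY s = none` or `gY s = some P` with `P i` off (F5): second part.  (Induction over `Multiset.Rel`; `Multiset.filterMap_cons_none`, `filterMap_cons_some`, `filterMap_add`.)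
`(c.map cl).sum = Φ (cyc (c.filterMap gX))` (induction over `c`), and `cyc C - cyc C' ∈ RatEq` (`AddSubgroup.subset_closure`), so `Φ` of it is `0`. -/

namespace H19.DM

open H68.BB H77.AF Polynomial TensorProduct

section reg

variable {K0 O L F : Type} [Field K0] [CommRing O] [Algebra K0 O] [Field L] [Algebra O L] [Field F] [Algebra K0 F]

private def PsReg (y : O →ₐ[K0] F) (l : L) (z : F) : Prop :=
  ∃ u v : O, y v ≠ 0 ∧ l * algebraMap O L v = algebraMap O L u ∧ y u = z * y v

private theorem ps_cross (hinj : Function.Injective (algebraMap O L)) {y : O →ₐ[K0] F} {l : L} {z : F} (h : PsReg y l z)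
    {u' v' : O} (e : l * algebraMap O L v' = algebraMap O L u') : y u' = z * y v' := by
  obtain ⟨u, v, hv, e1, e2⟩ := h
  have h1 : u * v' = u' * v := by
    apply hinj
    rw [map_mul, map_mul, ← e1, ← e]
    ring
  have h2 : y u * y v' = y u' * y v := by rw [← map_mul, ← map_mul, h1]
  rw [e2] at h2
  refine mul_right_cancel₀ hv ?_
  linear_combination -h2

private theorem ps_unique (hinj : Function.Injective (algebraMap O L)) {y : O →ₐ[K0] F} {l : L} {z z' : F} (h : PsReg y l z)
    (h' : PsReg y l z') : z = z' := by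
  obtain ⟨u, v, hv, e1, e2⟩ := h'
  have h1 := ps_cross hinj h e1
  rw [e2] at h1
  exact (mul_right_cancel₀ hv h1).symm

private theorem ps_alg (y : O →ₐ[K0] F) (q : O) : PsReg y (algebraMap O L q) (y q) :=
  ⟨q, 1, by rw [map_one]; exact one_ne_zero, by rw [map_one, mul_one], by rw [map_one, mul_one]⟩

private theorem ps_add {y : O →ₐ[K0] F} {l l' : L} {z z' : F} (h : PsReg y l z) (h' : PsReg y l' z') :
    PsReg y (l + l') (z + z') := by
  obtain ⟨u, v, hv, e1, e2⟩ := h
  obtain ⟨u', v', hv', e1', e2'⟩ := h'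
  refine ⟨u * v' + u' * v, v * v', ?_, ?_, ?_⟩
  · rw [map_mul]
    exact mul_ne_zero hv hv'
  · rw [map_mul, map_add, map_mul, map_mul, ← e1, ← e1']
    ring
  · rw [map_mul, map_add, map_mul, map_mul, e2, e2']
    ring

private theorem ps_mul {y : O →ₐ[K0] F} {l l' : L} {z z' : F} (h : PsReg y l z) (h' : PsReg y l' z') :
    PsReg y (l * l') (z * z') := by
  obtain ⟨u, v, hv, e1, e2⟩ := h
  obtain ⟨u', v', hv', e1', e2'⟩ := h'
  refine ⟨u * u', v * v', ?_, ?_, ?_⟩
  · rw [map_mul]
    exact mul_ne_zero hv hv'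
  · rw [map_mul, map_mul, ← e1, ← e1']
    ring
  · rw [map_mul, map_mul, e2, e2']
    ring

private theorem ps_one (y : O →ₐ[K0] F) : PsReg y (1 : L) 1 := by
  have h := ps_alg (L := L) y (1 : O)
  rwa [map_one, map_one] at h

private theorem ps_zero (y : O →ₐ[K0] F) : PsReg y (0 : L) 0 := by
  have h := ps_alg (L := L) y (0 : O)
  rwa [map_zero, map_zero] at h

private theorem ps_pow {y : O →ₐ[K0] F} {l : L} {z : F} (h : PsReg y l z) (n : ℕ) : PsReg y (l ^ n) (z ^ n) := by
  induction n with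
  | zero => rw [pow_zero, pow_zero]; exact ps_one y
  | succ n ih => rw [pow_succ, pow_succ]; exact ps_mul ih h

private theorem ps_mk [Algebra K0 L] [IsScalarTower K0 O L] {R : Type} [CommRing R] [Algebra K0 R] (hinj : Function.Injective (algebraMap O L))
    (ι : R →ₐ[K0] L) (y : O →ₐ[K0] F) (h : ∀ r, ∃ z, PsReg y (ι r) z) : ∃ P : R →ₐ[K0] F, FR ι y P := by
  choose z hz using h
  have h1 : z 1 = 1 := by
    refine ps_unique hinj (hz 1) ?_
    rw [map_one]
    exact ps_one y
  have h0 : z 0 = 0 := by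
    refine ps_unique hinj (hz 0) ?_
    rw [map_zero]
    exact ps_zero y
  have hm : ∀ a b, z (a * b) = z a * z b := by
    intro a b
    refine ps_unique hinj (hz _) ?_
    rw [map_mul]
    exact ps_mul (hz a) (hz b)
  have ha : ∀ a b, z (a + b) = z a + z b := by
    intro a b
    refine ps_unique hinj (hz _) ?_
    rw [map_add]
    exact ps_add (hz a) (hz b)
  have hc : ∀ c : K0, z (algebraMap K0 R c) = algebraMap K0 F c := by
    intro c
    refine ps_unique hinj (hz _) ?_
    have h2 := ps_alg (L := L) y (algebraMap K0 O c)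
    rw [AlgHom.commutes, ← IsScalarTower.algebraMap_apply K0 O L] at h2
    rw [AlgHom.commutes]
    exact h2
  exact ⟨{ toFun := z, map_one' := h1, map_mul' := hm, map_zero' := h0, map_add' := ha, commutes' := hc }, hz⟩

private theorem fr_unique [Algebra K0 L] {R : Type} [CommRing R] [Algebra K0 R] (hinj : Function.Injective (algebraMap O L)) {ι : R →ₐ[K0] L}
    {y : O →ₐ[K0] F} {P P' : R →ₐ[K0] F} (h : FR ι y P) (h' : FR ι y P') : P = P' :=
  AlgHom.ext fun r => ps_unique hinj (h r) (h' r)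

end reg

section place

variable {K0 K O L R B : Type} [Field K0] [Field K] [Algebra K0 K] [CommRing O] [Algebra K0 O] [Field L] [Algebra K0 L] [Algebra O L]
  [IsScalarTower K0 O L] [CommRing R] [Algebra K0 R] [CommRing B]

private theorem ps_sp (hinj : Function.Injective (algebraMap O L)) (ι : R →ₐ[K0] L) (π : Place K (Om K)) {y : O →ₐ[K0] Om K}
    {x : O →ₐ[K0] K} (hyx : ∀ q, Rd π.V π.φ (y q) (x q)) {P0 : R →ₐ[K0] K} (h : FR ι x P0) :
    ∃ P : R →ₐ[K0] Om K, FR ι y P ∧ ∀ r, Rd π.V π.φ (P r) (P0 r) := by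
  have hloc := π.isLocal
  obtain ⟨P, hP⟩ := ps_mk hinj ι y (fun r => by
    obtain ⟨u, v, hv, e1, e2⟩ := h r
    have hyv := (hyx v).ne_zero hv
    exact ⟨y u / y v, u, v, hyv, e1, by rw [div_mul_cancel₀ _ hyv]⟩)
  refine ⟨P, hP, fun r => ?_⟩
  obtain ⟨u, v, hv, e1, e2⟩ := h r
  have hyv := (hyx v).ne_zero hv
  have e3 := ps_cross hinj (hP r) e1
  have e4 : P r = y u / y v := by rw [e3, mul_div_cancel_right₀ _ hyv]
  have e5 : P0 r = x u / x v := by rw [e2, mul_div_cancel_right₀ _ hv]
  rw [e4, e5]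
  exact (hyx u).div (hyx v) hv

private theorem ps_none (hinj : Function.Injective (algebraMap O L)) (ι : R →ₐ[K0] L) (j : B →+* O)
    (hval : ∀ s : O →ₐ[K0] K, Function.Injective (fun b : B => s (j b)) → ∀ l : L,
      (∃ u v : O, s v ≠ 0 ∧ l * algebraMap O L v = algebraMap O L u) ∨
        ∃ u v : O, s v ≠ 0 ∧ s u = 0 ∧ l * algebraMap O L u = algebraMap O L v)
    (π : Place K (Om K)) {y : O →ₐ[K0] Om K} {x : O →ₐ[K0] K} (hyx : ∀ q, Rd π.V π.φ (y q) (x q))
    (hgen : Function.Injective (fun b : B => x (j b))) (hno : ¬ ∃ P0 : R →ₐ[K0] K, FR ι x P0) {P : R →ₐ[K0] Om K} (hP : FR ι y P) :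
    ∃ r, P r ∉ π.V := by
  obtain ⟨r, hr⟩ : ∃ r, ¬ ∃ z, PsReg x (ι r) z := by
    by_contra hc
    push Not at hc
    exact hno (ps_mk hinj ι x hc)
  refine ⟨r, fun hmem => ?_⟩
  rcases hval x hgen (ι r) with ⟨u, v, hv, e⟩ | ⟨u, v, hv, hu, e⟩
  · exact hr ⟨x u / x v, u, v, hv, e, by rw [div_mul_cancel₀ _ hv]⟩
  · have h1 := ps_cross hinj (hP r) e
    have h2 : Rd π.V π.φ (P r * y u) (π.φ ⟨P r, hmem⟩ * x u) := (Rd.of_mem hmem).mul (hyx u)
    rw [← h1, hu, mul_zero] at h2
    exact hv ((hyx v).unique h2)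

omit [IsScalarTower K0 O L] in
private theorem ps_int (hinj : Function.Injective (algebraMap O L)) (ι : R →ₐ[K0] L)
    (hint : ∀ q : O, ι.toRingHom.IsIntegralElem (algebraMap O L q)) (π : Place K (Om K)) {y : O →ₐ[K0] Om K}
    {P : R →ₐ[K0] Om K} (hP : FR ι y P) (hmem : ∀ r, P r ∈ π.V) (q : O) : y q ∈ π.V := by
  obtain ⟨p, hp, hp0⟩ := hint q
  have key : ∀ p : R[X], PsReg y (p.eval₂ ι.toRingHom (algebraMap O L q)) (p.eval₂ (P : R →+* Om K) (y q)) := by
    intro p
    induction p using Polynomial.induction_on' with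
    | add p p' h h' => rw [eval₂_add, eval₂_add]; exact ps_add h h'
    | monomial n r => rw [eval₂_monomial, eval₂_monomial]; exact ps_mul (hP r) (ps_pow (ps_alg y q) n)
  have h1 := key p
  rw [hp0] at h1
  have h2 : p.eval₂ (P : R →+* Om K) (y q) = 0 := ps_unique hinj h1 (ps_zero y)
  have h3 : IsIntegral π.V (y q) := by
    let jj : R →+* π.V := (P : R →+* Om K).codRestrict π.V.toSubring hmem
    refine ⟨p.map jj, hp.map jj, ?_⟩
    rw [Polynomial.eval₂_map]
    exact h2
  obtain ⟨z, hz⟩ := (IsIntegrallyClosed.isIntegral_iff (R := π.V) (K := Om K)).1 h3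
  rw [← hz]
  exact z.2

omit [IsScalarTower K0 O L] in
private theorem fr_act (ι : R →ₐ[K0] L) (σ : Om K ≃ₐ[RatFunc K] Om K) {y : O →ₐ[K0] Om K} {P : R →ₐ[K0] Om K} (h : FR ι y P) :
    FR (F := Om K) ι ((pts K0 K O).act σ y) ((pts K0 K R).act σ P) := by
  intro r
  obtain ⟨u, v, hv, e1, e2⟩ := h r
  refine ⟨u, v, ?_, e1, ?_⟩
  · change σ (y v) ≠ 0
    rw [Ne, EmbeddingLike.map_eq_zero_iff]
    exact hv
  · change σ (y u) = σ (P r) * σ (y v)
    rw [e2, map_mul]

end place

section opt

variable {K0 O L R B F : Type} [Field K0] [CommRing O] [Algebra K0 O] [Field L] [Algebra K0 L] [Algebra O L]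
  [CommRing R] [Algebra K0 R] [CommRing B] [Field F] [Algebra K0 F]

open Classical in
private noncomputable def psg (j : B →+* O) (ι : R →ₐ[K0] L) {n : ℕ} (s : Fin n → O →ₐ[K0] F) : Option (Fin n → R →ₐ[K0] F) :=
  if h : ∃ P : Fin n → R →ₐ[K0] F, (∀ i, Function.Injective (fun b : B => s i (j b))) ∧ ∀ i, FR ι (s i) (P i) then
    some h.choose else none

private theorem psg_some (hinj : Function.Injective (algebraMap O L)) {j : B →+* O} {ι : R →ₐ[K0] L} {n : ℕ}
    {s : Fin n → O →ₐ[K0] F} {P : Fin n → R →ₐ[K0] F} :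
    psg j ι s = some P ↔ (∀ i, Function.Injective (fun b : B => s i (j b))) ∧ ∀ i, FR ι (s i) (P i) := by
  unfold psg
  constructor
  · intro h
    split_ifs at h with h1
    have h2 := h1.choose_spec
    rw [Option.some.injEq] at h
    rw [h] at h2
    exact h2
  · intro h
    have h1 : ∃ P : Fin n → R →ₐ[K0] F, (∀ i, Function.Injective (fun b : B => s i (j b))) ∧ ∀ i, FR ι (s i) (P i) := ⟨P, h⟩
    rw [dif_pos h1]
    congr 1
    funext i
    exact fr_unique hinj (h1.choose_spec.2 i) (h.2 i)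

end opt

section main

variable {K0 K O L R B : Type} [Field K0] [Field K] [Algebra K0 K] [CommRing O] [Algebra K0 O] [Field L] [Algebra K0 L] [Algebra O L]
  [IsScalarTower K0 O L] [CommRing R] [Algebra K0 R] [CommRing B]

private theorem psg_sp (hinj : Function.Injective (algebraMap O L)) (ι : R →ₐ[K0] L) (j : B →+* O)
    (hval : ∀ s : O →ₐ[K0] K, Function.Injective (fun b : B => s (j b)) → ∀ l : L,
      (∃ u v : O, s v ≠ 0 ∧ l * algebraMap O L v = algebraMap O L u) ∨
        ∃ u v : O, s v ≠ 0 ∧ s u = 0 ∧ l * algebraMap O L u = algebraMap O L v)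
    (π : Place K (Om K)) {n : ℕ} {s : Fin n → O →ₐ[K0] Om K} {p : Fin n → O →ₐ[K0] K}
    (hsp : ∀ i q, Rd π.V π.φ (s i q) (p i q)) (hg : ∀ i, Function.Injective (fun b : B => p i (j b))) :
    (∃ (P : Fin n → R →ₐ[K0] Om K) (P0 : Fin n → R →ₐ[K0] K), psg j ι s = some P ∧ psg j ι p = some P0 ∧
      ∀ i r, Rd π.V π.φ (P i r) (P0 i r)) ∨
    (psg j ι p = none ∧ ∀ P : Fin n → R →ₐ[K0] Om K, psg j ι s = some P → ∃ i r, P i r ∉ π.V) := by
  have hgs : ∀ i, Function.Injective (fun b : B => s i (j b)) := by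
    intro i b b' h
    apply hg i
    have h1 := hsp i (j b)
    have h2 := hsp i (j b')
    have h3 : s i (j b) = s i (j b') := h
    rw [h3] at h1
    exact h1.unique h2
  rcases hp : psg j ι p with _ | P0
  · right
    refine ⟨rfl, fun P hP => ?_⟩
    have hP' := (psg_some hinj).1 hP
    have h1 : ∃ i, ¬ ∃ Q : R →ₐ[K0] K, FR ι (p i) Q := by
      by_contra hc
      push Not at hc
      choose Q hQ using hc
      have h2 := (psg_some hinj).2 ⟨hg, hQ⟩
      rw [hp] at h2
      cases h2
    obtain ⟨i, hi⟩ := h1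
    obtain ⟨r, hr⟩ := ps_none hinj ι j hval π (hsp i) (hg i) hi (hP'.2 i)
    exact ⟨i, r, hr⟩
  · left
    have hp' := (psg_some hinj).1 hp
    choose P hP hP2 using fun i => ps_sp hinj ι π (hsp i) (hp'.2 i)
    exact ⟨P, P0, (psg_some hinj).2 ⟨hgs, hP⟩, rfl, hP2⟩

private theorem psg_rel (hinj : Function.Injective (algebraMap O L)) (ι : R →ₐ[K0] L) (j : B →+* O)
    (hval : ∀ s : O →ₐ[K0] K, Function.Injective (fun b : B => s (j b)) → ∀ l : L,
      (∃ u v : O, s v ≠ 0 ∧ l * algebraMap O L v = algebraMap O L u) ∨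
        ∃ u v : O, s v ≠ 0 ∧ s u = 0 ∧ l * algebraMap O L u = algebraMap O L v)
    (π : Place K (Om K)) {n : ℕ} {S : Multiset (Fin n → O →ₐ[K0] Om K)} {c : Multiset (Fin n → O →ₐ[K0] K)}
    (h : Multiset.Rel (fun (s : Fin n → O →ₐ[K0] Om K) (p : Fin n → O →ₐ[K0] K) =>
      (∀ i q, Rd π.V π.φ (s i q) (p i q)) ∧ ∀ i, Function.Injective (fun b : B => p i (j b))) S c) :
    ∃ T1 T2 : Multiset (Fin n → R →ₐ[K0] Om K), S.filterMap (psg j ι) = T1 + T2 ∧
      Multiset.Rel (fun (P : Fin n → R →ₐ[K0] Om K) (P0 : Fin n → R →ₐ[K0] K) => ∀ i r, Rd π.V π.φ (P i r) (P0 i r)) T1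
        (c.filterMap (psg j ι)) ∧ ∀ P ∈ T2, ∃ i r, P i r ∉ π.V := by
  induction h with
  | zero => exact ⟨0, 0, by simp, Multiset.Rel.zero, fun P hP => absurd hP (Multiset.notMem_zero P)⟩
  | @cons a b S c hab _ ih =>
    obtain ⟨T1, T2, e, h1, h2⟩ := ih
    rcases psg_sp hinj ι j hval π hab.1 hab.2 with ⟨P, P0, hP, hP0, hR⟩ | ⟨hp, hno⟩
    · rw [Multiset.filterMap_cons_some _ _ _ hP, Multiset.filterMap_cons_some _ _ _ hP0, e]
      exact ⟨P ::ₘ T1, T2, by rw [Multiset.cons_add], Multiset.Rel.cons hR h1, h2⟩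
    · rw [Multiset.filterMap_cons_none _ _ hp]
      rcases hs : psg j ι a with _ | P
      · rw [Multiset.filterMap_cons_none _ _ hs]
        exact ⟨T1, T2, e, h1, h2⟩
      · rw [Multiset.filterMap_cons_some _ _ _ hs, e]
        refine ⟨T1, P ::ₘ T2, by rw [Multiset.add_cons], h1, ?_⟩
        intro Q hQ
        rcases Multiset.mem_cons.1 hQ with rfl | hQ
        · exact hno _ hs
        · exact h2 Q hQ

omit [IsScalarTower K0 O L] in
private theorem psg_act (hinj : Function.Injective (algebraMap O L)) (ι : R →ₐ[K0] L) (j : B →+* O)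
    (σ : Om K ≃ₐ[RatFunc K] Om K) {n : ℕ} (s : Fin n → (pts K0 K O).Y) :
    psg (F := Om K) j ι (fun i => (pts K0 K O).act σ (s i)) =
      (psg (F := Om K) j ι s).map (fun P i => (pts K0 K R).act σ (P i)) := by
  rcases hs : psg (F := Om K) j ι s with _ | P
  · rcases hs' : psg (F := Om K) j ι (fun i => (pts K0 K O).act σ (s i)) with _ | P'
    · rfl
    · exfalso
      have h1 := (psg_some hinj).1 hs'
      have hss : ∀ i, (pts K0 K O).act σ.symm ((pts K0 K O).act σ (s i)) = s i :=
        fun i => AlgHom.ext fun q => σ.symm_apply_apply _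
      have h2 : psg (F := Om K) j ι s = some (fun i => (pts K0 K R).act σ.symm (P' i)) := by
        refine (psg_some hinj).2 ⟨fun i => ?_, fun i => ?_⟩
        · intro b b' e
          exact h1.1 i (congrArg σ e)
        · have h3 : FR (F := Om K) ι ((pts K0 K O).act σ.symm ((pts K0 K O).act σ (s i))) ((pts K0 K R).act σ.symm (P' i)) :=
            fr_act ι σ.symm (h1.2 i)
          rw [hss] at h3
          exact h3
      rw [hs] at h2
      cases h2
  · have h1 := (psg_some hinj).1 hs
    exact (psg_some hinj).2 ⟨fun i b b' e => h1.1 i (σ.injective e), fun i => fr_act ι σ (h1.2 i)⟩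

end main

theorem psiR {K0 K O L R B : Type} [Field K0] [Field K] [Algebra K0 K] [CommRing O] [Algebra K0 O] [Field L] [Algebra K0 L] [Algebra O L]
    [IsScalarTower K0 O L] [CommRing R] [Algebra K0 R] [CommRing B] (j : B →+* O) (hinj : Function.Injective (algebraMap O L)) (ι : R →ₐ[K0] L)
    (hint : ∀ q : O, ι.toRingHom.IsIntegralElem (algebraMap O L q))
    (hval : ∀ s : O →ₐ[K0] K, Function.Injective (fun b : B => s (j b)) → ∀ l : L,
      (∃ u v : O, s v ≠ 0 ∧ l * algebraMap O L v = algebraMap O L u) ∨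
        ∃ u v : O, s v ≠ 0 ∧ s u = 0 ∧ l * algebraMap O L u = algebraMap O L v)
    {G : Type} [AddCommGroup G] {n : ℕ} (Φ : Cyc (pts K0 K R) n →+ G) (hΦ : ∀ x ∈ RatEq (pts K0 K R) n, Φ x = 0) :
    ∃ cl : (Fin n → O →ₐ[K0] K) → G,
      RelR (pts K0 K O) (fun s : O →ₐ[K0] K => Function.Injective (fun b : B => s (j b))) cl ∧
      ∀ (s : Fin n → O →ₐ[K0] K) (P : Fin n → R →ₐ[K0] K), (∀ i, Function.Injective (fun b : B => s i (j b))) →
        (∀ i, FR ι (s i) (P i)) → cl s = Φ (Finsupp.single P 1) := by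
  classical
  have hsum : ∀ c : Multiset (Fin n → O →ₐ[K0] K),
      (c.map fun s : Fin n → O →ₐ[K0] K => (psg (F := K) j ι s).elim 0 (fun P => Φ (Finsupp.single P 1))).sum =
        Φ (((c.filterMap (psg (F := K) j ι)).map fun P : Fin n → R →ₐ[K0] K =>
          (Finsupp.single P 1 : (Fin n → R →ₐ[K0] K) →₀ ℤ)).sum) := by
    intro c
    induction c using Multiset.induction_on with
    | empty =>
      rw [Multiset.map_zero, Multiset.sum_zero, Multiset.filterMap_zero, Multiset.map_zero, Multiset.sum_zero]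
      exact (map_zero Φ).symm
    | cons p c ih =>
      rw [Multiset.map_cons, Multiset.sum_cons, ih]
      rcases h : psg (F := K) j ι p with _ | P
      · rw [Multiset.filterMap_cons_none _ _ h, Option.elim_none, zero_add]
      · rw [Multiset.filterMap_cons_some _ _ _ h, Option.elim_some, Multiset.map_cons, Multiset.sum_cons]
        exact (map_add Φ _ _).symm
  refine ⟨fun s => (psg (F := K) j ι s).elim 0 (fun P => Φ (Finsupp.single P 1)), ?_, ?_⟩
  · intro S π π' c c' hG hok hok' hF hF'
    have hfib : ∀ (π : Place K (Om K)) (c : Multiset (Fin n → (pts K0 K O).X)),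
        OkP (D := pts K0 K O) (fun s : O →ₐ[K0] K => Function.Injective (fun b : B => s (j b))) π S → Fibre π S c →
        Fibre (D := pts K0 K R) π (S.filterMap (psg (F := Om K) j ι)) (c.filterMap (psg (F := K) j ι)) := by
      rintro π c hok ⟨S1, S2, hS, hrel, hoff⟩
      have hrel' : Multiset.Rel (fun (s : Fin n → O →ₐ[K0] Om K) (p : Fin n → O →ₐ[K0] K) =>
          (∀ i q, Rd π.V π.φ (s i q) (p i q)) ∧ ∀ i, Function.Injective (fun b : B => p i (j b))) S1 c := by
        refine hrel.mono fun s hs p _ h => ⟨h, hok s ?_ p h⟩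
        rw [hS]
        exact Multiset.mem_add.2 (Or.inl hs)
      obtain ⟨T1, T2, e, hT1, hT2⟩ := psg_rel hinj ι j hval π hrel'
      refine ⟨T1, T2 + S2.filterMap (psg (F := Om K) j ι), ?_, hT1, ?_⟩
      · have e1 : Multiset.filterMap (psg (F := Om K) j ι) S =
            Multiset.filterMap (psg (F := Om K) j ι) S1 + Multiset.filterMap (psg (F := Om K) j ι) S2 :=
          (congrArg (Multiset.filterMap (psg (F := Om K) j ι)) hS).trans (Multiset.filterMap_add _ _ _)
        have e2 : Multiset.filterMap (psg (F := Om K) j ι) S1 + Multiset.filterMap (psg (F := Om K) j ι) S2 =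
            T1 + (T2 + Multiset.filterMap (psg (F := Om K) j ι) S2) := by
          rw [← add_assoc]
          exact congrArg (· + S2.filterMap (psg (F := Om K) j ι)) e
        exact e1.trans e2
      · intro P hP
        rcases Multiset.mem_add.1 hP with h | h
        · exact hT2 P h
        · obtain ⟨s, hs, hsP⟩ := (Multiset.mem_filterMap _ _).1 h
          obtain ⟨i, q, hq⟩ := hoff s hs
          have h1 := (psg_some hinj).1 hsP
          refine ⟨i, ?_⟩
          by_contra hc
          have hc' : ∀ r, (show R →ₐ[K0] Om K from P i) r ∈ π.V := by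
            intro r
            by_contra hr
            exact hc ⟨r, hr⟩
          exact hq (ps_int hinj ι hint π (h1.2 i) hc' q)
    have hGal : GalStable (D := pts K0 K R) (S.filterMap (psg (F := Om K) j ι)) := by
      intro σ
      have h1 : Multiset.filterMap (psg (F := Om K) j ι) (S.map (fun P i => (pts K0 K O).act σ (P i))) =
          Multiset.filterMap (psg (F := Om K) j ι) S := congrArg _ (hG σ)
      have h2 : Multiset.filterMap (psg (F := Om K) j ι) (S.map (fun P i => (pts K0 K O).act σ (P i))) =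
          Multiset.filterMap (psg (F := Om K) j ι ∘ fun P i => (pts K0 K O).act σ (P i)) S := Multiset.filterMap_map _ _ _
      have h3 : Multiset.filterMap (fun s => (psg (F := Om K) j ι s).map (fun P i => (pts K0 K R).act σ (P i))) S =
          Multiset.filterMap (psg (F := Om K) j ι ∘ fun P i => (pts K0 K O).act σ (P i)) S :=
        congrArg (fun f => Multiset.filterMap f S) (funext fun s => (psg_act hinj ι j σ s).symm)
      exact (Multiset.map_filterMap _ _ _).trans (h3.trans (h2.symm.trans h1))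
    refine (hsum c).trans (Eq.trans ?_ (hsum c').symm)
    rw [← sub_eq_zero, ← map_sub]
    exact hΦ _ (AddSubgroup.subset_closure
      ⟨S.filterMap (psg (F := Om K) j ι), π, π', _, _, hGal, hfib π c hok hF, hfib π' c' hok' hF', rfl⟩)
  · intro s P hs hP
    have h1 : psg (F := K) j ι s = some P := (psg_some hinj).2 ⟨hs, hP⟩
    change (psg (F := K) j ι s).elim 0 (fun P => Φ (Finsupp.single P 1)) = _
    rw [h1]
    rfl

end H19.DM
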