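import Pool.Agent.H19.DM.PDR

/-! # DM.TPD : points of `T` over `K ⊗ B` are homomorphisms of the coordinate ring (about 200 lines)

`of_pdR` with `D = pts K0 K (OT M be ga)`, `A' = K ⊗ B`, and for `F = K, Om K` the relation
`R P q := (∀ c : B, q (algebraMap B _ c) = P.b (1 ⊗ₜ c)) ∧ q (wT M be ga) = P.x ∧ q (dT M be ga) = P.y`.
`eY`: for `P` on `T` the homomorphism `OT → Ω` is `AdjoinRoot.lift (eval₂RingHom (P.b ∘ (1 ⊗ ·)) P.x) P.y _` (the equation `OnT` is exactly the vanishing of `X² - C (gT M be ga)`: `y² = -(x^(2M) - 2 γ x^M + β²)`), a `K0`-algebra homomorphism; see `hm_ex` in `Pool/Agent/H19/EM/HMap.lean` and `toPt`, `c_eq` in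
`Pool/Agent/H19/EM/V1.lean` for similar constructions.  `uX`, `uY`: homomorphisms out of `OT` which agree on `B`, `w`, `δ` are equal (`AdjoinRoot.algHom_ext'`/`ringHom_ext`, `Polynomial.ringHom_ext`; or `H19.VG.dc_gen`).
`sp`: if `P` specialises to `p` then `p` is on `T` (reduce the equation, as in `hmap`), so `eY` for `p` gives `x`, and `Rd (q r) (x r)` for all `r ∈ OT`: the set of such `r` is a subring which contains `B`, `w`, `δ` (`dc_gen`, `Polynomial.induction_on`).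
`off`: if `P` is not integral then some `P.b z ∉ V` (then some `P.b (1 ⊗ c) ∉ V`, because `K ⊂ V` and `P.b (a ⊗ c) = a * P.b (1 ⊗ c)`, `TensorProduct.induction_on`) or `P.x ∉ V` or `P.y ∉ V`: `q` takes a value outside `V`.
`hex`, `usp`: clear for `pts` (`Rd.mem`, `Rd.unique`).  `act`: clear.  `hAl`: with `Al b := Injective (fun c : B => b (1 ⊗ₜ c))`, `AlX = Gnr`: `q (algebraMap B _ c) = b (1 ⊗ c)`. -/

namespace H19.DM

open H68.BB H77.AF Polynomial TensorProduct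

/-- the point `P` of `T` corresponds to the homomorphism `q` of the coordinate ring -/
def CR {K0 K B F : Type} [Field K0] [Field K] [Algebra K0 K] [CommRing B] [Algebra K0 B] [Field F] [Algebra K F] [Algebra K0 F]
    {M : ℕ} {be ga : B} (P : H19.ES.Pt K (K ⊗[K0] B) F) (q : OT M be ga →ₐ[K0] F) : Prop :=
  (∀ c : B, q (algebraMap B (OT M be ga) c) = P.b ((1 : K) ⊗ₜ[K0] c)) ∧ q (wT M be ga) = P.x ∧ q (dT M be ga) = P.y

section gen

variable {K0 K B F : Type} [Field K0] [Field K] [Algebra K0 K] [CommRing B] [Algebra K0 B] [Field F] [Algebra K F] [Algebra K0 F]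
  {M : ℕ} {be ga : B}

/-- the base point as a homomorphism of `B` -/
private noncomputable def tp_b (P : H19.ES.Pt K (K ⊗[K0] B) F) : B →+* F :=
  (P.b : K ⊗[K0] B →+* F).comp (Algebra.TensorProduct.includeRight : B →ₐ[K0] K ⊗[K0] B).toRingHom

omit [Algebra K0 F] in
private theorem tp_b_apply (P : H19.ES.Pt K (K ⊗[K0] B) F) (c : B) : tp_b P c = P.b ((1 : K) ⊗ₜ[K0] c) := rfl

private theorem tp_map (c : B) : algebraMap B (OT M be ga) c = AdjoinRoot.of (X ^ 2 - C (gT M be ga)) (C c) := rfl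

private theorem tp_pol {P : H19.ES.Pt K (K ⊗[K0] B) F} {q : OT M be ga →ₐ[K0] F} (h : CR P q) (p : B[X]) :
    q (AdjoinRoot.of (X ^ 2 - C (gT M be ga)) p) = p.eval₂ (tp_b P) P.x := by
  have h1 : (q : OT M be ga →+* F).comp (AdjoinRoot.of (X ^ 2 - C (gT M be ga))) = eval₂RingHom (tp_b P) P.x := by
    refine Polynomial.ringHom_ext (fun c => ?_) ?_
    · rw [coe_eval₂RingHom, eval₂_C, tp_b_apply, ← h.1 c]
      rfl
    · rw [coe_eval₂RingHom, eval₂_X, ← h.2.1]
      rfl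
  exact RingHom.congr_fun h1 p

private theorem tp_uniq [Nontrivial B] {P : H19.ES.Pt K (K ⊗[K0] B) F} {q q' : OT M be ga →ₐ[K0] F} (h : CR P q) (h' : CR P q') : q = q' := by
  refine AlgHom.ext fun r => ?_
  obtain ⟨p, s, rfl⟩ := H19.VG.dc_gen (gT M be ga) r
  have e1 : q (AdjoinRoot.root (X ^ 2 - C (gT M be ga))) = P.y := h.2.2
  have e2 : q' (AdjoinRoot.root (X ^ 2 - C (gT M be ga))) = P.y := h'.2.2
  rw [map_add, map_add, map_mul, map_mul, tp_pol h, tp_pol h, tp_pol h', tp_pol h', e1, e2]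

private theorem tp_gT (φ : B →+* F) (x : F) : (gT M be ga).eval₂ φ x = -(x ^ (2 * M) - 2 * φ ga * x ^ M + φ be ^ 2) := by
  unfold gT
  simp only [eval₂_neg, eval₂_add, eval₂_sub, eval₂_mul, eval₂_pow, eval₂_X, eval₂_C, map_mul, map_pow, map_ofNat,
    eval₂_ofNat]

private theorem tp_ex [IsScalarTower K0 K F] (P : H19.ES.Pt K (K ⊗[K0] B) F)
    (hP : H19.ES.EM.OnT M ((1 : K) ⊗ₜ[K0] be) ((1 : K) ⊗ₜ[K0] ga) P) : ∃ q : OT M be ga →ₐ[K0] F, CR P q := by
  have h0 : (X ^ 2 - C (gT M be ga) : B[X][X]).eval₂ (eval₂RingHom (tp_b P) P.x) P.y = 0 := by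
    rw [eval₂_sub, eval₂_pow, eval₂_X, eval₂_C, coe_eval₂RingHom, tp_gT, tp_b_apply, tp_b_apply]
    unfold H19.ES.EM.OnT at hP
    linear_combination hP
  let f : OT M be ga →+* F := AdjoinRoot.lift (eval₂RingHom (tp_b P) P.x) P.y h0
  have hf : ∀ c : B, f (algebraMap B (OT M be ga) c) = P.b ((1 : K) ⊗ₜ[K0] c) := by
    intro c
    change AdjoinRoot.lift (eval₂RingHom (tp_b P) P.x) P.y h0 (AdjoinRoot.of _ (C c)) = _
    rw [AdjoinRoot.lift_of, coe_eval₂RingHom, eval₂_C, tp_b_apply]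
  refine ⟨{ f with commutes' := fun c => ?_ }, hf, ?_, ?_⟩
  · change f (algebraMap K0 (OT M be ga) c) = algebraMap K0 F c
    have h1 : algebraMap K0 (OT M be ga) c = algebraMap B (OT M be ga) (algebraMap K0 B c) := rfl
    rw [h1, hf]
    have h2 : ((1 : K) ⊗ₜ[K0] (algebraMap K0 B c) : K ⊗[K0] B) = algebraMap K (K ⊗[K0] B) (algebraMap K0 K c) := by
      rw [Algebra.TensorProduct.algebraMap_apply, Algebra.algebraMap_self, RingHom.id_apply,
        Algebra.algebraMap_eq_smul_one (A := B), Algebra.algebraMap_eq_smul_one (A := K), TensorProduct.tmul_smul,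
        TensorProduct.smul_tmul']
    rw [h2, AlgHom.commutes, ← IsScalarTower.algebraMap_apply]
  · change AdjoinRoot.lift (eval₂RingHom (tp_b P) P.x) P.y h0 (AdjoinRoot.of _ X) = _
    rw [AdjoinRoot.lift_of, coe_eval₂RingHom, eval₂_X]
  · change AdjoinRoot.lift (eval₂RingHom (tp_b P) P.x) P.y h0 (AdjoinRoot.root _) = _
    rw [AdjoinRoot.lift_root]

end gen

theorem cr_exists {K0 K B : Type} [Field K0] [Field K] [Algebra K0 K] [CommRing B] [Algebra K0 B]
    {M : ℕ} {be ga : B} (q : OT M be ga →ₐ[K0] K) :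
    ∃ P : H19.ES.Pt K (K ⊗[K0] B) K, CR P q ∧ H19.ES.EM.OnT M ((1 : K) ⊗ₜ[K0] be) ((1 : K) ⊗ₜ[K0] ga) P := by
  let g : B →ₐ[K0] K :=
    { (q : OT M be ga →+* K).comp (algebraMap B (OT M be ga)) with
      commutes' := fun c => q.commutes c }
  let b : K ⊗[K0] B →ₐ[K] K := Algebra.TensorProduct.lift (AlgHom.id K K) g (fun x y => Commute.all _ _)
  have hb : ∀ c : B, b ((1 : K) ⊗ₜ[K0] c) = q (algebraMap B (OT M be ga) c) := by
    intro c
    change Algebra.TensorProduct.lift (AlgHom.id K K) g (fun x y => Commute.all _ _) ((1 : K) ⊗ₜ[K0] c) = _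
    rw [Algebra.TensorProduct.lift_tmul, map_one, one_mul]
    rfl
  have hCR : CR (⟨b, q (wT M be ga), q (dT M be ga)⟩ : H19.ES.Pt K (K ⊗[K0] B) K) q :=
    ⟨fun c => (hb c).symm, rfl, rfl⟩
  refine ⟨_, hCR, ?_⟩
  have h1 : (dT M be ga) ^ 2 = AdjoinRoot.of (X ^ 2 - C (gT M be ga)) (gT M be ga) := by
    have h2 : AdjoinRoot.mk (X ^ 2 - C (gT M be ga)) (X ^ 2 - C (gT M be ga)) = 0 := AdjoinRoot.mk_self
    rw [map_sub, map_pow, AdjoinRoot.mk_X, AdjoinRoot.mk_C] at h2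
    exact sub_eq_zero.mp h2
  have h2 := congrArg q h1
  rw [tp_pol hCR, tp_gT, map_pow, tp_b_apply, tp_b_apply] at h2
  unfold H19.ES.EM.OnT
  linear_combination h2

theorem tpd {K0 K B : Type} [Field K0] [Field K] [Algebra K0 K] [CommRing B] [Nontrivial B] [Algebra K0 B] {M k : ℕ} {be ga : B}
    {G : Type} [AddCommGroup G] (cl : (Fin k → OT M be ga →ₐ[K0] K) → G)
    (hcl : RelR (pts K0 K (OT M be ga)) (fun q : OT M be ga →ₐ[K0] K => Gnr q) cl) :
    ∃ Ψ : H19.ES.EM.FnlR (A := K ⊗[K0] B) (fun b => Function.Injective (fun c : B => b ((1 : K) ⊗ₜ[K0] c)))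
      (H19.ES.EM.OnT M ((1 : K) ⊗ₜ[K0] be) ((1 : K) ⊗ₜ[K0] ga)) k G,
      ∀ (p : Fin k → H19.ES.Pt K (K ⊗[K0] B) K) (x : Fin k → OT M be ga →ₐ[K0] K), (∀ i, CR (p i) (x i)) → Ψ.cl p = cl x := by
  refine H19.ES.EM.of_pdR (D := pts K0 K (OT M be ga))
    (On := H19.ES.EM.OnT M ((1 : K) ⊗ₜ[K0] be) ((1 : K) ⊗ₜ[K0] ga))
    (Al := fun b => Function.Injective (fun c : B => b ((1 : K) ⊗ₜ[K0] c)))
    (AlX := fun q : OT M be ga →ₐ[K0] K => Gnr q)
    (fun (p : H19.ES.Pt K (K ⊗[K0] B) K) (q : OT M be ga →ₐ[K0] K) => CR p q)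
    (fun (P : H19.ES.Pt K (K ⊗[K0] B) (Om K)) (q : OT M be ga →ₐ[K0] Om K) => CR P q)
    (fun p x x' h h' => tp_uniq h h') (fun P y y' h h' => tp_uniq h h') (fun P hP => tp_ex P hP)
    ?_ ?_ ?_ ?_ ?_ ?_ cl hcl
  · intro σ P y h
    refine ⟨fun c => ?_, ?_, ?_⟩
    · exact congrArg σ (h.1 c)
    · exact congrArg σ h.2.1
    · exact congrArg σ h.2.2
  · intro π P (y : OT M be ga →ₐ[K0] Om K) p hP h hs
    have hp : H19.ES.EM.OnT M ((1 : K) ⊗ₜ[K0] be) ((1 : K) ⊗ₜ[K0] ga) p := by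
      have h1 := (((hs.2.2.pow 2).add (hs.2.1.pow (2 * M))).sub
        ((Rd.two.mul (hs.1 ((1 : K) ⊗ₜ[K0] ga))).mul (hs.2.1.pow M))).add ((hs.1 ((1 : K) ⊗ₜ[K0] be)).pow 2)
      unfold H19.ES.EM.OnT at hP
      rw [hP] at h1
      exact h1.unique Rd.zero
    obtain ⟨x, hx⟩ := tp_ex p hp
    refine ⟨x, hx, ?_⟩
    have hpol : ∀ f : B[X], Rd π.V π.φ (f.eval₂ (tp_b P) P.x) (f.eval₂ (tp_b p) p.x) := by
      intro f
      induction f using Polynomial.induction_on' with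
      | add f g hf hg =>
        rw [eval₂_add, eval₂_add]
        exact hf.add hg
      | monomial n a =>
        rw [eval₂_monomial, eval₂_monomial]
        exact (hs.1 ((1 : K) ⊗ₜ[K0] a)).mul (hs.2.1.pow n)
    intro r
    obtain ⟨f, g, rfl⟩ := H19.VG.dc_gen (gT M be ga) r
    have e1 : y (AdjoinRoot.root (X ^ 2 - C (gT M be ga))) = P.y := h.2.2
    have e2 : x (AdjoinRoot.root (X ^ 2 - C (gT M be ga))) = p.y := hx.2.2
    rw [map_add, map_add, map_mul, map_mul, tp_pol h, tp_pol h, tp_pol hx, tp_pol hx, e1, e2]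
    exact (hpol f).add ((hpol g).mul hs.2.2)
  · intro π P (y : OT M be ga →ₐ[K0] Om K) hP h hint
    by_contra hcon
    apply hint
    have hall : ∀ r : OT M be ga, y r ∈ π.V := by
      intro r
      by_contra hr
      exact hcon ⟨r, hr⟩
    have hb : ∀ c : B, P.b ((1 : K) ⊗ₜ[K0] c) ∈ π.V := by
      intro c
      rw [← h.1 c]
      exact hall _
    refine ⟨fun z => ?_, ?_, ?_⟩
    · induction z using TensorProduct.induction_on with
      | zero =>
        rw [map_zero]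
        exact π.V.zero_mem
      | tmul a c =>
        have h1 : (a ⊗ₜ[K0] c : K ⊗[K0] B) = a • ((1 : K) ⊗ₜ[K0] c) := by
          rw [TensorProduct.smul_tmul', smul_eq_mul, mul_one]
        rw [h1, map_smul, Algebra.smul_def]
        exact π.V.mul_mem _ _ (π.const a).choose (hb c)
      | add z z' hz hz' =>
        rw [map_add]
        exact π.V.add_mem _ _ hz hz'
    · rw [← h.2.1]
      exact hall _
    · rw [← h.2.2]
      exact hall _
  · intro π y x h hoff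
    obtain ⟨r, hr⟩ := hoff
    exact hr (h r).mem
  · intro π y x x' h h'
    exact AlgHom.ext fun r => (h r).unique (h' r)
  · intro p x h hp c c' hcc
    apply hp
    change p.b ((1 : K) ⊗ₜ[K0] c) = p.b ((1 : K) ⊗ₜ[K0] c')
    rw [← h.1 c, ← h.1 c']
    exact hcc

end H19.DM
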