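import Pool.Agent.H19.DM.SqT

/-! # DM.Val : the local rings of `T` at points over the generic point of the base are valuation rings (MATHLIB, about 250 lines)

`k = FractionRing B`, `S = k[X]`, `L` the fraction field of `OT`.  `L` is a finite separable extension of `Frac S` (of degree 2, characteristic zero): `w`, `δ ∈ L`, `δ² = gT(w)`.
(1) `S → L` (`X ↦ w`; injective, `w` is transcendental over `B` because `B[X] → OT` is injective, `dc_gen` and its uniqueness; use `dc_dom`-style lemma or `AdjoinRoot` facts), algebra structures `S`, `FractionRing S = k(w)` on `L`; every element of `L` is `a + b δ` with `a, b ∈ k(w)` (fractions of `p + q δ`: multiply by the conjugate).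
(2) `D` = the integral closure of `S` in `L` is a Dedekind domain (`integralClosure.isDedekindDomain S (FractionRing S) L`).  CLAIM: `D = {p + q δ : p, q ∈ S}`: if `a + b δ` is integral over `S` then so is its conjugate (or: trace and norm), `2a ∈ S` and `a² - gT b² ∈ S` (`S` is integrally closed), `gT b² ∈ S`, `gT` squarefree (`sqf_T`):
`b ∈ S` (write `b = b1 / b2` coprime: `b2² ∣ gT`, so `b2` is a unit; `Squarefree`).
(3) So every element of `D` is `u / c` with `u ∈ OT` (image), `0 ≠ c ∈ B`.  A homomorphism `s : OT → F` with `s|B` injective extends to `D → F`: `u / c ↦ s u / s c` (well defined: `u c' = u' c` in `L`, so in `OT`).  `p` = its kernel, a prime ideal of `D`.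
(4) Given `l ∈ L`.  If `p = 0`: `l = a / b` with `a, b ∈ OT`, `b ≠ 0`, so `s b ≠ 0` (first alternative).  If `p ≠ 0`: the localisation `D_p` is a discrete valuation ring (`IsLocalization.AtPrime.isDiscreteValuationRing_of_dedekind_domain`), so `l ∈ D_p` or `l⁻¹ ∈` the maximal ideal of `D_p` (`ValuationRing`), i.e. `l = a / b` with
`a, b ∈ D`, `b ∉ p`: first alternative after clearing denominators from `B` (`s c ≠ 0` for `0 ≠ c ∈ B`), or `l⁻¹ = a / b`, `a ∈ p`, `b ∉ p`: second alternative.
(Any other proof is fine, e.g. directly: the kernel of `s` on `k[w, δ]` and a uniformiser.)  `l = 0` is in the first alternative. -/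

namespace H19.DM

open Polynomial

private theorem val_denom {B : Type} [CommRing B] [IsDomain B] (P : (FractionRing B)[X]) :
    ∃ (c : B) (P' : B[X]), c ≠ 0 ∧
      P'.map (algebraMap B (FractionRing B)) = C (algebraMap B (FractionRing B) c) * P := by
  obtain ⟨b, hbm, hb⟩ := IsLocalization.integerNormalization_spec (nonZeroDivisors B) P
  refine ⟨b, IsLocalization.integerNormalization (nonZeroDivisors B) P, nonZeroDivisors.ne_zero hbm, ?_⟩
  rw [hb, Algebra.smul_def]
  rfl

/-- the kernel of a homomorphism `B[X] → F`, injective on `B`, not injective, is generated up to constants by one polynomial -/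
private theorem val_poly {B F : Type} [CommRing B] [IsDomain B] [Field F] (σ : B[X] →+* F)
    (hσ : ∀ c : B, σ (C c) = 0 → c = 0) {p0 : B[X]} (h0 : p0 ≠ 0) (hp0 : σ p0 = 0) :
    ∃ π : B[X], σ π = 0 ∧
      (∀ g : B[X], Squarefree (g.map (algebraMap B (FractionRing B))) →
        ∀ (a : ℕ) (c : B) (g' : B[X]), c ≠ 0 → C c * g = π ^ a * g' → a ≤ 1) ∧
      ∀ p : B[X], p ≠ 0 → ∃ (a : ℕ) (c : B) (p' : B[X]), c ≠ 0 ∧ σ p' ≠ 0 ∧ C c * p = π ^ a * p' := by
  set f : B →+* FractionRing B := algebraMap B (FractionRing B) with hf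
  have hfi : Function.Injective f := IsFractionRing.injective B (FractionRing B)
  have hinj : Function.Injective (σ.comp C) := by
    rw [injective_iff_map_eq_zero]
    exact hσ
  set lf : FractionRing B →+* F := IsFractionRing.lift hinj with hlf
  have hlf1 : ∀ c : B, lf (f c) = σ (C c) := fun c => IsFractionRing.lift_algebraMap hinj c
  set τ : (FractionRing B)[X] →+* F := eval₂RingHom lf (σ X) with hτ
  have hτσ : ∀ p : B[X], τ (p.map f) = σ p := by
    have h1 : τ.comp (mapRingHom f) = σ := by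
      apply Polynomial.ringHom_ext
      · intro c
        simp [hτ, hlf1]
      · simp [hτ]
    intro p
    rw [← h1]
    rfl
  have hker : (RingHom.ker τ).IsPrime := RingHom.ker_isPrime τ
  set ϖ : (FractionRing B)[X] := Submodule.IsPrincipal.generator (RingHom.ker τ) with hϖ
  have hmem : ∀ P : (FractionRing B)[X], τ P = 0 ↔ ϖ ∣ P := by
    intro P
    rw [← RingHom.mem_ker, Submodule.IsPrincipal.mem_iff_generator_dvd]
  have hϖ0 : ϖ ≠ 0 := by
    intro h1
    have h2 : τ (p0.map f) = 0 := by rw [hτσ, hp0]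
    rw [hmem, h1, zero_dvd_iff] at h2
    exact h0 ((Polynomial.map_eq_zero_iff hfi).1 h2)
  have hϖτ : τ ϖ = 0 := (hmem ϖ).2 dvd_rfl
  have hϖu : ¬ IsUnit ϖ := by
    intro h1
    have h2 := h1.map τ
    rw [hϖτ] at h2
    exact not_isUnit_zero h2
  obtain ⟨d, π, hd0, hπ⟩ := val_denom ϖ
  have hfd : f d ≠ 0 := fun h1 => hd0 (hfi (by rw [h1, map_zero]))
  refine ⟨π, ?_, ?_, ?_⟩
  · rw [← hτσ, hπ, map_mul, hϖτ, mul_zero]
  · intro g hg a c g' hc hgc
    by_contra ha
    have h1 : f c ≠ 0 := fun h2 => hc (hfi (by rw [h2, map_zero]))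
    have h3 : C (f c) * g.map f = (C (f d) * ϖ) ^ a * g'.map f := by
      have h4 := congrArg (Polynomial.map f) hgc
      rw [Polynomial.map_mul, Polynomial.map_mul, Polynomial.map_pow, hπ, Polynomial.map_C] at h4
      exact h4
    have h5 : ϖ * ϖ ∣ g.map f := by
      have h6 : ϖ * ϖ ∣ C (f c) * g.map f := by
        rw [h3, mul_pow]
        obtain ⟨b, rfl⟩ : ∃ b, a = b + 2 := ⟨a - 2, by omega⟩
        exact ⟨C (f d) ^ (b + 2) * ϖ ^ b * g'.map f, by ring⟩
      have h7 : IsUnit (C (f c)) := Polynomial.isUnit_C.2 (isUnit_iff_ne_zero.2 h1)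
      exact (h7.dvd_mul_left).1 h6
    exact hϖu (hg ϖ h5)
  · intro p hp
    have hpm : p.map f ≠ 0 := (Polynomial.map_ne_zero_iff hfi).2 hp
    obtain ⟨P1, hP1, hnd⟩ := (FiniteMultiplicity.of_not_isUnit hϖu hpm).exists_eq_pow_mul_and_not_dvd
    set a := multiplicity ϖ (p.map f) with ha
    obtain ⟨c, p', hc0, hp'⟩ := val_denom P1
    have hfc : f c ≠ 0 := fun h1 => hc0 (hfi (by rw [h1, map_zero]))
    refine ⟨a, d ^ a * c, p', mul_ne_zero (pow_ne_zero _ hd0) hc0, ?_, ?_⟩
    · rw [← hτσ, hp', map_mul]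
      refine mul_ne_zero ?_ fun h1 => hnd ((hmem P1).1 h1)
      have h2 : τ (C (f c)) = lf (f c) := by simp [hτ]
      rw [h2]
      exact (map_ne_zero lf).2 hfc
    · apply Polynomial.map_injective f hfi
      rw [Polynomial.map_mul, Polynomial.map_mul, Polynomial.map_pow, hπ, hp', Polynomial.map_C, hP1, map_mul,
        map_pow, C_mul, C_pow]
      ring

/-- the dichotomy from a uniformiser -/
private theorem val_dich {O L F : Type} [CommRing O] [IsDomain O] [Field L] [Algebra O L] [IsFractionRing O L]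
    [Field F] (s : O →+* F) (t : O) (ht : s t = 0)
    (hu : ∀ x : O, x ≠ 0 → ∃ (m : ℕ) (a b : O), s a ≠ 0 ∧ s b ≠ 0 ∧ b * x = t ^ m * a) (l : L) :
    (∃ u v : O, s v ≠ 0 ∧ l * algebraMap O L v = algebraMap O L u) ∨
      ∃ u v : O, s v ≠ 0 ∧ s u = 0 ∧ l * algebraMap O L u = algebraMap O L v := by
  obtain ⟨x, y, hy, rfl⟩ := IsFractionRing.div_surjective (A := O) l
  have hy0 : y ≠ 0 := nonZeroDivisors.ne_zero hy
  have hinj : Function.Injective (algebraMap O L) := IsFractionRing.injective O L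
  have hyL : algebraMap O L y ≠ 0 := fun h => hy0 (hinj (by rw [h, map_zero]))
  by_cases hx : x = 0
  · left
    refine ⟨0, 1, ?_, ?_⟩
    · rw [map_one]; exact one_ne_zero
    · rw [hx, map_zero, zero_div, zero_mul]
  obtain ⟨m, a, b, ha, hb, h1⟩ := hu x hx
  obtain ⟨n, a', b', ha', hb', h2⟩ := hu y hy0
  have hbb : b ≠ 0 := fun h => hb (by rw [h, map_zero])
  have hbb' : b' ≠ 0 := fun h => hb' (by rw [h, map_zero])
  have key : ∀ u v : O, x * v = y * u → algebraMap O L x / algebraMap O L y * algebraMap O L v = algebraMap O L u := by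
    intro u v h
    rw [div_mul_eq_mul_div, div_eq_iff hyL, ← map_mul, ← map_mul, h, mul_comm]
  rcases le_or_gt n m with hnm | hnm
  · left
    obtain ⟨j, rfl⟩ : ∃ j, m = n + j := ⟨m - n, by omega⟩
    refine ⟨t ^ j * a * b', b * a', ?_, key _ _ ?_⟩
    · rw [map_mul]; exact mul_ne_zero hb ha'
    · have h3 : b' * (x * (b * a')) = b' * (y * (t ^ j * a * b')) := by
        calc b' * (x * (b * a')) = b' * a' * (b * x) := by ring
          _ = b' * a' * (t ^ (n + j) * a) := by rw [h1]
          _ = b' * (t ^ j * a) * (t ^ n * a') := by ring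
          _ = b' * (t ^ j * a) * (b' * y) := by rw [h2]
          _ = _ := by ring
      exact mul_left_cancel₀ hbb' h3
  · right
    obtain ⟨j, rfl⟩ : ∃ j, n = m + (j + 1) := ⟨n - m - 1, by omega⟩
    refine ⟨t ^ (j + 1) * b * a', a * b', ?_, ?_, key _ _ ?_⟩
    · rw [map_mul]; exact mul_ne_zero ha hb'
    · rw [map_mul, map_mul, map_pow, ht]; simp
    · have h3 : x * (t ^ (j + 1) * b * a') = y * (a * b') := by
        calc x * (t ^ (j + 1) * b * a') = (b * x) * (t ^ (j + 1) * a') := by ring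
          _ = (t ^ m * a) * (t ^ (j + 1) * a') := by rw [h1]
          _ = (t ^ (m + (j + 1)) * a') * a := by ring
          _ = (b' * y) * a := by rw [h2]
          _ = _ := by ring
      exact h3

private theorem val_root {A : Type} [CommRing A] (g : A[X]) :
    AdjoinRoot.root (X ^ 2 - C g) ^ 2 = AdjoinRoot.of (X ^ 2 - C g) g := by
  have h2 : AdjoinRoot.mk (X ^ 2 - C g) (X ^ 2 - C g) = 0 := AdjoinRoot.mk_self
  rw [map_sub, map_pow, AdjoinRoot.mk_X, AdjoinRoot.mk_C] at h2
  exact sub_eq_zero.mp h2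

/-- the uniformiser on a double cover -/
private theorem val_unif {B F : Type} [CommRing B] [IsDomain B] [Field F] (g : B[X]) [IsDomain (H19.VG.RG g)]
    (h2F : (2 : F) ≠ 0)
    (hsq : Squarefree (g.map (algebraMap B (FractionRing B)))) (s : H19.VG.RG g →+* F)
    (hs : ∀ c : B, s (AdjoinRoot.of (X ^ 2 - C g) (C c)) = 0 → c = 0) {x0 : H19.VG.RG g} (hx0 : x0 ≠ 0)
    (hsx0 : s x0 = 0) :
    ∃ t : H19.VG.RG g, s t = 0 ∧
      ∀ x : H19.VG.RG g, x ≠ 0 → ∃ (m : ℕ) (a b : H19.VG.RG g), s a ≠ 0 ∧ s b ≠ 0 ∧ b * x = t ^ m * a := by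
  set i : B[X] →+* H19.VG.RG g := AdjoinRoot.of (X ^ 2 - C g) with hi
  set δ : H19.VG.RG g := AdjoinRoot.root (X ^ 2 - C g) with hδ
  have hδ2 : δ ^ 2 = i g := val_root g
  have hcr : ∀ p q : B[X], (i p + i q * δ) * (i p - i q * δ) = i (p ^ 2 - g * q ^ 2) := by
    intro p q
    rw [map_sub, map_mul, map_pow, map_pow, ← hδ2]
    ring
  set σ : B[X] →+* F := s.comp i with hσ
  have hσi : ∀ p : B[X], s (i p) = σ p := fun p => rfl
  have hσC : ∀ c : B, σ (C c) = 0 → c = 0 := hs
  have hcne : ∀ c : B, c ≠ 0 → s (i (C c)) ≠ 0 := fun c hc h => hc (hs c h)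
  have hii : ∀ {p : B[X]}, p ≠ 0 → i p = 0 → False := by
    intro p hp h
    have h1 := (H19.VG.dc_monic g)
    have h2 : AdjoinRoot.mk (X ^ 2 - C g) (C p) = 0 := by rw [AdjoinRoot.mk_C]; exact h
    rw [AdjoinRoot.mk_eq_zero] at h2
    refine h1.not_dvd_of_natDegree_lt (by simpa using hp) ?_ h2
    rw [natDegree_C, natDegree_X_pow_sub_C]
    norm_num
  -- the kernel of `σ` is not zero
  obtain ⟨p0, hp0, hσp0⟩ : ∃ p0 : B[X], p0 ≠ 0 ∧ σ p0 = 0 := by
    obtain ⟨p, q, hpq⟩ := H19.VG.dc_gen g x0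
    have hpq' : x0 = i p + i q * δ := hpq
    by_cases hc : i p - i q * δ = 0
    · have hq : q ≠ 0 := by
        rintro rfl
        rw [map_zero, zero_mul, sub_zero] at hc
        rw [hc, map_zero, zero_mul, add_zero] at hpq'
        exact hx0 hpq'
      have h1 : i p = i q * δ := sub_eq_zero.1 hc
      have h2 : x0 = 2 * i p := by rw [hpq', ← h1]; ring
      have h3 : σ p = 0 := by
        have h4 : s x0 = 2 * s (i p) := by rw [h2, map_mul, map_ofNat]
        rw [hsx0] at h4
        exact (mul_eq_zero.1 h4.symm).resolve_left h2F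
      refine ⟨p, ?_, h3⟩
      rintro rfl
      rw [map_zero, mul_zero] at h2
      exact hx0 h2
    · refine ⟨p ^ 2 - g * q ^ 2, ?_, ?_⟩
      · intro h1
        have h2 := hcr p q
        rw [h1, map_zero, ← hpq'] at h2
        exact (mul_ne_zero hx0 hc) h2
      · rw [← hσi, ← hcr, map_mul, ← hpq', hsx0, zero_mul]
  obtain ⟨π, hπ, hsf, hdiv⟩ := val_poly σ hσC hp0 hσp0
  by_cases hsδ : s δ = 0
  · -- ramified case: the uniformiser is `δ`
    have hg0 : g ≠ 0 := by
      rintro rfl
      rw [Polynomial.map_zero] at hsq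
      exact not_squarefree_zero hsq
    obtain ⟨e, c, f1, hc, hf1, hcg⟩ := hdiv g hg0
    have hσg : σ g = 0 := by
      rw [← hσi, ← hδ2, map_pow, hsδ]
      simp
    have he : e = 1 := by
      have h1 := hsf g hsq e c f1 hc hcg
      have h2 : e ≠ 0 := by
        rintro rfl
        have h3 := congrArg σ hcg
        rw [map_mul, hσg, mul_zero, pow_zero, one_mul] at h3
        exact hf1 h3.symm
      omega
    subst he
    rw [pow_one] at hcg
    have hrel : i (C c) * δ ^ 2 = i π * i f1 := by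
      rw [hδ2, ← map_mul, hcg, map_mul]
    have hrelp : ∀ a : ℕ, i π ^ a * i f1 ^ a = i (C c) ^ a * δ ^ (2 * a) := by
      intro a
      rw [pow_mul, ← mul_pow, ← mul_pow, hrel]
    refine ⟨δ, hsδ, ?_⟩
    intro x hx
    obtain ⟨p, q, hpq⟩ := H19.VG.dc_gen g x
    have hpq' : x = i p + i q * δ := hpq
    by_cases hp : p = 0
    · have hq : q ≠ 0 := by
        rintro rfl
        rw [hp] at hpq'
        simp at hpq'
        exact hx hpq'
      obtain ⟨b, c2, q', hc2, hq', hqd⟩ := hdiv q hq
      refine ⟨2 * b + 1, i (C c) ^ b * i q', i (C c2) * i f1 ^ b, ?_, ?_, ?_⟩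
      · rw [map_mul, map_pow]
        exact mul_ne_zero (pow_ne_zero _ (hcne c hc)) hq'
      · rw [map_mul, map_pow]
        exact mul_ne_zero (hcne c2 hc2) (pow_ne_zero _ hf1)
      · have h1 : i (C c2) * i q = i π ^ b * i q' := by rw [← map_mul, hqd, map_mul, map_pow]
        rw [hpq', hp, map_zero, zero_add]
        calc i (C c2) * i f1 ^ b * (i q * δ) = i f1 ^ b * (i (C c2) * i q) * δ := by ring
          _ = (i π ^ b * i f1 ^ b) * i q' * δ := by rw [h1]; ring
          _ = _ := by rw [hrelp]; ring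
    by_cases hq : q = 0
    · obtain ⟨a, c1, p', hc1, hp', hpd⟩ := hdiv p hp
      refine ⟨2 * a, i (C c) ^ a * i p', i (C c1) * i f1 ^ a, ?_, ?_, ?_⟩
      · rw [map_mul, map_pow]
        exact mul_ne_zero (pow_ne_zero _ (hcne c hc)) hp'
      · rw [map_mul, map_pow]
        exact mul_ne_zero (hcne c1 hc1) (pow_ne_zero _ hf1)
      · have h1 : i (C c1) * i p = i π ^ a * i p' := by rw [← map_mul, hpd, map_mul, map_pow]
        rw [hpq', hq, map_zero, zero_mul, add_zero]
        calc i (C c1) * i f1 ^ a * i p = i f1 ^ a * (i (C c1) * i p) := by ring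
          _ = (i π ^ a * i f1 ^ a) * i p' := by rw [h1]; ring
          _ = _ := by rw [hrelp]; ring
    obtain ⟨a, c1, p', hc1, hp', hpd⟩ := hdiv p hp
    obtain ⟨b, c2, q', hc2, hq', hqd⟩ := hdiv q hq
    have h1 : i (C c1) * i p = i π ^ a * i p' := by rw [← map_mul, hpd, map_mul, map_pow]
    have h2 : i (C c2) * i q = i π ^ b * i q' := by rw [← map_mul, hqd, map_mul, map_pow]
    have h3 : i (C c1) * i (C c2) * i f1 ^ (a + b) * x =
        i (C c2) * i (C c) ^ a * i f1 ^ b * i p' * δ ^ (2 * a) +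
          i (C c1) * i (C c) ^ b * i f1 ^ a * i q' * δ ^ (2 * b + 1) := by
      rw [hpq']
      calc i (C c1) * i (C c2) * i f1 ^ (a + b) * (i p + i q * δ) =
            i (C c2) * i f1 ^ b * (i f1 ^ a * (i (C c1) * i p)) +
              i (C c1) * i f1 ^ a * (i f1 ^ b * (i (C c2) * i q)) * δ := by rw [pow_add]; ring
        _ = i (C c2) * i f1 ^ b * ((i π ^ a * i f1 ^ a) * i p') +
              i (C c1) * i f1 ^ a * ((i π ^ b * i f1 ^ b) * i q') * δ := by rw [h1, h2]; ring
        _ = _ := by rw [hrelp, hrelp]; ring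
    have hB : s (i (C c1) * i (C c2) * i f1 ^ (a + b)) ≠ 0 := by
      rw [map_mul, map_mul, map_pow]
      exact mul_ne_zero (mul_ne_zero (hcne c1 hc1) (hcne c2 hc2)) (pow_ne_zero _ hf1)
    rcases le_or_gt a b with hab | hab
    · obtain ⟨j, rfl⟩ : ∃ j, b = a + j := ⟨b - a, by omega⟩
      refine ⟨2 * a, i (C c2) * i (C c) ^ a * i f1 ^ (a + j) * i p' +
        i (C c1) * i (C c) ^ (a + j) * i f1 ^ a * i q' * δ ^ (2 * j + 1), _, ?_, hB, ?_⟩
      · rw [map_add, map_mul _ _ (δ ^ (2 * j + 1)), map_pow _ δ, hsδ, zero_pow (by omega), mul_zero, add_zero]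
        simp only [map_mul, map_pow]
        exact mul_ne_zero (mul_ne_zero (mul_ne_zero (hcne c2 hc2) (pow_ne_zero _ (hcne c hc)))
          (pow_ne_zero _ hf1)) hp'
      · rw [h3]
        have e1 : 2 * (a + j) + 1 = 2 * a + (2 * j + 1) := by ring
        rw [e1, pow_add δ]
        ring
    · obtain ⟨j, rfl⟩ : ∃ j, a = b + (j + 1) := ⟨a - b - 1, by omega⟩
      refine ⟨2 * b + 1, i (C c2) * i (C c) ^ (b + (j + 1)) * i f1 ^ b * i p' * δ ^ (2 * j + 1) +
        i (C c1) * i (C c) ^ b * i f1 ^ (b + (j + 1)) * i q', _, ?_, hB, ?_⟩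
      · rw [map_add, map_mul _ _ (δ ^ (2 * j + 1)), map_pow _ δ, hsδ, zero_pow (by omega), mul_zero, zero_add]
        simp only [map_mul, map_pow]
        exact mul_ne_zero (mul_ne_zero (mul_ne_zero (hcne c1 hc1) (pow_ne_zero _ (hcne c hc)))
          (pow_ne_zero _ hf1)) hq'
      · rw [h3]
        have e1 : 2 * (b + (j + 1)) = (2 * b + 1) + (2 * j + 1) := by ring
        rw [e1, pow_add δ]
        ring
  · -- unramified case: the uniformiser is `π`
    refine ⟨i π, hπ, ?_⟩
    intro x hx
    obtain ⟨p, q, hpq⟩ := H19.VG.dc_gen g x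
    have hpq' : x = i p + i q * δ := hpq
    -- remove the common power of `π`
    obtain ⟨m, c, p1, q1, hc, hpq1, h1⟩ : ∃ (m : ℕ) (c : B) (p1 q1 : B[X]), c ≠ 0 ∧ (σ p1 ≠ 0 ∨ σ q1 ≠ 0) ∧
        i (C c) * x = i π ^ m * (i p1 + i q1 * δ) := by
      by_cases hp : p = 0
      · have hq : q ≠ 0 := by
          rintro rfl
          rw [hp] at hpq'
          simp at hpq'
          exact hx hpq'
        obtain ⟨b, c2, q', hc2, hq', hqd⟩ := hdiv q hq
        have h2 : i (C c2) * i q = i π ^ b * i q' := by rw [← map_mul, hqd, map_mul, map_pow]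
        refine ⟨b, c2, 0, q', hc2, Or.inr hq', ?_⟩
        rw [hpq', hp, map_zero, zero_add, zero_add, ← mul_assoc, h2]
        ring
      by_cases hq : q = 0
      · obtain ⟨a, c1, p', hc1, hp', hpd⟩ := hdiv p hp
        have h1 : i (C c1) * i p = i π ^ a * i p' := by rw [← map_mul, hpd, map_mul, map_pow]
        refine ⟨a, c1, p', 0, hc1, Or.inl hp', ?_⟩
        rw [hpq', hq, map_zero, zero_mul, add_zero, add_zero, h1]
      obtain ⟨a, c1, p', hc1, hp', hpd⟩ := hdiv p hp
      obtain ⟨b, c2, q', hc2, hq', hqd⟩ := hdiv q hq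
      have h1 : i (C c1) * i p = i π ^ a * i p' := by rw [← map_mul, hpd, map_mul, map_pow]
      have h2 : i (C c2) * i q = i π ^ b * i q' := by rw [← map_mul, hqd, map_mul, map_pow]
      have h3 : i (C (c1 * c2)) * x = i (C c2) * (i π ^ a * i p') + i (C c1) * (i π ^ b * i q') * δ := by
        rw [hpq', C_mul, map_mul]
        calc i (C c1) * i (C c2) * (i p + i q * δ) = i (C c2) * (i (C c1) * i p) +
              i (C c1) * (i (C c2) * i q) * δ := by ring
          _ = _ := by rw [h1, h2]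
      have hcc : c1 * c2 ≠ 0 := mul_ne_zero hc1 hc2
      rcases le_or_gt a b with hab | hab
      · obtain ⟨j, rfl⟩ : ∃ j, b = a + j := ⟨b - a, by omega⟩
        refine ⟨a, c1 * c2, C c2 * p', C c1 * π ^ j * q', hcc, Or.inl ?_, ?_⟩
        · rw [map_mul]
          exact mul_ne_zero (hcne c2 hc2) hp'
        · rw [h3]
          simp only [map_mul, map_pow]
          rw [pow_add]
          ring
      · obtain ⟨j, rfl⟩ : ∃ j, a = b + (j + 1) := ⟨a - b - 1, by omega⟩
        refine ⟨b, c1 * c2, C c2 * π ^ (j + 1) * p', C c1 * q', hcc, Or.inr ?_, ?_⟩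
        · rw [map_mul]
          exact mul_ne_zero (hcne c1 hc1) hq'
        · rw [h3]
          simp only [map_mul, map_pow]
          rw [pow_add (i π) b (j + 1)]
          ring
    have hcs := hcne c hc
    by_cases h2 : s (i p1 + i q1 * δ) = 0
    · -- then the conjugate does not vanish
      have h3 : s (i p1 - i q1 * δ) ≠ 0 := by
        intro h4
        rw [map_add, map_mul, hσi, hσi] at h2
        rw [map_sub, map_mul, hσi, hσi] at h4
        have h5 : 2 * σ p1 = 0 := by linear_combination h2 + h4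
        have h6 : 2 * (σ q1 * s δ) = 0 := by linear_combination h2 - h4
        have h7 : σ p1 = 0 := (mul_eq_zero.1 h5).resolve_left h2F
        have h8 : σ q1 = 0 :=
          (mul_eq_zero.1 ((mul_eq_zero.1 h6).resolve_left h2F)).resolve_right hsδ
        rcases hpq1 with h9 | h9
        · exact h9 h7
        · exact h9 h8
      have hx1 : i p1 + i q1 * δ ≠ 0 := by
        intro h4
        rw [h4, mul_zero] at h1
        rcases mul_eq_zero.1 h1 with h5 | h5
        · rw [h5, map_zero] at hcs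
          exact hcs rfl
        · exact hx h5
      have hN : p1 ^ 2 - g * q1 ^ 2 ≠ 0 := by
        intro h4
        have h5 := hcr p1 q1
        rw [h4, map_zero] at h5
        rcases mul_eq_zero.1 h5 with h6 | h6
        · exact hx1 h6
        · rw [h6, map_zero] at h3
          exact h3 rfl
      obtain ⟨n, c3, r, hc3, hr, hNr⟩ := hdiv _ hN
      refine ⟨m + n, i r, i (C c) * i (C c3) * (i p1 - i q1 * δ), hr, ?_, ?_⟩
      · rw [map_mul, map_mul]
        exact mul_ne_zero (mul_ne_zero hcs (hcne c3 hc3)) h3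
      · have h5 : i (C c3) * i (p1 ^ 2 - g * q1 ^ 2) = i π ^ n * i r := by
          rw [← map_mul, hNr, map_mul, map_pow]
        calc i (C c) * i (C c3) * (i p1 - i q1 * δ) * x =
              i (C c3) * (i p1 - i q1 * δ) * (i (C c) * x) := by ring
          _ = i π ^ m * (i (C c3) * ((i p1 + i q1 * δ) * (i p1 - i q1 * δ))) := by rw [h1]; ring
          _ = i π ^ m * (i π ^ n * i r) := by rw [hcr, h5]
          _ = _ := by rw [pow_add]; ring
    · exact ⟨m, i p1 + i q1 * δ, i (C c), h2, hcs, h1⟩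

theorem val_T {K0 B L F : Type} [Field K0] [CommRing B] [IsDomain B] [CharZero B] [Algebra K0 B] {M : ℕ} (hM : 0 < M) {be ga : B}
    (hbe : be ≠ 0) (hns : ga ^ 2 ≠ be ^ 2) [Field L] [Algebra (OT M be ga) L] [IsFractionRing (OT M be ga) L] [Field F] [Algebra K0 F]
    (s : OT M be ga →ₐ[K0] F) (hs : Gnr s) (l : L) :
    (∃ u v : OT M be ga, s v ≠ 0 ∧ l * algebraMap (OT M be ga) L v = algebraMap (OT M be ga) L u) ∨
      ∃ u v : OT M be ga, s v ≠ 0 ∧ s u = 0 ∧ l * algebraMap (OT M be ga) L u = algebraMap (OT M be ga) L v := by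
  have hdom : IsDomain (OT M be ga) := dom_T hM hbe hns
  have hinj : Function.Injective (algebraMap B (FractionRing B)) := IsFractionRing.injective B (FractionRing B)
  have hch : CharZero (FractionRing B) := charZero_of_injective_algebraMap hinj
  have hsq : Squarefree ((gT M be ga).map (algebraMap B (FractionRing B))) := by
    have h1 : (gT M be ga).map (algebraMap B (FractionRing B)) =
        gT M (algebraMap B (FractionRing B) be) (algebraMap B (FractionRing B) ga) := by
      unfold gT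
      simp [Polynomial.map_sub, Polynomial.map_add]
      exact Or.inl (map_ofNat _ 2)
    rw [h1]
    refine sqf_T hM (fun h0 => hbe (hinj (by rw [h0, map_zero]))) fun h0 => hns (hinj ?_)
    rw [map_pow, map_pow]
    exact h0
  have hs' : ∀ c : B, (s : OT M be ga →+* F) (AdjoinRoot.of (X ^ 2 - C (gT M be ga)) (C c)) = 0 → c = 0 := by
    intro c hc
    apply hs
    show s (algebraMap B (OT M be ga) c) = s (algebraMap B (OT M be ga) 0)
    rw [map_zero, map_zero]
    exact hc
  have h2F : (2 : F) ≠ 0 := by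
    intro h
    have h1 : (2 : B) = 0 := by
      apply hs' 2
      rw [show (C (2 : B) : B[X]) = 2 from rfl, map_ofNat, map_ofNat]
      exact h
    exact two_ne_zero h1
  by_cases hinjs : ∀ x : OT M be ga, s x = 0 → x = 0
  · left
    obtain ⟨x, y, hy, rfl⟩ := IsFractionRing.div_surjective (A := OT M be ga) l
    have hy0 : y ≠ 0 := nonZeroDivisors.ne_zero hy
    have hyL : algebraMap (OT M be ga) L y ≠ 0 := fun h =>
      hy0 (IsFractionRing.injective (OT M be ga) L (by rw [h, map_zero]))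
    refine ⟨x, y, fun h => hy0 (hinjs y h), ?_⟩
    rw [div_mul_cancel₀ _ hyL]
  · push Not at hinjs
    obtain ⟨x0, hsx0, hx0⟩ := hinjs
    obtain ⟨t, ht, hu⟩ := val_unif (gT M be ga) h2F hsq (s : OT M be ga →+* F) hs' hx0 hsx0
    exact val_dich (L := L) (s : OT M be ga →+* F) t ht hu l

end H19.DM
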