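import Pool.Agent.H19.DM.L2R
import Pool.Agent.H19.DM.PsiR
import Pool.Agent.H19.DM.TPD
import Pool.Agent.H19.DM.BcD
import Pool.Agent.H19.DM.Val

/-! # DM.AltT : alternating products of points with general base points -/

namespace H19.DM

open H68.BB H77.AF Polynomial TensorProduct H19.ES

private theorem free_of {K0 A : Type} [Field K0] [CommRing A] [IsDomain A] [Algebra K0[X] A] [Module.Finite K0[X] A]
    [FaithfulSMul K0[X] A] : ∃ m : ℕ, Nonempty (Module.Basis (Fin m) K0[X] A) := by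
  have h1 : Module.IsTorsionFree K0[X] A := inferInstance
  obtain ⟨m, f⟩ := Module.basisOfFiniteTypeTorsionFree' (R := K0[X]) (M := A)
  exact ⟨m, ⟨f⟩⟩

private theorem bound {K0 A : Type} [Field K0] [CommRing A] [Algebra K0[X] A] {m : ℕ}
    (f : Module.Basis (Fin m) K0[X] A) (x y : A) : ∃ e0, (∀ j, (f.repr x j).natDegree ≤ e0) ∧
      ∀ j, (f.repr y j).natDegree ≤ e0 := by
  refine ⟨(Finset.univ.sup fun j => (f.repr x j).natDegree) + Finset.univ.sup fun j => (f.repr y j).natDegree, ?_, ?_⟩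
  · intro j
    exact (Finset.le_sup (f := fun j => (f.repr x j).natDegree) (Finset.mem_univ j)).trans (Nat.le_add_right _ _)
  · intro j
    exact (Finset.le_sup (f := fun j => (f.repr y j).natDegree) (Finset.mem_univ j)).trans (Nat.le_add_left _ _)

private theorem stb {K0 A : Type} [Field K0] [CommRing A] [Algebra K0[X] A] {m : ℕ}
    (f : Module.Basis (Fin m) K0[X] A) : ∃ s, StB f s := by
  obtain ⟨g, hg⟩ : ∃ g : Fin m × Fin m × Fin m → ℕ, g = fun p => (f.repr (f p.1 * f p.2.1) p.2.2).natDegree := ⟨_, rfl⟩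
  refine ⟨Finset.univ.sup g, ?_⟩
  intro i j l
  have h1 : g (i, j, l) ≤ Finset.univ.sup g := Finset.le_sup (Finset.mem_univ (i, j, l))
  have h2 : g (i, j, l) = (f.repr (f i * f j) l).natDegree := by rw [hg]
  rw [h2] at h1
  exact h1

theorem ns_of {K0 B : Type} [Field K0] [CommRing B] [IsDomain B] [Algebra K0 B] {be ga : B}
    (hga : ∀ c : K0, ga ≠ algebraMap K0 B c * be) : ga ^ 2 ≠ be ^ 2 := by
  intro h
  have h1 : (ga - be) * (ga + be) = 0 := by linear_combination h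
  rcases mul_eq_zero.1 h1 with h2 | h2
  · apply hga 1
    rw [map_one, one_mul]
    exact sub_eq_zero.1 h2
  · apply hga (-1)
    rw [map_neg, map_one, neg_one_mul]
    exact eq_neg_of_add_eq_zero_left h2

theorem altT {K0 B : Type} [Field K0] [IsAlgClosed K0] [CharZero K0] [CommRing B] [IsDomain B] [Algebra K0 B] [Algebra K0[X] B]
    [IsScalarTower K0 K0[X] B] [Module.Finite K0[X] B] [FaithfulSMul K0[X] B] {M : ℕ} (hM : 2 ≤ M) {be ga : B} (hbe : be ≠ 0)
    (hga : ∀ c : K0, ga ≠ algebraMap K0 B c * be) :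
    ∃ k0 : ℕ, ∀ {L R : Type} [Field L] [Algebra K0 L] [Algebra (OT M be ga) L] [IsScalarTower K0 (OT M be ga) L]
      [IsFractionRing (OT M be ga) L] [CommRing R] [Algebra K0 R] (ι : R →ₐ[K0] L)
      (_ : ∀ q : OT M be ga, ι.toRingHom.IsIntegralElem (algebraMap (OT M be ga) L q)) (k : ℕ), k0 ≤ k →
      ∀ (K : Type) [Field K] [IsAlgClosed K] [Algebra K0 K] (P : Fin k → R →ₐ[K0] K) (q : Fin k → OT M be ga →ₐ[K0] K),
      (∀ i, FR ι (q i) (P i)) → (∀ i, Gnr (q i)) → (∀ i i', i ≠ i' → Cop (tA K0 B) (q i) (q i')) →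
      ∑ σ : Equiv.Perm (Fin k), (Equiv.Perm.sign σ : ℤ) • (Finsupp.single (fun i => P (σ i)) 1 : Cyc (pts K0 K R) k) ∈
        H77.AF.tor (RatEq (pts K0 K R) k) := by
  classical
  have hBc : CharZero B := charZero_of_injective_algebraMap (algebraMap K0 B).injective
  obtain ⟨rk, ⟨f0⟩⟩ := free_of (K0 := K0) (A := B)
  obtain ⟨s0, hs0⟩ := stb f0
  obtain ⟨e0, he1, he2⟩ := bound f0 be ga
  obtain ⟨k0, hk0⟩ := H19.ES.EM.l2aR hM rk s0 e0
  refine ⟨k0, fun {L R} _ _ _ _ _ _ _ ι hint k hk K _ _ _ P q hFR hgn hcop => ?_⟩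
  have hft : Algebra.FiniteType K0 B := by
    have h1 : Algebra.FiniteType K0 K0[X] := inferInstance
    have h2 : Algebra.FiniteType K0[X] B := inferInstance
    exact Algebra.FiniteType.trans h1 h2
  have hcz : CharZero K := charZero_of_injective_algebraMap (algebraMap K0 K).injective
  have hdom : IsDomain (K ⊗[K0] B) := H77.AF.tens_dom K0 K B
  obtain ⟨hX, hXt, f, hfs, hfd, htA, hdisc⟩ := bcD f0 hs0 K
  obtain ⟨im, him⟩ := IsAlgClosed.exists_pow_nat_eq (-1 : K) (n := 2) two_pos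
  obtain ⟨cl, hrel, hcl⟩ := psiR (K0 := K0) (K := K) (algebraMap B (OT M be ga))
    (IsFractionRing.injective (OT M be ga) L) ι hint
    (fun s hs l => val_T (by omega) hbe (ns_of hga) s hs l) (QuotientAddGroup.mk' (H77.AF.tor (RatEq (pts K0 K R) k)))
    (fun x hx => (QuotientAddGroup.eq_zero_iff x).2 (le_tor _ hx))
  obtain ⟨Ψ, hΨ⟩ := tpd cl hrel
  choose P' hP' hP'T using fun i => cr_exists (K := K) (q i)
  have hb : ∀ i (c : B), (P' i).b ((1 : K) ⊗ₜ[K0] c) = q i (algebraMap B (OT M be ga) c) := fun i c => ((hP' i).1 c).symm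
  have hAlP : ∀ i, Function.Injective (fun c : B => (P' i).b ((1 : K) ⊗ₜ[K0] c)) := by
    intro i c c' h
    change (P' i).b ((1 : K) ⊗ₜ[K0] c) = (P' i).b ((1 : K) ⊗ₜ[K0] c') at h
    rw [hb, hb] at h
    exact hgn i h
  have hne : ∀ i (c : B), c ≠ 0 → (P' i).b ((1 : K) ⊗ₜ[K0] c) ≠ 0 := by
    intro i c hc h
    apply hc
    apply hAlP i
    change (P' i).b ((1 : K) ⊗ₜ[K0] c) = (P' i).b ((1 : K) ⊗ₜ[K0] (0 : B))
    rw [h, tmul_zero, map_zero]
  have hsq : ∀ c : B, ((1 : K) ⊗ₜ[K0] (c ^ 2) : K ⊗[K0] B) = ((1 : K) ⊗ₜ[K0] c) ^ 2 := by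
    intro c
    rw [Algebra.TensorProduct.tmul_pow, one_pow]
  have key := hk0 f hfs him (hfd be e0 he1) (hfd ga e0 he2)
    (Al := fun b => Function.Injective (fun c : B => b ((1 : K) ⊗ₜ[K0] c))) (fun b hb' => ?_) k hk _
    (fun n x hn hx => H77.AF.quot_tf _ n x (Nat.pos_of_ne_zero hn) hx) Ψ P' hP'T ⟨hAlP, ?_, ?_, ?_, ?_⟩
  · unfold altSum at key
    rw [← QuotientAddGroup.eq_zero_iff, QuotientAddGroup.mk_sum, ← key]
    refine Finset.sum_congr rfl fun σ _ => ?_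
    rw [QuotientAddGroup.mk_zsmul, hΨ (P' ∘ σ) (fun i => q (σ i)) (fun j => hP' (σ j)),
      hcl _ (fun i => P (σ i)) (fun i => hgn (σ i)) (fun i => hFR (σ i))]
    rfl
  · -- the discriminant
    rw [hdisc, htA, eval_map_algebraMap]
    have h1 : (aeval (b ((1 : K) ⊗ₜ[K0] tA K0 B))) (Algebra.discr K0[X] f0) =
        b ((1 : K) ⊗ₜ[K0] (algebraMap K0[X] B (Algebra.discr K0[X] f0))) := by
      have h2 : (aeval (b ((1 : K) ⊗ₜ[K0] tA K0 B)) : K0[X] →ₐ[K0] K) =
          ((b.restrictScalars K0).comp Algebra.TensorProduct.includeRight).comp (IsScalarTower.toAlgHom K0 K0[X] B) := by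
        apply Polynomial.algHom_ext
        rw [aeval_X]
        rfl
      rw [h2]
      rfl
    rw [h1]
    intro h0
    have h3 : algebraMap K0[X] B (Algebra.discr K0[X] f0) = 0 := by
      apply hb'
      change b ((1 : K) ⊗ₜ[K0] _) = b ((1 : K) ⊗ₜ[K0] (0 : B))
      rw [h0, tmul_zero, map_zero]
    exact discr_ne f0 ((map_eq_zero_iff _ (FaithfulSMul.algebraMap_injective K0[X] B)).1 h3)
  · intro i i' h
    by_contra hii
    change (P' i).b (tA K (K ⊗[K0] B)) = (P' i').b (tA K (K ⊗[K0] B)) at h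
    rw [htA, hb, hb] at h
    exact (hcop i i' hii).1 h
  · exact fun i => hne i be hbe
  · intro i h
    change (P' i).b ((1 : K) ⊗ₜ[K0] ga) ^ 2 = (P' i).b ((1 : K) ⊗ₜ[K0] be) ^ 2 at h
    rw [← map_pow, ← map_pow, ← hsq, ← hsq] at h
    exact ns_of hga (hAlP i h)
  · intro i i' hii h
    change (P' i).b ((1 : K) ⊗ₜ[K0] ga) * (P' i').b ((1 : K) ⊗ₜ[K0] be) =
      (P' i').b ((1 : K) ⊗ₜ[K0] ga) * (P' i).b ((1 : K) ⊗ₜ[K0] be) at h
    rw [hb, hb, hb, hb] at h
    exact (hcop i i' hii).2 h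

end H19.DM
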