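import Pool.Agent.H19.ES.Bad

/-! # DM.BadD : `bad` with the discriminant (copy of `ES.Bad`) -/

namespace H19.ES

open Polynomial

variable {K A : Type} [Field K] [IsAlgClosed K] [CommRing A] [Algebra K A] [Algebra K[X] A]
  [IsScalarTower K K[X] A]

omit [IsAlgClosed K] in
private theorem ev_tA (z : A →ₐ[K] K) (p : K[X]) : z (algebraMap K[X] A p) = p.eval (z (tA K A)) := by
  have h1 : (z.comp (IsScalarTower.toAlgHom K K[X] A)) = Polynomial.aeval (z (tA K A)) := by
    apply Polynomial.algHom_ext
    rw [Polynomial.aeval_X]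
    rfl
  have h2 := DFunLike.congr_fun h1 p
  rw [← Polynomial.coe_aeval_eq_eval]
  exact h2

attribute [local instance] FractionRing.liftAlgebra in
omit [IsAlgClosed K] [Algebra K A] [IsScalarTower K K[X] A] in
theorem discr_ne [CharZero K] [IsDomain A] {m : ℕ} (f : Module.Basis (Fin m) K[X] A) :
    Algebra.discr K[X] f ≠ 0 := by
  classical
  have : Module.Finite K[X] A := Module.Finite.of_basis f
  have : Module.Free K[X] A := Module.Free.of_basis f
  have : FaithfulSMul K[X] A := inferInstance
  have : CharZero (FractionRing K[X]) :=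
    charZero_of_injective_algebraMap (IsFractionRing.injective K[X] (FractionRing K[X]))
  have : IsScalarTower K[X] (FractionRing K[X]) (FractionRing A) :=
    FractionRing.isScalarTower_liftAlgebra K[X] (FractionRing A)
  have h := Algebra.discr_not_zero_of_basis (FractionRing K[X])
    (f.localizationLocalization (FractionRing K[X]) (nonZeroDivisors K[X]) (FractionRing A))
  rw [Algebra.discr_localizationLocalization] at h
  intro h0
  exact h (by rw [h0, map_zero])

private theorem exists_hom_prime [Module.Finite K[X] A] {c : K} (P : Ideal A) [hP : P.IsPrime]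
    (hc : tA K A - algebraMap K A c ∈ P) : ∃ z : A →ₐ[K] K, z (tA K A) = c ∧ ∀ a, z a = 0 → a ∈ P := by
  let q : A →ₐ[K] A ⧸ P := Ideal.Quotient.mkₐ K P
  have hqt : q (tA K A) = algebraMap K (A ⧸ P) c := by
    have h1 : q (tA K A - algebraMap K A c) = 0 := Ideal.Quotient.eq_zero_iff_mem.2 hc
    rw [map_sub, q.commutes] at h1
    exact sub_eq_zero.1 h1
  have hq : ∀ p : K[X], q (algebraMap K[X] A p) = algebraMap K (A ⧸ P) (p.eval c) := by
    intro p
    have h1 : (q.comp (IsScalarTower.toAlgHom K K[X] A)) = (Algebra.ofId K (A ⧸ P)).comp (Polynomial.aeval c) := by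
      apply Polynomial.algHom_ext
      change q (tA K A) = algebraMap K (A ⧸ P) (Polynomial.aeval c (X : K[X]))
      rw [hqt, Polynomial.aeval_X]
    have h2 := DFunLike.congr_fun h1 p
    change q (algebraMap K[X] A p) = algebraMap K (A ⧸ P) (Polynomial.aeval c p) at h2
    rw [h2, Polynomial.coe_aeval_eq_eval]
  have : Algebra.IsIntegral K (A ⧸ P) := by
    refine ⟨fun w => ?_⟩
    obtain ⟨d, rfl⟩ := Ideal.Quotient.mkₐ_surjective K P w
    obtain ⟨g, hg, hg0⟩ := Algebra.IsIntegral.isIntegral (R := K[X]) d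
    refine ⟨g.map (evalRingHom c), hg.map _, ?_⟩
    rw [Polynomial.eval₂_map]
    have h2 : (algebraMap K (A ⧸ P)).comp (evalRingHom c) = (q : A →+* A ⧸ P).comp (algebraMap K[X] A) := by
      apply RingHom.ext
      intro p
      exact (hq p).symm
    rw [h2]
    have h3 := congrArg (q : A →+* A ⧸ P) hg0
    rw [Polynomial.hom_eval₂, map_zero] at h3
    exact h3
  have hbij : Function.Bijective (algebraMap K (A ⧸ P)) := IsAlgClosed.algebraMap_bijective_of_isIntegral
  let e : K ≃ₐ[K] A ⧸ P := AlgEquiv.ofBijective (Algebra.ofId K (A ⧸ P)) hbij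
  refine ⟨(e.symm : (A ⧸ P) →ₐ[K] K).comp q, ?_, ?_⟩
  · change e.symm (q (tA K A)) = c
    rw [hqt, AlgEquiv.symm_apply_eq]
    rfl
  · intro a ha
    have h1 : e.symm (q a) = 0 := ha
    rw [AlgEquiv.symm_apply_eq, map_zero] at h1
    exact Ideal.Quotient.eq_zero_iff_mem.1 h1

private theorem pow_of_hom [Module.Finite K[X] A] {c : K} {a : A}
    (h : ∀ z : A →ₐ[K] K, z (tA K A) = c → z a = 0) :
    ∃ N : ℕ, ∃ y : A, a ^ N = (tA K A - algebraMap K A c) * y := by
  have h1 : a ∈ (Ideal.span {tA K A - algebraMap K A c}).radical := by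
    rw [Ideal.radical_eq_sInf, Submodule.mem_sInf]
    rintro P ⟨hle, hP⟩
    obtain ⟨z, hz, hz'⟩ := exists_hom_prime (K := K) (c := c) P (hle (Ideal.mem_span_singleton_self _))
    exact hz' a (h z hz)
  obtain ⟨N, hN⟩ := h1
  obtain ⟨y, hy⟩ := Ideal.mem_span_singleton.1 hN
  exact ⟨N, y, hy⟩

private theorem trace_zero {m : ℕ} (f : Module.Basis (Fin m) K[X] A) {c : K} {a : A}
    (h : ∀ z : A →ₐ[K] K, z (tA K A) = c → z a = 0) : (Algebra.trace K[X] A a).eval c = 0 := by
  classical
  have : Module.Finite K[X] A := Module.Finite.of_basis f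
  obtain ⟨N, y, hN⟩ := pow_of_hom h
  have h2 : tA K A - algebraMap K A c = algebraMap K[X] A (X - C c) := by
    rw [map_sub, IsScalarTower.algebraMap_apply K K[X] A]
    rfl
  rw [h2, ← Algebra.smul_def] at hN
  have h3 : ((Algebra.leftMulMatrix f a).map (evalRingHom c)) ^ N = 0 := by
    have h4 : (evalRingHom c).mapMatrix ((Algebra.leftMulMatrix f a) ^ N) = 0 := by
      rw [← map_pow, hN, map_smul]
      ext i j
      simp
    rw [map_pow] at h4
    exact h4
  have h5 : IsNilpotent ((Algebra.leftMulMatrix f a).map (evalRingHom c)).trace :=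
    Matrix.isNilpotent_trace_of_isNilpotent ⟨N, h3⟩
  rw [Algebra.trace_eq_matrix_trace f]
  have h6 : ((Algebra.leftMulMatrix f a).map (evalRingHom c)).trace = ((Algebra.leftMulMatrix f a).trace).eval c := by
    simp [Matrix.trace, Polynomial.eval_finsetSum]
  rw [← h6]
  exact h5.eq_zero

/-- over a point where the discriminant does not vanish there are `m` distinct points -/
theorem badD {m : ℕ} (f : Module.Basis (Fin m) K[X] A) {c : K} (hd : (Algebra.discr K[X] f).eval c ≠ 0) :
    ∃ z : Fin m → (A →ₐ[K] K), Function.Injective z ∧ ∀ j, z j (tA K A) = c := by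
  classical
  have : Module.Finite K[X] A := Module.Finite.of_basis f
  have hfin : {z : A →ₐ[K] K | z (tA K A) ∈ ({c} : Finset K)}.Finite := finite_hom {c}
  let S : Type := {z : A →ₐ[K] K // z (tA K A) ∈ ({c} : Finset K)}
  have hSf : Finite S := hfin
  have := Fintype.ofFinite S
  have hcard : m ≤ Fintype.card S := by
    by_contra hlt
    rw [not_le] at hlt
    let T : (Fin m → K) →ₗ[K] (S → K) :=
      LinearMap.pi fun z => ∑ i, (z.1 (f i)) • (LinearMap.proj i : (Fin m → K) →ₗ[K] K)
    have hT : ∀ a z, T a z = ∑ i, z.1 (f i) * a i := by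
      intro a z
      simp [T]
    have hker : LinearMap.ker T ≠ ⊥ := by
      apply LinearMap.ker_ne_bot_of_finrank_lt
      simpa using hlt
    obtain ⟨a, ha, ha0⟩ := Submodule.exists_mem_ne_zero_of_ne_bot hker
    apply ha0
    let y : A := ∑ i, algebraMap K A (a i) * f i
    have hy : ∀ z : A →ₐ[K] K, z (tA K A) = c → z y = 0 := by
      intro z hz
      have h1 : T a ⟨z, Finset.mem_singleton.2 hz⟩ = 0 := by
        rw [LinearMap.mem_ker.1 ha]
        rfl
      rw [hT] at h1
      rw [map_sum, ← h1]
      refine Finset.sum_congr rfl fun i _ => ?_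
      rw [map_mul, z.commutes, mul_comm]
      rfl
    have hM : ((Algebra.traceMatrix K[X] f).map (evalRingHom c)).det ≠ 0 := by
      have h1 : ((Algebra.traceMatrix K[X] f).map (evalRingHom c)).det = (Algebra.discr K[X] f).eval c := by
        rw [Algebra.discr_def, ← Polynomial.coe_evalRingHom, RingHom.map_det]
        rfl
      rw [h1]
      exact hd
    refine Matrix.eq_zero_of_mulVec_eq_zero hM ?_
    funext j
    rw [Matrix.mulVec, Pi.zero_apply]
    have h2 := trace_zero f (c := c) (a := y * f j) (fun z hz => by rw [map_mul, hy z hz, zero_mul])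
    rw [← h2, Finset.sum_mul, map_sum, Polynomial.eval_finsetSum, dotProduct]
    refine Finset.sum_congr rfl fun i _ => ?_
    have h3 : algebraMap K A (a i) * f i * f j = (C (a i) : K[X]) • (f j * f i) := by
      rw [Algebra.smul_def, IsScalarTower.algebraMap_apply K K[X] A]
      simp only [Polynomial.algebraMap_eq]
      ring
    rw [h3, map_smul, smul_eq_mul, Polynomial.eval_mul, Polynomial.eval_C, mul_comm]
    rfl
  have hcard' : Fintype.card (Fin m) ≤ Fintype.card S := by
    rw [Fintype.card_fin]
    exact hcard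
  obtain ⟨g⟩ := Function.Embedding.nonempty_of_card_le hcard'
  exact ⟨fun j => (g j).1, fun i j h => g.injective (Subtype.ext h), fun j => Finset.mem_singleton.1 (g j).2⟩

end H19.ES
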