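import Pool.Agent.H77.SN.Def
import Mathlib.RingTheory.IntegralClosure.GoingDown

/-! # DM.CPt : every point of an affine surface lies on an irreducible curve (MATHLIB, about 150 lines)

`P2 = MvPolynomial (Fin 2) K0 → R` (`aeval ![T, X']`) is injective and integral; `P2` is a unique factorisation domain, so integrally closed, `R` is a domain: going down (`Mathlib/RingTheory/IntegralClosure/GoingDown.lean`, `Algebra.HasGoingDown`, `Ideal.exists_ideal_le_liesOver_of_le`).  `𝔪 = ker p0` lies over `𝔪' = ker (p0 ∘ aeval)`, which contains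
the prime ideal `(X_0 - t0)`, `t0 = p0 T` (`MvPolynomial` quotient is a polynomial ring: it is the kernel of `X_0 ↦ t0, X_1 ↦ X`, `MvPolynomial (Fin 2) K0 → K0[X]`): so there is a prime `𝔮 ≤ 𝔪` with `𝔮 ∩ P2 = (X_0 - t0)`.  `U` = the class of `X'` in `R ⧸ 𝔮`: transcendental over `K0` (a relation `f(X') ∈ 𝔮` gives `f(X_1) ∈ (X_0 - t0)`, so `f = 0`),
and `T = t0` in `R ⧸ 𝔮`, so `R ⧸ 𝔮` is integral over `K0[U]`: every element is algebraic over it (`Alg1`: a monic polynomial in `K0[U][Y]`; `H77.SN.evA`, see how `Alg1` is proved at the end of `comps_dim` in `Pool/Agent/H77/AF/Comps.lean`). -/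

namespace H19.DM

open Polynomial H77.SN

private theorem cp_id {K : Type} [Field K] (G : K[X][X]) : evA (C X : K[X][X]) X G = G := by
  rw [evA_apply]
  have h : ((aeval (C X : K[X][X]) : K[X] →ₐ[K] K[X][X]) : K[X] →+* K[X][X]) = C := by
    refine Polynomial.ringHom_ext (fun a => ?_) ?_
    · simp
    · simp
  rw [h, eval₂_C_X]

private theorem cp_inj {K R : Type} [Field K] [CommRing R] [Algebra K R] {T X' : R}
    (hai : AlgebraicIndependent K ![T, X']) : Function.Injective (evA (K := K) T X') := by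
  have h1 : ∀ G : K[X][X], (MvPolynomial.aeval ![T, X'] : MvPolynomial (Fin 2) K →ₐ[K] R)
      (evA (MvPolynomial.X 0) (MvPolynomial.X 1) G) = evA T X' G := by
    intro G
    rw [map_evA, MvPolynomial.aeval_X, MvPolynomial.aeval_X]
    rfl
  have h2 : Function.Injective (evA (K := K) (MvPolynomial.X 0 : MvPolynomial (Fin 2) K) (MvPolynomial.X 1)) := by
    refine Function.LeftInverse.injective
      (g := (MvPolynomial.aeval ![(C X : K[X][X]), X] : MvPolynomial (Fin 2) K →ₐ[K] K[X][X])) ?_
    intro G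
    rw [map_evA, MvPolynomial.aeval_X, MvPolynomial.aeval_X]
    exact cp_id G
  have h3 : Function.Injective (MvPolynomial.aeval ![T, X'] : MvPolynomial (Fin 2) K →ₐ[K] R) := hai
  intro a b hab
  exact h2 (h3 (by rw [h1, h1, hab]))

/-- the specialisation `t ↦ t0` -/
private noncomputable def cpi {K : Type} [Field K] (t0 : K) : K[X][X] →+* K[X] :=
  mapRingHom (evalRingHom t0)

theorem cpt {K0 R : Type} [Field K0] [CommRing R] [IsDomain R] [Algebra K0 R] {T X' : R} (hai : AlgebraicIndependent K0 ![T, X'])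
    (hint : ∀ r : R, IsIntegral (Algebra.adjoin K0 ({T, X'} : Set R)) r) (p0 : R →ₐ[K0] K0) :
    ∃ q : Ideal R, q.IsPrime ∧ (∀ r ∈ q, p0 r = 0) ∧ ∃ U : R ⧸ q, Transcendental K0 U ∧ Alg1 K0 U := by
  classical
  let _ : Algebra K0[X][X] R := (evA (K := K0) T X').toRingHom.toAlgebra
  have halg : ∀ G : K0[X][X], algebraMap K0[X][X] R G = evA T X' G := fun G => rfl
  have hinj : Function.Injective (algebraMap K0[X][X] R) := cp_inj hai
  have hfs : FaithfulSMul K0[X][X] R := (faithfulSMul_iff_algebraMap_injective _ _).2 hinj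
  have hrange : ∀ a ∈ Algebra.adjoin K0 ({T, X'} : Set R), ∃ G : K0[X][X], evA T X' G = a := by
    intro a ha
    have h1 : Algebra.adjoin K0 ({T, X'} : Set R) ≤ (evA (K := K0) T X').range := by
      rw [Algebra.adjoin_le_iff]
      rintro y (rfl | hy)
      · exact ⟨C X, by rw [AlgHom.toRingHom_eq_coe, RingHom.coe_coe, evA_C, aeval_X]⟩
      · rw [Set.mem_singleton_iff.1 hy]
        exact ⟨X, evA_X _ _⟩
    exact h1 ha
  have hint2 : Algebra.IsIntegral K0[X][X] R := by
    refine ⟨fun r => ?_⟩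
    obtain ⟨f, hf, hfr⟩ := hint r
    have hlift : f.map (algebraMap (Algebra.adjoin K0 ({T, X'} : Set R)) R) ∈
        Polynomial.lifts (algebraMap K0[X][X] R) := by
      rw [Polynomial.lifts_iff_coeff_lifts]
      intro n
      rw [coeff_map]
      obtain ⟨G, hG⟩ := hrange _ (f.coeff n).2
      exact ⟨G, by rw [halg, hG]; rfl⟩
    obtain ⟨g, hg, -, hgm⟩ := Polynomial.lifts_and_degree_eq_and_monic hlift (hf.map _)
    refine ⟨g, hgm, ?_⟩
    rw [← eval_map, hg, eval_map]
    exact hfr
  set t0 : K0 := p0 T with ht0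
  -- the two homomorphisms to `K0`
  have hpi : ∀ G : K0[X][X], eval (p0 X') (cpi t0 G) = p0 (evA T X' G) := by
    intro G
    rw [map_evA, evA_apply, ← ht0]
    rw [cpi, coe_mapRingHom, eval_map]
    congr 1
  set p : Ideal K0[X][X] := RingHom.ker (cpi t0) with hp
  have hpp : p.IsPrime := RingHom.ker_isPrime _
  set Q : Ideal R := RingHom.ker (p0 : R →+* K0) with hQ
  have hQp : Q.IsPrime := RingHom.ker_isPrime _
  have hle : p ≤ Q.under K0[X][X] := by
    intro G hG
    rw [Ideal.mem_comap, hQ, RingHom.mem_ker, halg]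
    change p0 (evA T X' G) = 0
    rw [← hpi, show cpi t0 G = 0 from hG, eval_zero]
  have hgd : Algebra.HasGoingDown K0[X][X] R := inferInstance
  obtain ⟨q, hqQ, hqp, hqo⟩ := Ideal.exists_ideal_le_liesOver_of_le (p := p) (q := Q.under K0[X][X]) Q hle
  have hqu : ∀ G : K0[X][X], evA T X' G ∈ q ↔ cpi t0 G = 0 := by
    intro G
    have h1 : p = q.under K0[X][X] := hqo.over
    rw [show cpi t0 G = 0 ↔ G ∈ p from Iff.rfl, h1, Ideal.mem_comap, halg]
  refine ⟨q, hqp, fun r hr => hqQ hr, Ideal.Quotient.mk q X', ?_, ?_⟩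
  · rw [transcendental_iff]
    intro f hf
    have h1 : aeval (Ideal.Quotient.mk q X') f = Ideal.Quotient.mk q (evA T X' (f.map C)) := by
      rw [evA_apply, eval₂_map]
      have h2 : ((aeval T : K0[X] →ₐ[K0] R) : K0[X] →+* R).comp C = algebraMap K0 R := by
        ext a
        simp
      rw [h2, ← aeval_def]
      exact (aeval_algHom_apply (Ideal.Quotient.mkₐ K0 q) X' f)
    rw [h1, Ideal.Quotient.eq_zero_iff_mem, hqu] at hf
    have h3 : cpi t0 (f.map C) = f := by
      rw [cpi, coe_mapRingHom, map_map]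
      have h4 : (evalRingHom t0).comp (C : K0 →+* K0[X]) = RingHom.id K0 := by
        ext a
        simp
      rw [h4, map_id]
    rw [h3] at hf
    exact hf
  · intro r'
    obtain ⟨r, rfl⟩ := Ideal.Quotient.mk_surjective r'
    obtain ⟨F, hF, hFr⟩ := hint2.isIntegral r
    refine ⟨F.map (cpi t0), (hF.map _).ne_zero, ?_⟩
    have h1 : ∀ G : K0[X][X], aeval (Ideal.Quotient.mk q X') (cpi t0 G) = Ideal.Quotient.mk q (evA T X' G) := by
      intro G
      have h5 : aeval (Ideal.Quotient.mk q X') (cpi t0 G) = Ideal.Quotient.mk q (aeval X' (cpi t0 G)) :=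
        (aeval_algHom_apply (Ideal.Quotient.mkₐ K0 q) X' _)
      rw [h5, ← sub_eq_zero, ← map_sub, Ideal.Quotient.eq_zero_iff_mem]
      have h2 : aeval X' (cpi t0 G) = evA T X' ((cpi t0 G).map C) := by
        rw [evA_apply, eval₂_map]
        have h2 : ((aeval T : K0[X] →ₐ[K0] R) : K0[X] →+* R).comp C = algebraMap K0 R := by
          ext a
          simp
        rw [h2, ← aeval_def]
      rw [h2, ← map_sub, hqu, map_sub, sub_eq_zero]
      rw [cpi, coe_mapRingHom, map_map]
      have h4 : (evalRingHom t0).comp (C : K0 →+* K0[X]) = RingHom.id K0 := by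
        ext a
        simp
      rw [h4, map_id]
    rw [evA_apply, eval₂_map]
    have h6 : (((aeval (Ideal.Quotient.mk q X') : K0[X] →ₐ[K0] R ⧸ q) : K0[X] →+* R ⧸ q)).comp (cpi t0) =
        (Ideal.Quotient.mk q).comp (algebraMap K0[X][X] R) := by
      refine RingHom.ext (fun G => ?_)
      exact h1 G
    rw [h6, ← hom_eval₂, hFr, map_zero]

end H19.DM
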