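import Pool.Agent.H19.DM.FunR

/-! # DM.ChrAR : decomposition of a functional under the roots of unity (copy of `EM.ChrA`) -/

namespace H19.ES.EM

open H68.BB Polynomial

section aux

variable {K A : Type} [Field K] [CommRing A] [Algebra K A] {n : ℕ} {Al : (A →ₐ[K] K) → Prop}

private theorem chr_sigma (σ : Om K ≃ₐ[RatFunc K] Om K) (c : K) :
    σ (algebraMap K (Om K) c) = algebraMap K (Om K) c := by
  have h : (algebraMap K (Om K) c) = algebraMap (RatFunc K) (Om K) (algebraMap K (RatFunc K) c) :=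
    IsScalarTower.algebraMap_apply K (RatFunc K) (Om K) c
  rw [h]
  exact σ.commutes _

variable {G : Type} [AddCommGroup G]

/-- multiplication by roots of unity -/
private theorem chr_sg {m : ℕ} {be ga : A} (Φ : FnlR Al (OnT m be ga) n G) (g : Fin n → rootsOfUnity m K) :
    ∃ Ψ : FnlR Al (OnT m be ga) n G, ∀ p, Ψ.cl p = Φ.cl (sg g p) := by
  have hz : ∀ i, ((((g i : Kˣ) : K)) ^ m = 1) := by
    intro i
    have h := (g i).2
    rw [mem_rootsOfUnity] at h
    have h2 := congrArg (fun u : Kˣ => (u : K)) h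
    simpa using h2
  refine comapR Φ (fun q => sg g q) (fun p => sg g p) ?_ ?_ ?_ ?_ (fun p hp i => hp i)
  · intro q hq i
    have h := hq i
    unfold OnT at h ⊢
    have h1 : (algebraMap K (Om K) ((g i : Kˣ) : K)) ^ m = 1 := by
      rw [← map_pow, hz i, map_one]
    have h2 : (sg g q i).x ^ m = (q i).x ^ m := by
      show (algebraMap K (Om K) ((g i : Kˣ) : K) * (q i).x) ^ m = _
      rw [mul_pow, h1, one_mul]
    have h3 : (sg g q i).x ^ (2 * m) = (q i).x ^ (2 * m) := by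
      rw [mul_comm 2 m, pow_mul, pow_mul, h2]
    rw [h2, h3]
    exact h
  · intro σ q
    funext i
    refine Pt.ext rfl ?_ rfl
    show σ (algebraMap K (Om K) ((g i : Kˣ) : K) * (q i).x) = algebraMap K (Om K) ((g i : Kˣ) : K) * σ (q i).x
    rw [map_mul, chr_sigma]
  · intro π q p h i
    refine ⟨(h i).1, ?_, (h i).2.2⟩
    have hc : Rd π.V π.φ (algebraMap K (Om K) ((g i : Kˣ) : K)) ((g i : Kˣ) : K) := π.const _
    exact hc.mul (h i).2.1
  · rintro π q ⟨i, hi⟩
    refine ⟨i, fun h => hi ⟨h.1, ?_, h.2.2⟩⟩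
    have h1 : algebraMap K (Om K) ((g i : Kˣ) : K) * (q i).x ∈ π.V := h.2.1
    have h2 : algebraMap K (Om K) (((g i : Kˣ) : K))⁻¹ ∈ π.V := (π.const _).choose
    have h3 := π.V.mul_mem _ _ h2 h1
    rwa [← mul_assoc, ← map_mul, inv_mul_cancel₀ (Units.ne_zero _), map_one, one_mul] at h3

end aux

variable {K A : Type} [Field K] [IsAlgClosed K] [CharZero K] [CommRing A] [Algebra K A] {G : Type} [AddCommGroup G] [Module ℂ G]
  {k : ℕ}

theorem chr_decR {m : ℕ} (hm : 0 < m) {be ga : A} (X : rootsOfUnity m K →* ℂ) (hX : Function.Injective X)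
    {Al : (A →ₐ[K] K) → Prop}
    (Φ : FnlR Al (OnT m be ga) k G) : ∃ Ψ : (Fin k → Fin m) → FnlR Al (OnT m be ga) k G,
    (∀ s, ∑ c, (Ψ c).cl s = ((m : ℂ) ^ k) • Φ.cl s) ∧
    ∀ (c : Fin k → Fin m) (ζ : rootsOfUnity m K) (s : Fin k → Pt K A K) (i : Fin k),
      (Ψ c).cl (Function.update s i (mulw ((ζ : Kˣ) : K) (s i))) = X ζ ^ ((c i : ℕ)) • (Ψ c).cl s := by
  classical
  have : NeZero m := ⟨hm.ne'⟩
  have : Fintype (rootsOfUnity m K) := Fintype.ofFinite _
  choose Ψg hΨg using fun g : Fin k → rootsOfUnity m K => chr_sg Φ g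
  choose Ψ hΨ using fun c : Fin k → Fin m => linR (fun g : Fin k → rootsOfUnity m K =>
    DistribSMul.toAddMonoidHom G (∏ i, X (g i)⁻¹ ^ (c i : ℕ))) Ψg
  simp only [DistribSMul.toAddMonoidHom_apply] at hΨ
  simp only [hΨg] at hΨ
  refine ⟨Ψ, ?_, ?_⟩
  · intro s
    simp only [hΨ]
    rw [Finset.sum_comm]
    have h1 : ∀ g : Fin k → rootsOfUnity m K, ∑ c : Fin k → Fin m, (∏ i, X (g i)⁻¹ ^ (c i : ℕ)) • Φ.cl (sg g s) =
        (∏ i, ∑ j : Fin m, X (g i)⁻¹ ^ (j : ℕ)) • Φ.cl (sg g s) := by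
      intro g
      rw [← Finset.sum_smul, Finset.prod_univ_sum, Fintype.piFinset_univ]
    simp only [h1]
    have h2 : ∀ z : rootsOfUnity m K, z ≠ 1 → ∑ j : Fin m, X z⁻¹ ^ (j : ℕ) = 0 := by
      intro z hz
      have h3 : X z⁻¹ ≠ 1 := by
        intro h4
        apply hz
        have h5 : X z⁻¹ = X 1 := by rw [h4, map_one]
        have h6 := hX h5
        rwa [inv_eq_one] at h6
      have h4 : X z⁻¹ ^ m = 1 := by
        rw [← map_pow]
        have h5 : (z⁻¹) ^ m = 1 := by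
          have h6 := (z⁻¹).2
          rw [mem_rootsOfUnity] at h6
          exact Subtype.ext (by simpa using h6)
        rw [h5, map_one]
      rw [Fin.sum_univ_eq_sum_range (fun j => X z⁻¹ ^ j) m, geom_sum_eq h3, h4, sub_self, zero_div]
    rw [Finset.sum_eq_single (1 : Fin k → rootsOfUnity m K)]
    · have h3 : ∏ i : Fin k, ∑ j : Fin m, X ((1 : Fin k → rootsOfUnity m K) i)⁻¹ ^ (j : ℕ) = (m : ℂ) ^ k := by
        simp
      have h4 : sg (1 : Fin k → rootsOfUnity m K) s = s := by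
        funext i
        refine Pt.ext rfl ?_ rfl
        show algebraMap K K (((1 : rootsOfUnity m K) : Kˣ) : K) * (s i).x = (s i).x
        simp
      rw [h3, h4]
    · intro g _ hg
      obtain ⟨i, hi⟩ := Function.ne_iff.1 hg
      rw [Finset.prod_eq_zero (Finset.mem_univ i) (h2 (g i) hi), zero_smul]
    · intro h
      exact absurd (Finset.mem_univ _) h
  · intro c ζ s i
    rw [hΨ, hΨ]
    obtain ⟨δ, hδ⟩ : ∃ δ : Fin k → rootsOfUnity m K, δ = Pi.mulSingle i ζ := ⟨_, rfl⟩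
    have hδi : δ i = ζ := by rw [hδ, Pi.mulSingle_eq_same]
    have hδj : ∀ j, j ≠ i → δ j = 1 := fun j hj => by rw [hδ, Pi.mulSingle_eq_of_ne hj]
    have h1 : ∀ g : Fin k → rootsOfUnity m K, sg g (Function.update s i (mulw ((ζ : Kˣ) : K) (s i))) =
        sg (g * δ) s := by
      intro g
      funext j
      by_cases hj : j = i
      · subst hj
        show mulw _ (Function.update s j (mulw ((ζ : Kˣ) : K) (s j)) j) = mulw _ (s j)
        rw [Function.update_self, Pi.mul_apply, hδi]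
        refine Pt.ext rfl ?_ rfl
        show algebraMap K K ((g j : Kˣ) : K) * (((ζ : Kˣ) : K) * (s j).x) = algebraMap K K (((g j * ζ : rootsOfUnity m K) : Kˣ) : K) * (s j).x
        simp [mul_assoc]
      · show mulw _ (Function.update s i (mulw ((ζ : Kˣ) : K) (s i)) j) = mulw _ (s j)
        rw [Function.update_of_ne hj, Pi.mul_apply, hδj j hj, mul_one]
    simp only [h1]
    have h2 : ∀ g : Fin k → rootsOfUnity m K, (∏ j, X (g j)⁻¹ ^ (c j : ℕ)) =
        X ζ ^ (c i : ℕ) * ∏ j, X ((g * δ) j)⁻¹ ^ (c j : ℕ) := by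
      intro g
      rw [← Finset.mul_prod_erase Finset.univ _ (Finset.mem_univ i), ← Finset.mul_prod_erase Finset.univ (fun j => X ((g * δ) j)⁻¹ ^ (c j : ℕ)) (Finset.mem_univ i), ← mul_assoc]
      congr 1
      · rw [Pi.mul_apply, hδi, ← mul_pow, ← map_mul]
        congr 2
        rw [mul_inv, mul_comm (g i)⁻¹, ← mul_assoc, mul_inv_cancel, one_mul]
      · refine Finset.prod_congr rfl fun j hj => ?_
        rw [Pi.mul_apply, hδj j (Finset.ne_of_mem_erase hj), mul_one]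
    rw [Finset.smul_sum]
    have h3 : ∀ g : Fin k → rootsOfUnity m K, (∏ j, X (g j)⁻¹ ^ (c j : ℕ)) • Φ.cl (sg (g * δ) s) =
        (fun g' : Fin k → rootsOfUnity m K => X ζ ^ (c i : ℕ) • (∏ j, X (g' j)⁻¹ ^ (c j : ℕ)) • Φ.cl (sg g' s))
          (Equiv.mulRight δ g) := by
      intro g
      show _ = X ζ ^ (c i : ℕ) • (∏ j, X ((g * δ) j)⁻¹ ^ (c j : ℕ)) • Φ.cl (sg (g * δ) s)
      rw [h2 g, mul_smul]
    rw [Finset.sum_congr rfl (fun g _ => h3 g)]
    exact Equiv.sum_comp (Equiv.mulRight δ) (fun g' : Fin k → rootsOfUnity m K => X ζ ^ (c i : ℕ) • (∏ j, X (g' j)⁻¹ ^ (c j : ℕ)) • Φ.cl (sg g' s))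

end H19.ES.EM
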