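import Pool.Agent.H19.DM.GoodR

/-! # DM.ChrBR : alternating sums of functionals which are homogeneous with different characters in the slots (copy of `EM.ChrB`) -/

namespace H19.ES.EM

open H68.BB Polynomial

variable {K A : Type} [Field K] [IsAlgClosed K] [CharZero K] [CommRing A] [Algebra K A] {G : Type} [AddCommGroup G] [Module ℂ G]
  {k : ℕ}

/-- the base points are allowed, different in the coordinate `t`, with nondegenerate pairwise coprime types -/
def Gd (Al : (A →ₐ[K] K) → Prop) (t be ga : A) {k : ℕ} (b : Fin k → (A →ₐ[K] K)) : Prop :=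
  (∀ i, Al (b i)) ∧ Function.Injective (fun i => b i t) ∧ Ty (fun i => b i be) (fun i => b i ga)

omit [IsAlgClosed K] [CharZero K] in
theorem Gd.comp {Al : (A →ₐ[K] K) → Prop} {t be ga : A} {b : Fin k → (A →ₐ[K] K)} (h : Gd Al t be ga b) {n : ℕ}
    {e : Fin n → Fin k} (he : Function.Injective e) : Gd Al t be ga (b ∘ e) :=
  ⟨fun i => h.1 (e i), h.2.1.comp he, ⟨fun i => h.2.2.be0 (e i), fun i => h.2.2.ns (e i),
    fun i j hij => h.2.2.co (e i) (e j) fun h' => hij (he h')⟩⟩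

private theorem chr_slot {m k0 : ℕ} {be ga : A} (X : rootsOfUnity m K →* ℂ)
    {Al : (A →ₐ[K] K) → Prop} {t : A} (Φ : FnlR Al (OnT m be ga) k G) (c : Fin k → Fin m) (hΦ : ∀ (ζ : rootsOfUnity m K) (s : Fin k → Pt K A K) (i : Fin k),
      Φ.cl (Function.update s i (mulw ((ζ : Kˣ) : K) (s i))) = X ζ ^ ((c i : ℕ)) • Φ.cl s)
    (H : ∀ k', k0 ≤ k' → ∀ (χ : rootsOfUnity m K →* ℂ) (Φ' : FnlR Al (OnT m be ga) k' G), HomR χ Φ'.cl →
      ∀ P' : Fin k' → Pt K A K, (∀ i, OnT m be ga (P' i)) → Gd Al t be ga (fun i => (P' i).b) → altSum Φ'.cl P' = 0)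
    {n : ℕ} (hn : k0 ≤ n) (e : Fin n ↪ Fin k) (c0 : Fin m) (hc : ∀ l, c (e l) = c0)
    (s : Fin k → Pt K A K) (hs : ∀ i, OnT m be ga (s i)) (hg : Gd Al t be ga (fun i => (s i).b)) :
    ∑ τ : Equiv.Perm (Fin n), (Equiv.Perm.sign τ : ℤ) • Φ.cl (s ∘ τ.viaFintypeEmbedding e) = 0 := by
  classical
  obtain ⟨Ψ, hΨ⟩ := slotsR Φ s (fun i => OnT_cst' (hs i)) hg.1 e e.injective
  have hhom : HomR (X ^ (c0 : ℕ)) Ψ.cl := by
    intro ζ p i
    rw [hΨ, hΨ]
    have h1 : Function.extend e (Function.update p i (mulw ((ζ : Kˣ) : K) (p i))) s =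
        Function.update (Function.extend e p s) (e i)
          (mulw ((ζ : Kˣ) : K) (Function.extend e p s (e i))) := by
      funext j
      by_cases hj : ∃ l, e l = j
      · obtain ⟨l, rfl⟩ := hj
        rw [e.injective.extend_apply]
        by_cases hl : l = i
        · subst hl
          rw [Function.update_self, Function.update_self, e.injective.extend_apply]
        · rw [Function.update_of_ne hl, Function.update_of_ne (fun h => hl (e.injective h)),
            e.injective.extend_apply]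
      · rw [Function.extend_apply' _ _ _ hj,
          Function.update_of_ne (fun h => hj ⟨i, h.symm⟩), Function.extend_apply' _ _ _ hj]
    rw [h1, hΦ, hc]
    rfl
  have h2 := H n hn (X ^ (c0 : ℕ)) Ψ hhom (s ∘ e) (fun i => hs (e i)) (hg.comp e.injective)
  unfold altSum at h2
  rw [← h2]
  refine Finset.sum_congr rfl fun τ _ => ?_
  rw [hΨ]
  congr 2
  funext j
  by_cases hj : ∃ l, e l = j
  · obtain ⟨l, rfl⟩ := hj
    rw [e.injective.extend_apply]
    simp only [Function.comp_apply]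
    rw [Equiv.Perm.viaFintypeEmbedding_apply_image]
  · rw [Function.extend_apply' _ _ _ hj]
    simp only [Function.comp_apply]
    rw [Equiv.Perm.viaFintypeEmbedding_apply_notMem_range _ _ hj]

theorem chr_altR {m k0 : ℕ} (hm : 0 < m) (hk : m * k0 ≤ k) {be ga : A} (X : rootsOfUnity m K →* ℂ)
    {Al : (A →ₐ[K] K) → Prop} {t : A} (Φ : FnlR Al (OnT m be ga) k G) (c : Fin k → Fin m) (hΦ : ∀ (ζ : rootsOfUnity m K) (s : Fin k → Pt K A K) (i : Fin k),
      Φ.cl (Function.update s i (mulw ((ζ : Kˣ) : K) (s i))) = X ζ ^ ((c i : ℕ)) • Φ.cl s)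
    (H : ∀ k', k0 ≤ k' → ∀ (χ : rootsOfUnity m K →* ℂ) (Φ' : FnlR Al (OnT m be ga) k' G), HomR χ Φ'.cl →
      ∀ P' : Fin k' → Pt K A K, (∀ i, OnT m be ga (P' i)) → Gd Al t be ga (fun i => (P' i).b) → altSum Φ'.cl P' = 0)
    (P : Fin k → Pt K A K) (hP : ∀ i, OnT m be ga (P i)) (hg : Gd Al t be ga (fun i => (P i).b)) : altSum Φ.cl P = 0 := by
  classical
  haveI : Nonempty (Fin m) := ⟨⟨0, hm⟩⟩
  obtain ⟨c0, hc0⟩ := Fintype.exists_le_card_fiber_of_mul_le_card c
    (by rw [Fintype.card_fin, Fintype.card_fin]; exact hk : Fintype.card (Fin m) * k0 ≤ Fintype.card (Fin k))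
  set J : Finset (Fin k) := Finset.univ.filter (fun i => c i = c0) with hJ
  let e : Fin J.card ↪ Fin k := (J.orderEmbOfFin rfl).toEmbedding
  have he : ∀ l, c (e l) = c0 := fun l => by
    have h1 := J.orderEmbOfFin_mem rfl l
    exact (Finset.mem_filter.1 h1).2
  have key : (Fintype.card (Equiv.Perm (Fin J.card))) • altSum Φ.cl P = 0 := by
    have h1 : ∀ τ : Equiv.Perm (Fin J.card), altSum Φ.cl P =
        ∑ σ : Equiv.Perm (Fin k), (Equiv.Perm.sign σ : ℤ) • ((Equiv.Perm.sign τ : ℤ) •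
          Φ.cl ((P ∘ σ) ∘ τ.viaFintypeEmbedding e)) := fun τ => by
      unfold altSum
      rw [← Equiv.sum_comp (Equiv.mulRight (τ.viaFintypeEmbedding e))]
      refine Finset.sum_congr rfl fun σ _ => ?_
      rw [Equiv.coe_mulRight, Equiv.Perm.sign_mul, Equiv.Perm.viaFintypeEmbedding_sign, smul_smul]
      push_cast
      rfl
    calc (Fintype.card (Equiv.Perm (Fin J.card))) • altSum Φ.cl P =
        ∑ τ : Equiv.Perm (Fin J.card), altSum Φ.cl P := by
          rw [Finset.sum_const, Finset.card_univ]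
      _ = ∑ τ : Equiv.Perm (Fin J.card), ∑ σ : Equiv.Perm (Fin k), (Equiv.Perm.sign σ : ℤ) •
          ((Equiv.Perm.sign τ : ℤ) • Φ.cl ((P ∘ σ) ∘ τ.viaFintypeEmbedding e)) :=
          Finset.sum_congr rfl fun τ _ => h1 τ
      _ = ∑ σ : Equiv.Perm (Fin k), (Equiv.Perm.sign σ : ℤ) • ∑ τ : Equiv.Perm (Fin J.card),
          ((Equiv.Perm.sign τ : ℤ) • Φ.cl ((P ∘ σ) ∘ τ.viaFintypeEmbedding e)) := by
          rw [Finset.sum_comm]
          exact Finset.sum_congr rfl fun σ _ => (Finset.smul_sum).symm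
      _ = 0 := Finset.sum_eq_zero fun σ _ => by
          rw [chr_slot X Φ c hΦ H hc0 e c0 he (P ∘ σ) (fun i => hP (σ i)) (hg.comp σ.injective), smul_zero]
  exact tf_complex G _ _ Fintype.card_ne_zero key

end H19.ES.EM
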