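import Pool.Agent.H19.EM.Def

/-! # DM.FunR : functionals which satisfy the relation only for 1-cycles with allowed base points in the two fibres

`Al` is a condition on base points over `K`.  `FnlR Al On n G` is like `H19.ES.Fnl`, but the relation is only required for Galois stable multisets all of whose tuples which specialise at the two places
specialise to tuples with allowed base points.  Formal operations. -/

namespace H19.ES.EM

open H68.BB

variable {K A : Type} [Field K] [CommRing A] [Algebra K A] {G V : Type} [AddCommGroup G] [AddCommGroup V] {n : ℕ}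

/-- the tuples of `S` which specialise at `π` have allowed base points there -/
def OkR (Al : (A →ₐ[K] K) → Prop) (π : Place K (Om K)) (S : Multiset (Fin n → Pt K A (Om K))) : Prop :=
  ∀ s ∈ S, ∀ p : Fin n → Pt K A K, (∀ i, Sp π (s i) (p i)) → ∀ i, Al (p i).b

/-- functionals which satisfy the relation for 1-cycles with allowed fibres -/
structure FnlR (Al : (A →ₐ[K] K) → Prop) (On : Pt K A (Om K) → Prop) (n : ℕ) (G : Type) [AddCommGroup G] where
  cl : (Fin n → Pt K A K) → G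
  rel : ∀ (S : Multiset (Fin n → Pt K A (Om K))) (π π' : Place K (Om K)) (c c' : G), (∀ s ∈ S, ∀ i, On (s i)) →
    GalStable S → OkR Al π S → OkR Al π' S → Lim cl π S c → Lim cl π' S c' → c = c'

variable {Al : (A →ₐ[K] K) → Prop} {On : Pt K A (Om K) → Prop}

theorem FnlR.eq_zero (Φ : FnlR Al On n G) {S : Multiset (Fin n → Pt K A (Om K))}
    {π π' : Place K (Om K)} {c : G} (hS : ∀ s ∈ S, ∀ i, On (s i)) (hG : GalStable S) (hok : OkR Al π S)
    (h : Lim Φ.cl π S c) (h' : ∀ s ∈ S, ∃ i, ¬ Int π' (s i)) : c = 0 := by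
  refine Φ.rel S π π' c 0 hS hG hok ?_ h (Lim.drop S h')
  intro s hs p hp
  obtain ⟨i, hi⟩ := h' s hs
  exact absurd (hp i).int hi

private theorem fr_sigma (σ : Om K ≃ₐ[RatFunc K] Om K) (c : K) :
    σ (algebraMap K (Om K) c) = algebraMap K (Om K) c := by
  have h : (algebraMap K (Om K) c) = algebraMap (RatFunc K) (Om K) (algebraMap K (RatFunc K) c) :=
    IsScalarTower.algebraMap_apply K (RatFunc K) (Om K) c
  rw [h]
  exact σ.commutes _

private theorem fr_cst (σ : Om K ≃ₐ[RatFunc K] Om K) (p : Pt K A K) :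
    (cst' p).map (σ.toAlgHom.restrictScalars K) = cst' p := by
  refine Pt.ext ?_ ?_ ?_
  · apply AlgHom.ext
    intro r
    exact fr_sigma σ (p.b r)
  · exact fr_sigma σ p.x
  · exact fr_sigma σ p.y

/-- pull-back of a functional -/
theorem comapR (Φ : FnlR Al On n G) {m : ℕ} (F : (Fin m → Pt K A (Om K)) → Fin n → Pt K A (Om K))
    (f : (Fin m → Pt K A K) → Fin n → Pt K A K) (h1 : ∀ q, (∀ i, On (q i)) → ∀ i, On (F q i))
    (h2 : ∀ (σ : Om K ≃ₐ[RatFunc K] Om K) q, gal σ (F q) = F (gal σ q))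
    (h3 : ∀ (π : Place K (Om K)) q p, (∀ i, Sp π (q i) (p i)) → ∀ i, Sp π (F q i) (f p i))
    (h4 : ∀ (π : Place K (Om K)) q, (∃ i, ¬ Int π (q i)) → ∃ i, ¬ Int π (F q i))
    (h5 : ∀ p : Fin m → Pt K A K, (∀ i, Al (p i).b) → ∀ i, Al (f p i).b) :
    ∃ Ψ : FnlR Al On m G, ∀ p, Ψ.cl p = Φ.cl (f p) := by
  have hl : ∀ (π : Place K (Om K)) (S : Multiset (Fin m → Pt K A (Om K))) (c : G),
      Lim (fun p => Φ.cl (f p)) π S c → Lim Φ.cl π (S.map F) c := by
    rintro π S c ⟨C, hC, rfl⟩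
    refine ⟨C, ?_, rfl⟩
    rw [Multiset.rel_map_left]
    refine hC.mono fun q _ d _ hd => ?_
    rcases hd with ⟨p, hp, rfl⟩ | ⟨hq, rfl⟩
    · exact Or.inl ⟨f p, h3 π q p hp, rfl⟩
    · exact Or.inr ⟨h4 π q hq, rfl⟩
  have hok : ∀ (π : Place K (Om K)) (S : Multiset (Fin m → Pt K A (Om K))), OkR Al π S → OkR Al π (S.map F) := by
    intro π S hS t ht p hp
    obtain ⟨q, hq, rfl⟩ := Multiset.mem_map.1 ht
    by_cases hint : ∀ i, Int π (q i)
    · choose p' hp' using fun i => (hint i).exists_Sp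
      have h6 : p = f p' := funext fun i => (hp i).unique (h3 π q p' hp' i)
      rw [h6]
      exact h5 p' (hS q hq p' hp')
    · push Not at hint
      obtain ⟨i, hi⟩ := h4 π q hint
      exact absurd (hp i).int hi
  refine ⟨⟨fun p => Φ.cl (f p), fun S π π' c c' hS hG ho ho' hc hc' => ?_⟩, fun _ => rfl⟩
  refine Φ.rel (S.map F) π π' c c' ?_ ?_ (hok π S ho) (hok π' S ho') (hl π S c hc) (hl π' S c' hc')
  · intro t ht
    obtain ⟨q, hq, rfl⟩ := Multiset.mem_map.1 ht
    exact h1 q (hS q hq)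
  · intro σ
    rw [Multiset.map_map]
    have e1 : Multiset.map (gal σ ∘ F) S = Multiset.map (F ∘ gal σ) S :=
      Multiset.map_congr rfl fun q _ => h2 σ q
    rw [e1, ← Multiset.map_map, hG σ]

private theorem fr_sum {ι α : Type} [Fintype ι] (S : Multiset α) (a : ι → (G →+ V)) (c : ι → α → G) :
    (S.map fun q => ∑ i, a i (c i q)).sum = ∑ i, a i (S.map (c i)).sum := by
  induction S using Multiset.induction_on with
  | empty => simp
  | cons q S ih =>
    simp only [Multiset.map_cons, Multiset.sum_cons, map_add, Finset.sum_add_distrib]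
    rw [ih]

private theorem fr_rel {α β : Type} {r : α → β → Prop} {g : α → β} (hr : ∀ q d, r q d → d = g q)
    {S : Multiset α} {C : Multiset β} (h : Multiset.Rel r S C) : C = S.map g := by
  induction h with
  | zero => rfl
  | cons hab _ ih => rw [Multiset.map_cons, ih, hr _ _ hab]

/-- linear combinations of functionals -/
theorem linR {ι : Type} [Fintype ι] (a : ι → (G →+ V)) (Φ : ι → FnlR Al On n G) :
    ∃ Ψ : FnlR Al On n V, ∀ p, Ψ.cl p = ∑ i, a i ((Φ i).cl p) := by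
  have key : ∀ (π : Place K (Om K)) (S : Multiset (Fin n → Pt K A (Om K))) (c : V),
      Lim (fun p => ∑ i, a i ((Φ i).cl p)) π S c →
      ∃ d : ι → G, (∀ i, Lim (Φ i).cl π S (d i)) ∧ c = ∑ i, a i (d i) := by
    rintro π S c ⟨C, hC, rfl⟩
    choose g hg using fun (i : ι) (q : Fin n → Pt K A (Om K)) => Lim1.exists' (Φ i).cl π q
    refine ⟨fun i => (S.map (g i)).sum, fun i => ?_, ?_⟩
    · have h1 := Lim.map (cl := (Φ i).cl) (π := π) S id (g i) fun q _ => hg i q
      rwa [Multiset.map_id] at h1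
    · rw [← fr_sum]
      congr 1
      refine fr_rel (fun q d hd => ?_) hC
      rcases hd with ⟨p, hp, rfl⟩ | ⟨hq, rfl⟩
      · refine Finset.sum_congr rfl fun i _ => ?_
        have h1 : Lim1 (Φ i).cl π q ((Φ i).cl p) := Or.inl ⟨p, hp, rfl⟩
        rw [h1.unique (hg i q)]
      · symm
        refine Finset.sum_eq_zero fun i _ => ?_
        have h1 : Lim1 (Φ i).cl π q 0 := Or.inr ⟨hq, rfl⟩
        rw [← h1.unique (hg i q), map_zero]
  refine ⟨⟨fun p => ∑ i, a i ((Φ i).cl p), fun S π π' c c' hS hG ho ho' hc hc' => ?_⟩, fun _ => rfl⟩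
  obtain ⟨d, hd, rfl⟩ := key π S c hc
  obtain ⟨d', hd', rfl⟩ := key π' S c' hc'
  refine Finset.sum_congr rfl fun i _ => ?_
  rw [(Φ i).rel S π π' (d i) (d' i) hS hG ho ho' (hd i) (hd' i)]

theorem mapR (j : G →+ V) (Φ : FnlR Al On n G) : ∃ Ψ : FnlR Al On n V, ∀ s, Ψ.cl s = j (Φ.cl s) := by
  obtain ⟨Ψ, hΨ⟩ := linR (fun _ : Unit => j) (fun _ => Φ)
  exact ⟨Ψ, fun s => by rw [hΨ]; simp⟩

theorem slotsR (Φ : FnlR Al On n G) (s : Fin n → Pt K A K) (hs : ∀ i, On (cst' (s i))) (hsA : ∀ i, Al (s i).b) {m : ℕ}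
    (e : Fin m → Fin n) (he : Function.Injective e) : ∃ Ψ : FnlR Al On m G, ∀ p, Ψ.cl p = Φ.cl (Function.extend e p s) := by
  refine comapR Φ (fun q => Function.extend e q (fun i => cst' (s i))) (fun p => Function.extend e p s)
    ?_ ?_ ?_ ?_ ?_
  · intro q hq i
    by_cases hi : ∃ j, e j = i
    · obtain ⟨j, rfl⟩ := hi
      rw [he.extend_apply]
      exact hq j
    · rw [Function.extend_apply' _ _ _ hi]
      exact hs i
  · intro σ q
    funext i
    by_cases hi : ∃ j, e j = i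
    · obtain ⟨j, rfl⟩ := hi
      rw [he.extend_apply]
      unfold gal
      rw [he.extend_apply]
    · rw [Function.extend_apply' _ _ _ hi]
      unfold gal
      rw [Function.extend_apply' _ _ _ hi]
      exact fr_cst σ (s i)
  · intro π q p hqp i
    by_cases hi : ∃ j, e j = i
    · obtain ⟨j, rfl⟩ := hi
      rw [he.extend_apply, he.extend_apply]
      exact hqp j
    · rw [Function.extend_apply' _ _ _ hi, Function.extend_apply' _ _ _ hi]
      exact Sp_cst' π (s i)
  · rintro π q ⟨j, hj⟩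
    refine ⟨e j, ?_⟩
    rw [he.extend_apply]
    exact hj
  · intro p hp i
    by_cases hi : ∃ j, e j = i
    · obtain ⟨j, rfl⟩ := hi
      rw [he.extend_apply]
      exact hp j
    · rw [Function.extend_apply' _ _ _ hi]
      exact hsA i

theorem permR (Φ : FnlR Al On n G) (τ : Equiv.Perm (Fin n)) : ∃ Ψ : FnlR Al On n G, ∀ p, Ψ.cl p = Φ.cl (p ∘ τ) := by
  refine comapR Φ (fun q => q ∘ τ) (fun p => p ∘ τ) (fun q hq i => hq (τ i)) (fun σ q => rfl)
    (fun π q p h i => h (τ i)) ?_ (fun p hp i => hp (τ i))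
  rintro π q ⟨j, hj⟩
  refine ⟨τ.symm j, ?_⟩
  show ¬ Int π (q (τ (τ.symm j)))
  rw [Equiv.apply_symm_apply]
  exact hj

theorem altR (Φ : FnlR Al On n G) : ∃ Ψ : FnlR Al On n G, ∀ p, Ψ.cl p = altSum Φ.cl p := by
  choose Ψ hΨ using fun τ : Equiv.Perm (Fin n) => permR Φ τ
  obtain ⟨Θ, hΘ⟩ := linR (fun τ : Equiv.Perm (Fin n) => (Equiv.Perm.sign τ : ℤ) • AddMonoidHom.id G) Ψ
  refine ⟨Θ, fun p => ?_⟩
  rw [hΘ]
  unfold altSum
  exact Finset.sum_congr rfl fun τ _ => by rw [hΨ]; rfl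

/-- a functional on one slot: the alternating sum as a function of the point in the slot `i` -/
theorem slot1R {Φ : FnlR Al On n G} (P : Fin n → Pt K A K) (hP : ∀ i, On (cst' (P i))) (hA : ∀ i, Al (P i).b) (i : Fin n) :
    ∃ Ψ : FnlR Al On 1 G, ∀ R : Pt K A K, Ψ.cl (fun _ => R) = altSum Φ.cl (Function.update P i R) := by
  obtain ⟨Ψ, hΨ⟩ := altR Φ
  obtain ⟨Ψ', hΨ'⟩ := slotsR Ψ P hP hA (fun _ : Fin 1 => i) (fun a b _ => Subsingleton.elim a b)
  refine ⟨Ψ', fun R => ?_⟩
  rw [hΨ', hΨ]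
  congr 1
  funext j
  by_cases hj : j = i
  · subst hj
    rw [Function.update_self]
    have hinj : Function.Injective (fun _ : Fin 1 => j) := fun a b _ => Subsingleton.elim a b
    exact hinj.extend_apply (fun _ : Fin 1 => R) P 0
  · rw [Function.update_of_ne hj]
    exact Function.extend_apply' _ _ _ (by rintro ⟨a, ha⟩; exact hj ha.symm)

/-! ### constant base points -/

/-- the homomorphism `A → K^N` given by `N` base points -/
noncomputable def bN {N : ℕ} (b : Fin N → (A →ₐ[K] K)) : A →ₐ[K] (Fin N → K) := AlgHom.pi b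

/-- the point of the surface over `A` given by a point of the surface over `K^N` -/
noncomputable def pN {N : ℕ} (b : Fin N → (A →ₐ[K] K)) {F : Type} [Field F] [Algebra K F] (P : Pt K (Fin N → K) F) : Pt K A F :=
  ⟨P.b.comp (bN b), P.x, P.y⟩

/-- the point of the surface over `K^N` over the base point `b i` -/
noncomputable def qN {N : ℕ} {F : Type} [Field F] [Algebra K F] (i : Fin N) (x y : F) : Pt K (Fin N → K) F :=
  ⟨(Algebra.ofId K F).comp (Pi.evalAlgHom K _ i), x, y⟩

theorem pN_qN {N : ℕ} (b : Fin N → (A →ₐ[K] K)) (i : Fin N) (x y : K) : pN b (qN i x y) = ⟨b i, x, y⟩ := by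
  refine Pt.ext ?_ rfl rfl
  ext r
  rfl

/-- homomorphisms `K^N → K` are projections -/
theorem hom_pi {N : ℕ} (φ : (Fin N → K) →ₐ[K] K) : ∃ i, ∀ a, φ a = a i := by
  classical
  have h1 : ∑ i : Fin N, φ (Pi.single i 1) = 1 := by
    rw [← map_sum, Finset.univ_sum_single]
    exact map_one φ
  obtain ⟨i, -, hi⟩ := Finset.exists_ne_zero_of_sum_ne_zero (s := Finset.univ) (f := fun i : Fin N => φ (Pi.single i 1))
    (by rw [h1]; exact one_ne_zero)
  refine ⟨i, fun a => ?_⟩
  have h2 : φ (Pi.single i 1) * φ a = φ (Pi.single i 1) * a i := by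
    have h3 : (Pi.single i 1 : Fin N → K) * a = (a i) • (Pi.single i 1 : Fin N → K) := by
      funext j
      by_cases hj : j = i
      · subst hj; simp
      · simp [hj]
    rw [← map_mul, h3, map_smul, smul_eq_mul, mul_comm]
  exact mul_left_cancel₀ hi h2

theorem pbase {m : ℕ} {be ga : A} (Φ : FnlR Al (OnT m be ga) n G) {N : ℕ} (b : Fin N → (A →ₐ[K] K)) (hb : ∀ i, Al (b i)) :
    ∃ Ψ : Fnl (OnT m (bN b be) (bN b ga)) n G, ∀ s, Ψ.cl s = Φ.cl (fun i => pN b (s i)) := by
  have hsp : ∀ (π : Place K (Om K)) (P : Pt K (Fin N → K) (Om K)) (p : Pt K (Fin N → K) K), Sp π P p →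
      Sp π (pN b P) (pN b p) := fun π P p h => ⟨fun r => h.1 _, h.2⟩
  have hint : ∀ (π : Place K (Om K)) (P : Pt K (Fin N → K) (Om K)), Int π (pN b P) → Int π P := by
    intro π P h
    refine ⟨fun r => ?_, h.2⟩
    have h1 : IsIntegral K (P.b r) := (Algebra.IsIntegral.isIntegral (R := K) r).map P.b
    have h2 : IsIntegral π.V (P.b r) := by
      obtain ⟨p, hp, hp0⟩ := h1
      let j : K →+* π.V := (algebraMap K (Om K)).codRestrict π.V.toSubring fun c => (π.const c).choose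
      refine ⟨p.map j, hp.map j, ?_⟩
      rw [Polynomial.eval₂_map]
      exact hp0
    obtain ⟨y, hy⟩ := (IsIntegrallyClosed.isIntegral_iff (R := π.V) (K := Om K)).1 h2
    rw [← hy]
    exact y.2
  have hl : ∀ (π : Place K (Om K)) (S : Multiset (Fin n → Pt K (Fin N → K) (Om K))) (c : G),
      Lim (fun s : Fin n → Pt K (Fin N → K) K => Φ.cl (fun i => pN b (s i))) π S c →
      Lim Φ.cl π (S.map fun s i => pN b (s i)) c := by
    rintro π S c ⟨C, hC, rfl⟩
    refine ⟨C, ?_, rfl⟩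
    rw [Multiset.rel_map_left]
    refine hC.mono fun q _ d _ hd => ?_
    rcases hd with ⟨p, hp, rfl⟩ | ⟨⟨i, hi⟩, rfl⟩
    · exact Or.inl ⟨_, fun i => hsp π _ _ (hp i), rfl⟩
    · exact Or.inr ⟨⟨i, fun h => hi (hint π _ h)⟩, rfl⟩
  have hok : ∀ (π : Place K (Om K)) (S : Multiset (Fin n → Pt K (Fin N → K) (Om K))),
      OkR Al π (S.map fun s i => pN b (s i)) := by
    intro π S t ht p hp i
    obtain ⟨q, hq, rfl⟩ := Multiset.mem_map.1 ht
    obtain ⟨p', hp'⟩ := (hint π _ (hp i).int).exists_Sp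
    have h1 : p i = pN b p' := (hp i).unique (hsp π _ _ hp')
    obtain ⟨j, hj⟩ := hom_pi p'.b
    have h2 : (pN b p').b = b j := by
      ext r
      exact hj (bN b r)
    rw [h1, h2]
    exact hb j
  refine ⟨⟨fun s => Φ.cl (fun i => pN b (s i)), fun S π π' c c' hS hG hc hc' => ?_⟩, fun _ => rfl⟩
  refine Φ.rel (S.map fun s i => pN b (s i)) π π' c c' ?_ ?_ (hok π S) (hok π' S) (hl π S c hc) (hl π' S c' hc')
  · intro t ht
    obtain ⟨q, hq, rfl⟩ := Multiset.mem_map.1 ht
    exact fun i => hS q hq i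
  · intro σ
    rw [Multiset.map_map]
    have e1 : Multiset.map (gal σ ∘ fun (s : Fin n → Pt K (Fin N → K) (Om K)) i => pN b (s i)) S =
        Multiset.map ((fun (s : Fin n → Pt K (Fin N → K) (Om K)) i => pN b (s i)) ∘ gal σ) S :=
      Multiset.map_congr rfl fun q _ => rfl
    rw [e1, ← Multiset.map_map, hG σ]

end H19.ES.EM
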