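import Pool.Agent.H77.AF.Pts
import Pool.Agent.H77.AF.TD
import Pool.Agent.H19.VG.DCov
import Pool.Agent.H19.DM.FunR

/-! # DM.GDef : the coordinate ring of the surface `T`, regular points of a rational map, restricted relations (definitions, no sorry) -/

namespace H19.DM

open H68.BB H77.AF Polynomial TensorProduct

/-- the right hand side of the equation of `S : y² = x^e (x^(2m) + a x^m + b)` -/
noncomputable def gH {A : Type} [CommRing A] (m e : ℕ) (a b : A) : A[X] := X ^ e * (X ^ (2 * m) + C a * X ^ m + C b)

/-- the coordinate ring of `S` over `A` -/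
abbrev OH {A : Type} [CommRing A] (m e : ℕ) (a b : A) : Type := H19.VG.RG (gH m e a b)

/-- `T : δ² = - (w^(2M) - 2 γ w^M + β²)` -/
noncomputable def gT {B : Type} [CommRing B] (M : ℕ) (be ga : B) : B[X] := -(X ^ (2 * M) - C (2 * ga) * X ^ M + C (be ^ 2))

/-- the coordinate ring of `T` over `B` -/
abbrev OT {B : Type} [CommRing B] (M : ℕ) (be ga : B) : Type := H19.VG.RG (gT M be ga)

/-- the coordinate `w` -/
noncomputable def wT {B : Type} [CommRing B] (M : ℕ) (be ga : B) : OT M be ga := AdjoinRoot.of (X ^ 2 - C (gT M be ga)) X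

/-- the coordinate `δ` -/
noncomputable def dT {B : Type} [CommRing B] (M : ℕ) (be ga : B) : OT M be ga := AdjoinRoot.root (X ^ 2 - C (gT M be ga))

/-- `ι : R → L = Frac O` is a rational map from `Spec O` to `Spec R`; it is defined at the point `s : O → F` and maps it to the point `P : R → F`:
every `ι r` is a quotient `u / v` with `s v ≠ 0`, and `P r = s u / s v` -/
def FR {K0 O L R F : Type} [Field K0] [CommRing O] [Algebra K0 O] [Field L] [Algebra K0 L] [Algebra O L] [CommRing R] [Algebra K0 R]
    [Field F] [Algebra K0 F] (ι : R →ₐ[K0] L) (s : O →ₐ[K0] F) (P : R →ₐ[K0] F) : Prop :=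
  ∀ r : R, ∃ u v : O, s v ≠ 0 ∧ ι r * algebraMap O L v = algebraMap O L u ∧ s u = P r * s v

variable {K : Type} [Field K]

/-- the tuples of `S` which specialise at `π` specialise to allowed points -/
def OkP {D : PD K} (Al : D.X → Prop) {k : ℕ} (π : Place K (Om K)) (S : Multiset (Fin k → D.Y)) : Prop :=
  ∀ s ∈ S, ∀ p : Fin k → D.X, SpT π s p → ∀ i, Al (p i)

/-- `cl` satisfies the relation for the 1-cycles with allowed fibres -/
def RelR (D : PD K) (Al : D.X → Prop) {k : ℕ} {G : Type} [AddCommGroup G] (cl : (Fin k → D.X) → G) : Prop :=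
  ∀ (S : Multiset (Fin k → D.Y)) (π π' : Place K (Om K)) (c c' : Multiset (Fin k → D.X)), GalStable S → OkP Al π S → OkP Al π' S →
    Fibre π S c → Fibre π' S c' → (c.map cl).sum = (c'.map cl).sum

/-- two points of `T` over different base points with coprime types -/
def Cop {K0 B : Type} [Field K0] [CommRing B] [Algebra K0 B] {M : ℕ} {be ga : B} {F : Type} [Field F] [Algebra K0 F]
    (t : B) (q q' : OT M be ga →ₐ[K0] F) : Prop :=
  q (algebraMap B (OT M be ga) t) ≠ q' (algebraMap B (OT M be ga) t) ∧
    q (algebraMap B (OT M be ga) ga) * q' (algebraMap B (OT M be ga) be) ≠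
      q' (algebraMap B (OT M be ga) ga) * q (algebraMap B (OT M be ga) be)

/-- the base point of `q` is general over `K0` -/
def Gnr {K0 B : Type} [Field K0] [CommRing B] [Algebra K0 B] {M : ℕ} {be ga : B} {F : Type} [Field F] [Algebra K0 F]
    (q : OT M be ga →ₐ[K0] F) : Prop := Function.Injective (fun c : B => q (algebraMap B (OT M be ga) c))

end H19.DM
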