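import Pool.Agent.H19.DM.GDef
import Pool.Agent.H77.UB.Lin
import Pool.Agent.H71.SD.Lang

/-! # DM.GP : every point of `X = Spec R` is the specialisation of a generic point (about 200 lines)

`K ⊗[K0] R` is a domain (`H77.AF.tens_dom`); `K1 = AlgebraicClosure (FractionRing (K ⊗[K0] R))`, `P1 r = 1 ⊗ r`.  The homomorphism `K ⊗ R → K`, `c ⊗ r ↦ c * p r`, defined on the image of `K ⊗ R` in `K1` (a subring; `K ⊗ R → K1` is injective, `RingEquiv.ofInjective`/`RingHom.rangeRestrict`), extends to `V0`, `φ0`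
(`SD.lang_exists`): so `Rd V0 φ0 c c` for `c ∈ K` and `Rd V0 φ0 (P1 r) (p r)`.
`q1`: `R' ⊆ L` the subring (`Subalgebra K0 L`, `Algebra.adjoin` of the images of generators of `R` and of `O`) generated by `ι R` and `O`: a domain of finite type over `K0`, integral over `R` (`hint`).  `P1` extends to `R' → K1` (`K1` algebraically closed, `R → R'` injective and integral: `H19.ES.lift_hom` in `Pool/Agent/H19/ES/Hom.lean`, or
`IsAlgClosed.lift` for fields); `q1` = its restriction to `O`.
INJECTIVITY: `K ⊗ R → K ⊗ R'` is injective and integral (`H77.UB.map_inj`, `map_int`), `K ⊗ R'` is a domain (`tens_dom`), the kernel of `K ⊗ R' → K1` is an ideal which meets `K ⊗ R` in zero (`K ⊗ R → K1` is injective), so it is zero (`Ideal.eq_bot_of_comap_eq_bot`, for integral extensions of domains).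
`K ⊗ O → K ⊗ R'` is injective (`map_inj`).  So `K ⊗ O → K1` is injective.
`FR ι q1 P1`: `r ∈ R`: `ι r = u / v` in `L`, `v ≠ 0` (`IsFractionRing.div_surjective`), `q1 v ≠ 0` (`q1` is injective), and in `R'`: `ι r * v = u`, apply `R' → K1`. -/

namespace H19.DM

open H68.BB H77.AF Polynomial TensorProduct

private theorem core {K0 K O L R K1 : Type} [Field K0] [IsAlgClosed K0] [Field K] [IsAlgClosed K] [Algebra K0 K] [CommRing O] [IsDomain O] [Algebra K0 O]
    [Algebra.FiniteType K0 O] [Field L] [Algebra K0 L] [Algebra O L] [IsScalarTower K0 O L] [IsFractionRing O L] [CommRing R] [IsDomain R]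
    [Algebra K0 R] [Algebra.FiniteType K0 R] (ι : R →ₐ[K0] L) (hι : Function.Injective ι)
    (hint : ∀ q : O, ι.toRingHom.IsIntegralElem (algebraMap O L q)) (p : R →ₐ[K0] K)
    [Field K1] [IsAlgClosed K1] [Algebra K K1] [Algebra K0 K1] [IsScalarTower K0 K K1] (j : K ⊗[K0] R →ₐ[K] K1)
    (hj : Function.Injective j) :
    ∃ (V0 : ValuationSubring K1) (φ0 : V0 →+* K) (_ : IsLocalHom φ0) (P1 : R →ₐ[K0] K1) (q1 : O →ₐ[K0] K1),
      (∀ c : K, Rd V0 φ0 (algebraMap K K1 c) c) ∧ (∀ r : R, Rd V0 φ0 (P1 r) (p r)) ∧ FR ι q1 P1 ∧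
      Function.Injective (Algebra.TensorProduct.lift (Algebra.ofId K K1) q1 (fun _ _ => Commute.all _ _) : K ⊗[K0] O →ₐ[K] K1) := by
  have hD : IsDomain (K ⊗[K0] R) := tens_dom K0 K R
  let P1 : R →ₐ[K0] K1 := (j.restrictScalars K0).comp Algebra.TensorProduct.includeRight
  have hP1 : ∀ r : R, P1 r = j ((1 : K) ⊗ₜ[K0] r) := fun _ => rfl
  have hincR : Function.Injective (Algebra.TensorProduct.includeRight : R →ₐ[K0] K ⊗[K0] R) :=
    Algebra.TensorProduct.includeRight_injective (algebraMap K0 K).injective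
  have hincO : Function.Injective (Algebra.TensorProduct.includeRight : O →ₐ[K0] K ⊗[K0] O) :=
    Algebra.TensorProduct.includeRight_injective (algebraMap K0 K).injective
  have hP1i : Function.Injective P1 := by
    intro a b hab
    rw [hP1, hP1] at hab
    exact hincR (hj hab)
  let χ0 : K ⊗[K0] R →ₐ[K] K := Algebra.TensorProduct.lift (Algebra.ofId K K) p (fun _ _ => Commute.all _ _)
  let jr : K ⊗[K0] R ≃+* (j : K ⊗[K0] R →+* K1).range :=
    RingEquiv.ofBijective (j : K ⊗[K0] R →+* K1).rangeRestrict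
      ⟨fun a b h => hj (congrArg Subtype.val h), RingHom.rangeRestrict_surjective _⟩
  let χ : (j : K ⊗[K0] R →+* K1).range →+* K := (χ0 : K ⊗[K0] R →+* K).comp (jr.symm : _ →+* K ⊗[K0] R)
  obtain ⟨V0, φ0, hloc, hRd⟩ := SD.lang_exists (j : K ⊗[K0] R →+* K1).range χ
  have hRd1 : ∀ z : K ⊗[K0] R, Rd V0 φ0 (j z) (χ0 z) := by
    intro z
    have h1 := hRd (jr z)
    have h2 : χ (jr z) = χ0 z := by
      change χ0 (jr.symm (jr z)) = χ0 z
      rw [RingEquiv.symm_apply_apply]
    rw [h2] at h1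
    exact h1
  -- the ring generated by R and O
  let Ψ : R ⊗[K0] O →ₐ[K0] L := Algebra.TensorProduct.lift ι (IsScalarTower.toAlgHom K0 O L) (fun _ _ => Commute.all _ _)
  let iR : R →ₐ[K0] Ψ.range := Ψ.rangeRestrict.comp Algebra.TensorProduct.includeLeft
  let iO : O →ₐ[K0] Ψ.range := Ψ.rangeRestrict.comp Algebra.TensorProduct.includeRight
  have hiR : ∀ r, ((iR r : Ψ.range) : L) = ι r := by
    intro r
    change Ψ (r ⊗ₜ 1) = _
    rw [Algebra.TensorProduct.lift_tmul, map_one, mul_one]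
  have hiO : ∀ q, ((iO q : Ψ.range) : L) = algebraMap O L q := by
    intro q
    change Ψ (1 ⊗ₜ q) = _
    rw [Algebra.TensorProduct.lift_tmul, map_one, one_mul]
    rfl
  have hiRi : Function.Injective iR := by
    intro a b hab
    apply hι
    rw [← hiR, ← hiR, hab]
  have hiOi : Function.Injective iO := by
    intro a b hab
    apply IsFractionRing.injective O L
    rw [← hiO, ← hiO, hab]
  have ft1 : Algebra.FiniteType K0 (R ⊗[K0] O) := by
    have : Algebra.FiniteType R (R ⊗[K0] O) := inferInstance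
    exact Algebra.FiniteType.trans (S := R) inferInstance inferInstance
  have ft2 : Algebra.FiniteType K0 Ψ.range :=
    Algebra.FiniteType.of_surjective Ψ.rangeRestrict (AlgHom.rangeRestrict_surjective Ψ)
  have hD' : IsDomain Ψ.range := inferInstance
  have hint1 : iR.toRingHom.IsIntegral := by
    rintro ⟨z, w, rfl⟩
    have h0 : (⟨Ψ.toRingHom w, w, rfl⟩ : Ψ.range) = Ψ.rangeRestrict w := rfl
    rw [h0]
    clear h0
    induction w using TensorProduct.induction_on with
    | zero => rw [map_zero]; exact RingHom.isIntegralElem_zero _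
    | add x y hx hy => rw [map_add]; exact RingHom.IsIntegralElem.add _ hx hy
    | tmul x y =>
      have h1 : Ψ.rangeRestrict (x ⊗ₜ y) = iR x * iO y := by
        change _ = Ψ.rangeRestrict (x ⊗ₜ 1) * Ψ.rangeRestrict (1 ⊗ₜ y)
        rw [← map_mul, Algebra.TensorProduct.tmul_mul_tmul, mul_one, one_mul]
      rw [h1]
      refine RingHom.IsIntegralElem.mul _ ?_ ?_
      · exact RingHom.isIntegralElem_map iR.toRingHom
      · obtain ⟨f, hf, hf0⟩ := hint y
        refine ⟨f, hf, ?_⟩
        apply Subtype.val_injective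
        have h3 : (Ψ.range.val.toRingHom).comp iR.toRingHom = ι.toRingHom := RingHom.ext fun r => hiR r
        have h2 : Ψ.range.val.toRingHom (Polynomial.eval₂ iR.toRingHom (iO y) f) = 0 := by
          rw [Polynomial.hom_eval₂, h3]
          have h4 : Ψ.range.val.toRingHom (iO y) = algebraMap O L y := hiO y
          rw [h4]
          exact hf0
        exact h2
  -- extension of P1
  obtain ⟨θ, hθ⟩ : ∃ θ : Ψ.range →ₐ[K0] K1, ∀ r, θ (iR r) = P1 r := by
    let a1 : Algebra R Ψ.range := iR.toRingHom.toAlgebra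
    let a2 : Algebra R K1 := P1.toRingHom.toAlgebra
    have f1 : FaithfulSMul R Ψ.range := (faithfulSMul_iff_algebraMap_injective R Ψ.range).2 hiRi
    have f2 : FaithfulSMul R K1 := (faithfulSMul_iff_algebraMap_injective R K1).2 hP1i
    have i1 : Algebra.IsIntegral R Ψ.range := ⟨hint1⟩
    let θ0 : Ψ.range →ₐ[R] K1 := IsAlgClosed.lift
    have h5 : ∀ r, θ0 (iR r) = P1 r := fun r => θ0.commutes r
    refine ⟨{ θ0.toRingHom with commutes' := fun c => ?_ }, h5⟩
    have h6 : algebraMap K0 Ψ.range c = iR (algebraMap K0 R c) := (iR.commutes c).symm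
    change θ0 (algebraMap K0 Ψ.range c) = _
    rw [h6, h5, P1.commutes]
  let q1 : O →ₐ[K0] K1 := θ.comp iO
  let Θ : K ⊗[K0] Ψ.range →ₐ[K] K1 := Algebra.TensorProduct.lift (Algebra.ofId K K1) θ (fun _ _ => Commute.all _ _)
  have hD2 : IsDomain (K ⊗[K0] Ψ.range) := tens_dom K0 K Ψ.range
  let M : K ⊗[K0] R →ₐ[K] K ⊗[K0] Ψ.range := Algebra.TensorProduct.map (AlgHom.id K K) iR
  have hMi : Function.Injective M := H77.UB.map_inj K hiRi
  have hMint : M.toRingHom.IsIntegral := H77.UB.map_int K hint1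
  have hΘM : Θ.comp M = j := by
    apply Algebra.TensorProduct.ext'
    intro c r
    change Θ (c ⊗ₜ iR r) = _
    rw [Algebra.TensorProduct.lift_tmul, hθ, hP1]
    have h7 : (c ⊗ₜ[K0] r : K ⊗[K0] R) = c • ((1 : K) ⊗ₜ[K0] r) := by
      rw [TensorProduct.smul_tmul', smul_eq_mul, mul_one]
    rw [h7, map_smul, Algebra.smul_def]
    rfl
  have hΘi : Function.Injective Θ := by
    let a3 : Algebra (K ⊗[K0] R) (K ⊗[K0] Ψ.range) := M.toRingHom.toAlgebra
    have i2 : Algebra.IsIntegral (K ⊗[K0] R) (K ⊗[K0] Ψ.range) := ⟨hMint⟩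
    rw [← AlgHom.coe_toRingHom, RingHom.injective_iff_ker_eq_bot]
    refine Ideal.eq_bot_of_comap_eq_bot (R := K ⊗[K0] R) ?_
    rw [eq_bot_iff]
    intro z hz
    have h8 : Θ (M z) = 0 := hz
    have h9 : j z = 0 := by
      rw [← hΘM]
      exact h8
    have h10 : z = 0 := hj (by rw [h9, map_zero])
    rw [h10]
    exact Submodule.zero_mem _
  have hinj : Function.Injective (Algebra.TensorProduct.lift (Algebra.ofId K K1) q1 (fun _ _ => Commute.all _ _) : K ⊗[K0] O →ₐ[K] K1) := by
    let MO : K ⊗[K0] O →ₐ[K] K ⊗[K0] Ψ.range := Algebra.TensorProduct.map (AlgHom.id K K) iO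
    have hMO : Function.Injective MO := H77.UB.map_inj K hiOi
    have h11 : (Algebra.TensorProduct.lift (Algebra.ofId K K1) q1 (fun _ _ => Commute.all _ _) : K ⊗[K0] O →ₐ[K] K1) = Θ.comp MO := by
      apply Algebra.TensorProduct.ext'
      intro c r
      change _ = Θ (c ⊗ₜ iO r)
      rw [Algebra.TensorProduct.lift_tmul, Algebra.TensorProduct.lift_tmul]
      rfl
    rw [h11]
    exact hΘi.comp hMO
  have hq1i : Function.Injective q1 := by
    intro a b hab
    apply hincO
    apply hinj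
    rw [Algebra.TensorProduct.includeRight_apply, Algebra.TensorProduct.includeRight_apply,
      Algebra.TensorProduct.lift_tmul, Algebra.TensorProduct.lift_tmul, hab]
  refine ⟨V0, φ0, hloc, P1, q1, ?_, ?_, ?_, hinj⟩
  · intro c
    have h12 := hRd1 (algebraMap K (K ⊗[K0] R) c)
    rw [j.commutes, χ0.commutes] at h12
    exact h12
  · intro r
    have h12 := hRd1 ((1 : K) ⊗ₜ[K0] r)
    have h13 : χ0 ((1 : K) ⊗ₜ[K0] r) = p r := by
      rw [Algebra.TensorProduct.lift_tmul, map_one, one_mul]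
    rw [h13] at h12
    exact h12
  · intro r
    obtain ⟨u, v, hv, huv⟩ := IsFractionRing.div_surjective (A := O) (ι r)
    have hv0 : v ≠ 0 := nonZeroDivisors.ne_zero hv
    have hv1 : algebraMap O L v ≠ 0 := fun h => hv0 (IsFractionRing.injective O L (by rw [h, map_zero]))
    have h14 : ι r * algebraMap O L v = algebraMap O L u := by
      rw [← huv, div_mul_cancel₀ _ hv1]
    refine ⟨u, v, fun h => hv0 (hq1i (by rw [h, map_zero])), h14, ?_⟩
    have h15 : iR r * iO v = iO u := by
      apply Subtype.val_injective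
      change (iR r : L) * (iO v : L) = (iO u : L)
      rw [hiR, hiO, hiO, h14]
    have h16 := congrArg θ h15
    rw [map_mul, hθ] at h16
    exact h16.symm

theorem gp {K0 K O L R : Type} [Field K0] [IsAlgClosed K0] [Field K] [IsAlgClosed K] [Algebra K0 K] [CommRing O] [IsDomain O] [Algebra K0 O]
    [Algebra.FiniteType K0 O] [Field L] [Algebra K0 L] [Algebra O L] [IsScalarTower K0 O L] [IsFractionRing O L] [CommRing R] [IsDomain R]
    [Algebra K0 R] [Algebra.FiniteType K0 R] (ι : R →ₐ[K0] L) (hι : Function.Injective ι)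
    (hint : ∀ q : O, ι.toRingHom.IsIntegralElem (algebraMap O L q)) (p : R →ₐ[K0] K) :
    ∃ (K1 : Type) (_ : Field K1) (_ : IsAlgClosed K1) (_ : Algebra K K1) (_ : Algebra K0 K1) (_ : IsScalarTower K0 K K1)
      (V0 : ValuationSubring K1) (φ0 : V0 →+* K) (_ : IsLocalHom φ0) (P1 : R →ₐ[K0] K1) (q1 : O →ₐ[K0] K1),
      (∀ c : K, Rd V0 φ0 (algebraMap K K1 c) c) ∧ (∀ r : R, Rd V0 φ0 (P1 r) (p r)) ∧ FR ι q1 P1 ∧
      Function.Injective (Algebra.TensorProduct.lift (Algebra.ofId K K1) q1 (fun _ _ => Commute.all _ _) : K ⊗[K0] O →ₐ[K] K1) := by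
  have hD : IsDomain (K ⊗[K0] R) := tens_dom K0 K R
  let j : (K ⊗[K0] R) →ₐ[K] AlgebraicClosure (FractionRing (K ⊗[K0] R)) :=
    IsScalarTower.toAlgHom K (K ⊗[K0] R) (AlgebraicClosure (FractionRing (K ⊗[K0] R)))
  have hj : Function.Injective j := by
    have h1 : Function.Injective (algebraMap (K ⊗[K0] R) (FractionRing (K ⊗[K0] R))) := IsFractionRing.injective _ _
    have h2 : Function.Injective (algebraMap (FractionRing (K ⊗[K0] R)) (AlgebraicClosure (FractionRing (K ⊗[K0] R)))) :=
      (algebraMap (FractionRing (K ⊗[K0] R)) (AlgebraicClosure (FractionRing (K ⊗[K0] R)))).injective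
    have h3 : ∀ z, j z = algebraMap (FractionRing (K ⊗[K0] R)) (AlgebraicClosure (FractionRing (K ⊗[K0] R)))
        (algebraMap (K ⊗[K0] R) (FractionRing (K ⊗[K0] R)) z) := fun z => IsScalarTower.algebraMap_apply _ _ _ z
    intro a b hab
    rw [h3, h3] at hab
    exact h1 (h2 hab)
  exact ⟨AlgebraicClosure (FractionRing (K ⊗[K0] R)), inferInstance, inferInstance, inferInstance, inferInstance, inferInstance,
    core ι hι hint p j hj⟩

end H19.DM
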