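import Pool.Agent.H19.DM.SpA

/-! # DM.SpC : from projective to affine rational equivalence (about 300 lines)

For a field `F ⊇ K0`: a vector `P` with `OnV`-equations and `P j none ≠ 0` for all `j` is proportional to `vc r Q` for a unique tuple `Q` of homomorphisms: `Q j (r i) = P j (some i) / P j none`.  EXISTENCE: let `x = (P j (some i) / P j none)_i`; the homomorphism `MvPolynomial (Fin d) K0 → F`, `X_i ↦ x i`, kills the kernel of the surjection
`MvPolynomial (Fin d) K0 → R`, `X_i ↦ r i` (`hr`): for `f` in the kernel of total degree `≤ N` the homogenisation `h = ∑_{m ∈ supp f} (coeff m f) * X_none^(N - |m|) * X^m` (`MvPolynomial.rename some`, or `MvPolynomial.monomial`) is homogeneous of degree `N`, `aeval (1, r) h = aeval r f = 0`, so `aeval (P j) h = 0` and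
`aeval (P j) h = (P j none)^N * aeval x f`.  So it factors through `R` (`Ideal.Quotient.lift`, `AlgHom.liftOfSurjective`, `Ideal.quotientKerAlgEquivOfSurjective`).  UNIQUE: homomorphisms which agree on generators (`AlgHom.ext_of_adjoin_eq_top`).
`ρ`: `ρ (single P 1) = single Q 1` if there is `Q` with `P` proportional to `vc r Q` (`∃ c, (∀ j, c j ≠ 0) ∧ P = scl (wo k d) c (vc r Q)`), else `0` (`Finsupp.liftAddHom` / `Finsupp.lift`, `open Classical`).  The first two properties are clear (`(vc r Q) j none = 1`).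
THIRD: generator `S, π, π', c, c'` of `RatG (wo k d) (OnV r)`: `S' = S.filterMap aff`, `aff P = some Q` if `P` is proportional to `vc r Q` over `Om K`, else `none`.  Galois stable (`mp σ`).  `Fibre π S' (c.filterMap affK)`: for `P ∈ S` with `Spc (wo k d) π.V π.φ P p` (block `j`: `e * P j` reduces to `p j ≠ 0`):
(i) `aff P = none`: some `P j none = 0` (by EXISTENCE, `P` satisfies the equations), so `p j none = 0` and `affK p = none`.
(ii) `aff P = some Q`, all `p j none ≠ 0`: `e P j none` is a unit of `V`, so `Q j (r i) = (e P j (some i)) / (e P j none) ∈ V` reduces to `p j (some i) / p j none`; so all `Q j x ∈ V` (`x` in the subalgebra generated by the `r i`), `Q j` reduces to a homomorphism `q j` (as in `H19.ES.exists_redHom`), and `p` is proportional to `vc r q`: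
`affK p = some q`, `SpT π Q q`.
(iii) `aff P = some Q`, some `p j none = 0`: `affK p = none`, and `Q j` is off: some `p j (some i) ≠ 0`; if `Q j (r i) ∈ V` then `e P j (some i) = Q j (r i) * (e P j none)` reduces to `0`: contradiction.
Induction over `Multiset.Rel`.  `ρ (cy c) = cyc (c.filterMap affK)`. -/

namespace H19.DM

open H68.BB H77.AF SZ

section hom

variable {K0 F R : Type} [Field K0] [Field F] [Algebra K0 F] [CommRing R] [Algebra K0 R] {d k : ℕ} {r : Fin d → R}

/-- the homogenisation of degree `N` -/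
private noncomputable def hmg (f : MvPolynomial (Fin d) K0) (N : ℕ) : MvPolynomial (Option (Fin d)) K0 :=
  ∑ m ∈ f.support, MvPolynomial.C (MvPolynomial.coeff m f) * (MvPolynomial.X none ^ (N - ∑ i, m i) *
    ∏ i, MvPolynomial.X (some i) ^ m i)

private theorem deg_le {f : MvPolynomial (Fin d) K0} {m : Fin d →₀ ℕ} (hm : m ∈ f.support) : ∑ i, m i ≤ f.totalDegree := by
  have h := MvPolynomial.le_totalDegree hm
  rwa [Finsupp.sum_fintype _ _ (fun i => rfl)] at h

private theorem hmg_hom (f : MvPolynomial (Fin d) K0) : (hmg f f.totalDegree).IsHomogeneous f.totalDegree := by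
  refine MvPolynomial.IsHomogeneous.sum _ _ _ fun m hm => ?_
  have h1 : (MvPolynomial.X none ^ (f.totalDegree - ∑ i, m i) : MvPolynomial (Option (Fin d)) K0).IsHomogeneous
      (f.totalDegree - ∑ i, m i) := MvPolynomial.isHomogeneous_X_pow _ _
  have h2 : (∏ i, MvPolynomial.X (some i) ^ m i : MvPolynomial (Option (Fin d)) K0).IsHomogeneous (∑ i, m i) :=
    MvPolynomial.IsHomogeneous.prod _ _ _ fun i _ => MvPolynomial.isHomogeneous_X_pow _ _
  have h3 := (MvPolynomial.isHomogeneous_C (Option (Fin d)) (MvPolynomial.coeff m f)).mul (h1.mul h2)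
  rw [zero_add, Nat.sub_add_cancel (deg_le hm)] at h3
  exact h3

private theorem aeval_hmg {A : Type} [CommRing A] [Algebra K0 A] (f : MvPolynomial (Fin d) K0) (N : ℕ)
    (v : Option (Fin d) → A) : MvPolynomial.aeval v (hmg f N) =
      ∑ m ∈ f.support, algebraMap K0 A (MvPolynomial.coeff m f) * (v none ^ (N - ∑ i, m i) * ∏ i, v (some i) ^ m i) := by
  unfold hmg
  rw [map_sum]
  refine Finset.sum_congr rfl fun m _ => ?_
  rw [map_mul, map_mul, MvPolynomial.aeval_C, map_pow, MvPolynomial.aeval_X, map_prod]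
  simp only [map_pow, MvPolynomial.aeval_X]

private theorem aeval_sum {A : Type} [CommRing A] [Algebra K0 A] (f : MvPolynomial (Fin d) K0) (x : Fin d → A) :
    MvPolynomial.aeval x f = ∑ m ∈ f.support, algebraMap K0 A (MvPolynomial.coeff m f) * ∏ i, x i ^ m i := by
  rw [MvPolynomial.aeval_def, MvPolynomial.eval₂_eq']

private theorem exists_hom (hr : Algebra.adjoin K0 (Set.range r) = ⊤) {u : Option (Fin d) → F} (hu : u none ≠ 0)
    (h : ∀ (N : ℕ) (h : MvPolynomial (Option (Fin d)) K0), h.IsHomogeneous N →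
      MvPolynomial.aeval (fun o : Option (Fin d) => o.elim (1 : R) r) h = 0 → MvPolynomial.aeval u h = 0) :
    ∃ q : R →ₐ[K0] F, ∀ i, u (some i) = u none * q (r i) := by
  have hsurj : Function.Surjective (MvPolynomial.aeval (R := K0) r) := by
    rw [← AlgHom.range_eq_top, ← Algebra.adjoin_range_eq_range_aeval, hr]
  have hker : ∀ f : MvPolynomial (Fin d) K0, MvPolynomial.aeval r f = 0 →
      MvPolynomial.aeval (fun i => u (some i) / u none) f = 0 := by
    intro f hf
    have h1 := h _ _ (hmg_hom f) (by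
      rw [aeval_hmg]
      rw [aeval_sum] at hf
      rw [← hf]
      refine Finset.sum_congr rfl fun m _ => ?_
      simp only [Option.elim_none, Option.elim_some, one_pow, one_mul])
    rw [aeval_hmg] at h1
    have h2 : u none ^ f.totalDegree * MvPolynomial.aeval (fun i => u (some i) / u none) f = 0 := by
      rw [← h1, aeval_sum, Finset.mul_sum]
      refine Finset.sum_congr rfl fun m hm => ?_
      have h3 : u none ^ f.totalDegree = u none ^ (f.totalDegree - ∑ i, m i) * u none ^ ∑ i, m i := by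
        rw [← pow_add, Nat.sub_add_cancel (deg_le hm)]
      have h4 : ∏ i, u (some i) ^ m i = u none ^ (∑ i, m i) * ∏ i, (u (some i) / u none) ^ m i := by
        rw [← Finset.prod_pow_eq_pow_sum, ← Finset.prod_mul_distrib]
        refine Finset.prod_congr rfl fun i _ => ?_
        rw [← mul_pow, mul_div_cancel₀ _ hu]
      rw [h3, h4]
      ring
    exact (mul_eq_zero.1 h2).resolve_left (pow_ne_zero _ hu)
  let e := Ideal.quotientKerAlgEquivOfSurjective hsurj
  let q : R →ₐ[K0] F := (Ideal.Quotient.liftₐ (RingHom.ker (MvPolynomial.aeval (R := K0) r))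
    (MvPolynomial.aeval (fun i => u (some i) / u none)) (fun f hf => hker f hf)).comp e.symm.toAlgHom
  refine ⟨q, fun i => ?_⟩
  have h1 : e.symm (r i) = Ideal.Quotient.mk _ (MvPolynomial.X i) := by
    rw [AlgEquiv.symm_apply_eq]
    change r i = MvPolynomial.aeval r (MvPolynomial.X i)
    rw [MvPolynomial.aeval_X]
  have h2 : q (r i) = u (some i) / u none := by
    have h3 : q (r i) = (Ideal.Quotient.liftₐ (RingHom.ker (MvPolynomial.aeval (R := K0) r))
        (MvPolynomial.aeval (fun i => u (some i) / u none)) (fun f hf => hker f hf)) (e.symm (r i)) := rfl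
    rw [h3, h1]
    have h4 : (Ideal.Quotient.liftₐ (RingHom.ker (MvPolynomial.aeval (R := K0) r))
        (MvPolynomial.aeval (fun i => u (some i) / u none)) (fun f hf => hker f hf)) (Ideal.Quotient.mk _ (MvPolynomial.X i)) =
        MvPolynomial.aeval (fun i => u (some i) / u none) (MvPolynomial.X i) := rfl
    rw [h4, MvPolynomial.aeval_X]
  rw [h2, mul_div_cancel₀ _ hu]

/-- proportional to the vector of a tuple of points -/
private def Ok (r : Fin d → R) (P : Vc (Ix k d) F) (Q : Fin k → R →ₐ[K0] F) : Prop :=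
  ∃ c : Fin k → F, (∀ j, c j ≠ 0) ∧ P = scl (wo k d) c (vc r Q)

private theorem Ok.none_ne {P : Vc (Ix k d) F} {Q : Fin k → R →ₐ[K0] F} (h : Ok r P Q) (j : Fin k) : P j none ≠ 0 := by
  obtain ⟨c, hc, rfl⟩ := h
  have : scl (wo k d) c (vc r Q) j none = c j := by simp [scl, vc]
  rw [this]
  exact hc j

private theorem Ok.eq {P : Vc (Ix k d) F} {Q : Fin k → R →ₐ[K0] F} (h : Ok r P Q) (j : Fin k) (i : Fin d) :
    P j (some i) = P j none * Q j (r i) := by
  obtain ⟨c, hc, rfl⟩ := h
  simp [scl, vc]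

private theorem Ok.of {P : Vc (Ix k d) F} {Q : Fin k → R →ₐ[K0] F} (h0 : ∀ j, P j none ≠ 0)
    (h : ∀ j i, P j (some i) = P j none * Q j (r i)) : Ok r P Q := by
  refine ⟨fun j => P j none, h0, ?_⟩
  funext j o
  cases o with
  | none => simp [scl, vc]
  | some i => simp [scl, vc, h j i]

private theorem Ok.unique (hr : Algebra.adjoin K0 (Set.range r) = ⊤) {P : Vc (Ix k d) F} {Q Q' : Fin k → R →ₐ[K0] F}
    (h : Ok r P Q) (h' : Ok r P Q') : Q = Q' := by
  funext j
  refine AlgHom.ext_of_adjoin_eq_top hr ?_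
  rintro _ ⟨i, rfl⟩
  have h1 := h.eq j i
  rw [h'.eq j i] at h1
  exact (mul_left_cancel₀ (h.none_ne j) h1).symm

private theorem ok_of_onV (hr : Algebra.adjoin K0 (Set.range r) = ⊤) {P : Vc (Ix k d) F} (hP : OnV (K0 := K0) (F := F) r P)
    (h0 : ∀ j, P j none ≠ 0) : ∃ Q : Fin k → R →ₐ[K0] F, Ok r P Q := by
  have h1 : ∀ j, ∃ q : R →ₐ[K0] F, ∀ i, P j (some i) = P j none * q (r i) := fun j => exists_hom hr (h0 j) (hP j).2
  choose Q hQ using h1
  exact ⟨Q, Ok.of h0 hQ⟩

open Classical in
/-- the tuple of points of a vector -/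
private noncomputable def aff (K0 : Type) {F R : Type} [Field K0] [Field F] [Algebra K0 F] [CommRing R] [Algebra K0 R] {d k : ℕ}
    (r : Fin d → R) (P : Vc (Ix k d) F) : Option (Fin k → R →ₐ[K0] F) :=
  if h : ∃ Q : Fin k → R →ₐ[K0] F, Ok r P Q then some h.choose else none

private theorem aff_some (hr : Algebra.adjoin K0 (Set.range r) = ⊤) {P : Vc (Ix k d) F} {Q : Fin k → R →ₐ[K0] F} (h : Ok r P Q) :
    aff K0 r P = some Q := by
  have h1 : ∃ Q : Fin k → R →ₐ[K0] F, Ok r P Q := ⟨Q, h⟩
  unfold aff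
  rw [dif_pos h1, h1.choose_spec.unique hr h]

private theorem ok_of_aff {P : Vc (Ix k d) F} {Q : Fin k → R →ₐ[K0] F} (h : aff K0 r P = some Q) : Ok r P Q := by
  unfold aff at h
  by_cases h1 : ∃ Q : Fin k → R →ₐ[K0] F, Ok r P Q
  · rw [dif_pos h1, Option.some_inj] at h
    rw [← h]
    exact h1.choose_spec
  · rw [dif_neg h1] at h
    exact absurd h (by simp)

private theorem aff_none {P : Vc (Ix k d) F} (h : ∃ j, P j none = 0) : aff K0 r P = none := by
  cases h1 : aff K0 r P with
  | none => rfl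
  | some Q =>
    obtain ⟨j, hj⟩ := h
    exact absurd hj ((ok_of_aff h1).none_ne j)

end hom

section main

variable {K0 K R : Type} [Field K0] [Field K] [Algebra K0 K] [CommRing R] [Algebra K0 R] {d k : ℕ} {r : Fin d → R}

private theorem mem_V' (hr : Algebra.adjoin K0 (Set.range r) = ⊤) (π : Place K (Om K)) (y : R →ₐ[K0] Om K)
    (h : ∀ i, y (r i) ∈ π.V) (x : R) : y x ∈ π.V := by
  have hx : x ∈ Algebra.adjoin K0 (Set.range r) := by rw [hr]; exact Algebra.mem_top
  induction hx using Algebra.adjoin_induction with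
  | mem x hx => obtain ⟨i, rfl⟩ := hx; exact h i
  | algebraMap c =>
    rw [AlgHom.commutes, IsScalarTower.algebraMap_apply K0 K (Om K)]
    exact (π.const _).choose
  | add x z _ _ hx hz => rw [map_add]; exact add_mem hx hz
  | mul x z _ _ hx hz => rw [map_mul]; exact mul_mem hx hz

private theorem red_hom (π : Place K (Om K)) (y : R →ₐ[K0] Om K) (h : ∀ x, y x ∈ π.V) :
    ∃ q : R →ₐ[K0] K, ∀ x, Rd π.V π.φ (y x) (q x) := by
  have hg : ∀ x, ∃ a, Rd π.V π.φ (y x) a := fun x => ⟨_, Rd.of_mem (h x)⟩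
  choose g hR using hg
  refine ⟨{ toFun := g, map_one' := ?_, map_mul' := ?_, map_zero' := ?_, map_add' := ?_, commutes' := ?_ }, hR⟩
  · have h1 := hR 1
    rw [map_one] at h1
    exact h1.unique Rd.one
  · intro a b
    have h1 := hR (a * b)
    rw [map_mul] at h1
    exact h1.unique ((hR a).mul (hR b))
  · have h1 := hR 0
    rw [map_zero] at h1
    exact h1.unique Rd.zero
  · intro a b
    have h1 := hR (a + b)
    rw [map_add] at h1
    exact h1.unique ((hR a).add (hR b))
  · intro c
    have h1 := hR (algebraMap K0 R c)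
    rw [AlgHom.commutes, IsScalarTower.algebraMap_apply K0 K (Om K)] at h1
    exact h1.unique (π.const _)

private theorem pair_lemma (hr : Algebra.adjoin K0 (Set.range r) = ⊤) (π : Place K (Om K)) {P : Vc (Ix k d) (Om K)} {p : Vc (Ix k d) K}
    (hP : OnV (K0 := K0) (F := Om K) r P) (h : Spc (wo k d) π.V π.φ P p) :
    (aff K0 r P = none ∧ aff K0 r p = none) ∨
    (∃ (Q : Fin k → R →ₐ[K0] Om K) (q : Fin k → R →ₐ[K0] K), aff K0 r P = some Q ∧ aff K0 r p = some q ∧
      ∀ j x, Rd π.V π.φ (Q j x) (q j x)) ∨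
    (∃ Q : Fin k → R →ₐ[K0] Om K, aff K0 r P = some Q ∧ aff K0 r p = none ∧ ∃ j, ∃ x, Q j x ∉ π.V) := by
  have hloc := π.isLocal
  by_cases h1 : ∀ j, P j none ≠ 0
  · right
    obtain ⟨Q, hQ⟩ := ok_of_onV hr hP h1
    -- the relations
    have hrel : ∀ j, ∃ a : Om K, Rd π.V π.φ a (p j none) ∧ ∀ i, Rd π.V π.φ (a * Q j (r i)) (p j (some i)) := by
      intro j
      obtain ⟨_, e, _, hR⟩ := h j
      refine ⟨e * P j none, by have := hR none; rwa [pow_one] at this, fun i => ?_⟩
      have h2 := hR (some i)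
      rw [pow_one, hQ.eq j i, ← mul_assoc] at h2
      exact h2
    by_cases h2 : ∀ j, p j none ≠ 0
    · left
      have hval : ∀ j i, Rd π.V π.φ (Q j (r i)) (p j (some i) / p j none) := by
        intro j i
        obtain ⟨a, ha, hai⟩ := hrel j
        have h3 := (hai i).div ha (h2 j)
        rwa [mul_div_cancel_left₀ _ (ha.ne_zero (h2 j))] at h3
      have hq : ∀ j, ∃ q : R →ₐ[K0] K, ∀ x, Rd π.V π.φ (Q j x) (q x) := fun j =>
        red_hom π (Q j) (mem_V' hr π (Q j) fun i => (hval j i).mem)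
      choose q hq using hq
      refine ⟨Q, q, aff_some hr hQ, aff_some hr (Ok.of h2 fun j i => ?_), hq⟩
      rw [(hq j (r i)).unique (hval j i), mul_div_cancel₀ _ (h2 j)]
    · right
      push Not at h2
      obtain ⟨j, hj⟩ := h2
      refine ⟨Q, aff_some hr hQ, aff_none ⟨j, hj⟩, j, ?_⟩
      by_contra hcon
      push Not at hcon
      obtain ⟨a, ha, hai⟩ := hrel j
      rw [hj] at ha
      apply (h j).1
      funext o
      cases o with
      | none => exact hj
      | some i =>
        have h3 := ha.mul (Rd.of_mem (φ := π.φ) (hcon (r i)))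
        rw [zero_mul] at h3
        exact (hai i).unique h3
  · left
    push Not at h1
    obtain ⟨j, hj⟩ := h1
    refine ⟨aff_none ⟨j, hj⟩, aff_none ⟨j, ?_⟩⟩
    obtain ⟨_, e, _, hR⟩ := h j
    have h2 := hR none
    rw [hj, mul_zero] at h2
    exact h2.unique Rd.zero

private noncomputable def ac' (σ : Om K ≃ₐ[RatFunc K] Om K) (y : R →ₐ[K0] Om K) : R →ₐ[K0] Om K := (pts K0 K R).act σ y

private theorem ac'_apply (σ : Om K ≃ₐ[RatFunc K] Om K) (y : R →ₐ[K0] Om K) (x : R) : ac' σ y x = σ (y x) := rfl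

private theorem ok_mp (σ : Om K ≃ₐ[RatFunc K] Om K) {P : Vc (Ix k d) (Om K)} {Q : Fin k → R →ₐ[K0] Om K} (h : Ok r P Q) :
    Ok r (mp σ P) (fun j => ac' σ (Q j)) := by
  refine Ok.of (fun j => ?_) fun j i => ?_
  · change σ (P j none) ≠ 0
    rw [Ne, map_eq_zero]
    exact h.none_ne j
  · change σ (P j (some i)) = σ (P j none) * σ (Q j (r i))
    rw [h.eq j i, map_mul]

private theorem aff_mp (hr : Algebra.adjoin K0 (Set.range r) = ⊤) (σ : Om K ≃ₐ[RatFunc K] Om K) (P : Vc (Ix k d) (Om K)) :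
    aff K0 r (mp σ P) = (aff K0 r P).map (fun Q j => ac' σ (Q j)) := by
  cases h1 : aff K0 r P with
  | some Q => exact aff_some hr (ok_mp σ (ok_of_aff h1))
  | none =>
    cases h2 : aff K0 r (mp σ P) with
    | none => rfl
    | some Q =>
      exfalso
      have h3 := ok_mp σ.symm (ok_of_aff h2)
      have h4 : mp σ.symm (mp σ P) = P := by
        funext j i
        exact σ.symm_apply_apply _
      rw [h4] at h3
      rw [aff_some hr h3] at h1
      exact absurd h1 (by simp)

private theorem gal_aff (hr : Algebra.adjoin K0 (Set.range r) = ⊤) {S : Multiset (Vc (Ix k d) (Om K))} (hS : Gst S) :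
    GalStable (D := pts K0 K R) (S.filterMap (aff K0 r)) := by
  intro σ
  change (S.filterMap (aff K0 r)).map (fun Q j => ac' σ (Q j)) = S.filterMap (aff K0 r)
  rw [Multiset.map_filterMap]
  conv_rhs => rw [← hS σ, Multiset.filterMap_map]
  congr 1
  funext P
  exact (aff_mp hr σ P).symm

private theorem fibA (hr : Algebra.adjoin K0 (Set.range r) = ⊤) (π : Place K (Om K)) {S : Multiset (Vc (Ix k d) (Om K))}
    {c : Multiset (Vc (Ix k d) K)} (hS : ∀ P ∈ S, OnV (K0 := K0) (F := Om K) r P) (h : Multiset.Rel (Spc (wo k d) π.V π.φ) S c) :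
    ∃ S1 S2 : Multiset (Fin k → R →ₐ[K0] Om K), S.filterMap (aff K0 r) = S1 + S2 ∧
      Multiset.Rel (fun (Q : Fin k → R →ₐ[K0] Om K) (q : Fin k → R →ₐ[K0] K) => ∀ j x, Rd π.V π.φ (Q j x) (q j x)) S1
        (c.filterMap (aff K0 r)) ∧ ∀ Q ∈ S2, ∃ j, ∃ x, Q j x ∉ π.V := by
  induction h with
  | zero => exact ⟨0, 0, rfl, Multiset.Rel.zero, fun P hP => absurd hP (Multiset.notMem_zero _)⟩
  | @cons P p S c hPp _ ih =>
    obtain ⟨S1, S2, h12, h1, h2⟩ := ih fun P hP => hS P (Multiset.mem_cons_of_mem hP)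
    rcases pair_lemma hr π (hS P (Multiset.mem_cons_self P S)) hPp with ⟨ha, hb⟩ | ⟨Q, q, ha, hb, hR⟩ | ⟨Q, ha, hb, j, x, hx⟩
    · rw [Multiset.filterMap_cons_none _ _ ha, Multiset.filterMap_cons_none _ _ hb]
      exact ⟨S1, S2, h12, h1, h2⟩
    · rw [Multiset.filterMap_cons_some _ _ _ ha, Multiset.filterMap_cons_some _ _ _ hb]
      refine ⟨Q ::ₘ S1, S2, ?_, Multiset.Rel.cons hR h1, h2⟩
      rw [h12]
      exact (Multiset.cons_add _ _ _).symm
    · rw [Multiset.filterMap_cons_some _ _ _ ha, Multiset.filterMap_cons_none _ _ hb]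
      refine ⟨S1, Q ::ₘ S2, ?_, h1, fun P' hP' => ?_⟩
      · rw [h12]
        exact (Multiset.add_cons _ _ _).symm
      · rcases Multiset.mem_cons.1 hP' with rfl | hP'
        · exact ⟨j, x, hx⟩
        · exact h2 P' hP'

private theorem fib' (hr : Algebra.adjoin K0 (Set.range r) = ⊤) (π : Place K (Om K)) {S : Multiset (Vc (Ix k d) (Om K))}
    {c : Multiset (Vc (Ix k d) K)} (hS : ∀ P ∈ S, OnV (K0 := K0) (F := Om K) r P) (h : Multiset.Rel (Spc (wo k d) π.V π.φ) S c) :
    Fibre (D := pts K0 K R) π (S.filterMap (aff K0 r)) (c.filterMap (aff K0 r)) := by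
  obtain ⟨S1, S2, h12, h1, h2⟩ := fibA hr π hS h
  exact ⟨S1, S2, h12, h1, h2⟩

/-- the map on one vector -/
private noncomputable def rh (K0 : Type) {K R : Type} [Field K0] [Field K] [Algebra K0 K] [CommRing R] [Algebra K0 R] {d k : ℕ}
    (r : Fin d → R) (P : Vc (Ix k d) K) : ℤ →+ Cyc (pts K0 K R) k :=
  match aff K0 r P with
  | none => 0
  | some Q => Finsupp.singleAddHom Q

private theorem rh_some {P : Vc (Ix k d) K} {Q : Fin k → R →ₐ[K0] K} (h : aff K0 r P = some Q) :
    rh K0 r P 1 = Finsupp.single Q 1 := by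
  unfold rh
  rw [h]
  rfl

private theorem rh_none {P : Vc (Ix k d) K} (h : aff K0 r P = none) : rh K0 r P 1 = 0 := by
  unfold rh
  rw [h]
  rfl

private noncomputable def rho (K0 : Type) {K R : Type} [Field K0] [Field K] [Algebra K0 K] [CommRing R] [Algebra K0 R] {d k : ℕ}
    (r : Fin d → R) : Cy (Ix k d) K →+ Cyc (pts K0 K R) k :=
  Finsupp.liftAddHom (rh K0 r)

private theorem rho_single (P : Vc (Ix k d) K) : rho K0 r (Finsupp.single P 1) = rh K0 r P 1 := by
  unfold rho
  rw [Finsupp.liftAddHom_apply_single]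

private noncomputable def cyA' (c : Multiset (Fin k → R →ₐ[K0] K)) : (Fin k → R →ₐ[K0] K) →₀ ℤ :=
  (c.map (fun P => (Finsupp.single P 1 : (Fin k → R →ₐ[K0] K) →₀ ℤ))).sum

private noncomputable def rhoA (K0 : Type) {K R : Type} [Field K0] [Field K] [Algebra K0 K] [CommRing R] [Algebra K0 R] {d k : ℕ}
    (r : Fin d → R) : Cy (Ix k d) K →+ ((Fin k → R →ₐ[K0] K) →₀ ℤ) := rho K0 r

private theorem rho_cyA (c : Multiset (Vc (Ix k d) K)) :
    rhoA K0 r (cy c) = cyA' (c.filterMap (aff K0 r)) := by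
  induction c using Multiset.induction_on with
  | empty =>
    unfold cy cyA'
    rw [Multiset.map_zero, Multiset.sum_zero, map_zero, Multiset.filterMap_zero, Multiset.map_zero, Multiset.sum_zero]
  | cons P c ih =>
    have e : cy (P ::ₘ c) = Finsupp.single P 1 + cy c := by
      unfold cy
      rw [Multiset.map_cons, Multiset.sum_cons]
    have e2 : rhoA K0 r (Finsupp.single P 1) = rh K0 r P 1 := rho_single P
    rw [e, map_add, ih, e2]
    cases h : aff K0 r P with
    | none =>
      have e3 : (rh K0 r P 1 : (Fin k → R →ₐ[K0] K) →₀ ℤ) = 0 := rh_none h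
      rw [Multiset.filterMap_cons_none _ _ h]
      exact (congrArg (fun z => z + cyA' (c.filterMap (aff K0 r))) e3).trans (zero_add _)
    | some Q =>
      have e3 : (rh K0 r P 1 : (Fin k → R →ₐ[K0] K) →₀ ℤ) = Finsupp.single Q 1 := rh_some h
      rw [Multiset.filterMap_cons_some _ _ _ h]
      have e4 : cyA' (Q ::ₘ c.filterMap (aff K0 r)) = Finsupp.single Q 1 + cyA' (c.filterMap (aff K0 r)) := by
        unfold cyA'
        rw [Multiset.map_cons, Multiset.sum_cons]
      rw [e4]
      exact congrArg (fun z => z + cyA' (c.filterMap (aff K0 r))) e3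

private theorem rho_cy (c : Multiset (Vc (Ix k d) K)) :
    rho K0 r (cy c) = cyc (D := pts K0 K R) (c.filterMap (aff K0 r)) := rho_cyA c

end main

theorem spC {K0 K R : Type} [Field K0] [Field K] [IsAlgClosed K] [Algebra K0 K] [CommRing R] [Algebra K0 R] {d k : ℕ} {r : Fin d → R}
    (hr : Algebra.adjoin K0 (Set.range r) = ⊤) :
    ∃ ρ : Cy (Ix k d) K →+ Cyc (pts K0 K R) k,
      (∀ (P : Fin k → R →ₐ[K0] K) (c : Fin k → K), (∀ j, c j ≠ 0) →
        ρ (Finsupp.single (scl (wo k d) c (vc (K0 := K0) r P)) 1) = Finsupp.single P 1) ∧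
      (∀ P : Vc (Ix k d) K, (∃ j, P j none = 0) → ρ (Finsupp.single P 1) = 0) ∧
      ∀ x ∈ RatG (wo k d) (OnV (K0 := K0) (F := Om K) r), ρ x ∈ RatEq (pts K0 K R) k := by
  refine ⟨rho K0 r, fun P c hc => ?_, fun P hP => ?_, fun x hx => ?_⟩
  · rw [rho_single]
    exact rh_some (aff_some hr ⟨c, hc, rfl⟩)
  · rw [rho_single]
    exact rh_none (aff_none hP)
  · unfold RatG at hx
    induction hx using AddSubgroup.closure_induction with
    | zero => rw [map_zero]; exact AddSubgroup.zero_mem _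
    | add x y _ _ hx hy => rw [map_add]; exact AddSubgroup.add_mem _ hx hy
    | neg x _ hx => rw [map_neg]; exact AddSubgroup.neg_mem _ hx
    | mem z hz =>
      obtain ⟨S, π, π', c, c', hOn, hG, h, h', rfl⟩ := hz
      rw [map_sub, rho_cy, rho_cy]
      exact AddSubgroup.subset_closure ⟨S.filterMap (aff K0 r), π, π', _, _, gal_aff hr hG, fib' hr π hOn h, fib' hr π' hOn h', rfl⟩

end H19.DM
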