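import Pool.Agent.H19.DM.SpA

/-! # DM.SpE : the projective closure is closed (about 120 lines)

The fields of `SZ.Clo`: `nz1`: clear.  If `P` satisfies the equations, and `e • P j` (all weights one: `scl`/`Spc` with `c ^ 1`) reduces to `p j ≠ 0` (at `E.V, E.ψ`; at a place `π`; at `V0, φ0`), then for `h` homogeneous of degree `N`: `aeval (e • P j) h = e^N * aeval (P j) h = 0` (`MvPolynomial.IsHomogeneous.eval₂`/
`IsHomogeneous` and `aeval` of a scaled vector) and it reduces to `aeval (p j) h`: coefficients are in `K0`, which are integral with the right reduction: `E.ext` (for `a ∈ V0`, the image in `K1` of `c ∈ K0` is the image of `algebraMap K0 K c ∈ K`, which is in `V0` by `hφ`), `π.const`, `hφ`; sums and products of `Rd` (`Rd.add`, `Rd.mul`, `Rd.pow`; induction over `h`: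
the statement `Rd V φ (aeval x h) (aeval y h)` for all polynomials `h` if `Rd V φ (x o) (y o)` for all `o` and for constants).  `Rd.unique` with `Rd.zero`.  In `spc` and `cst` the vector `p` (over `K`) is mapped to `Om K` (`mp (algebraMap K (Om K))`): injective.  `prp`: scaling (`e^N`). -/

namespace H19.DM

open H68.BB H77.AF SZ

private theorem hom_scale {K0 F σ : Type} [Fintype σ] [Field K0] [Field F] [Algebra K0 F] {N : ℕ} {h : MvPolynomial σ K0}
    (hh : h.IsHomogeneous N) (e : F) (x : σ → F) :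
    MvPolynomial.aeval (fun o => e * x o) h = e ^ N * MvPolynomial.aeval x h := by
  rw [MvPolynomial.aeval_def, MvPolynomial.aeval_def, MvPolynomial.eval₂_eq', MvPolynomial.eval₂_eq', Finset.mul_sum]
  refine Finset.sum_congr rfl fun m hm => ?_
  have h1 : ∑ i, m i = N := by
    have h2 := hh (MvPolynomial.mem_support_iff.1 hm)
    rw [← h2, Finsupp.weight_apply, Finsupp.sum_fintype _ _ (fun i => by simp)]
    simp
  have h3 : ∏ i, (e * x i) ^ m i = e ^ N * ∏ i, x i ^ m i := by
    rw [← h1, ← Finset.prod_pow_eq_pow_sum, ← Finset.prod_mul_distrib]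
    exact Finset.prod_congr rfl fun i _ => mul_pow _ _ _
  rw [h3]
  ring

private theorem rd_aeval {K0 F L σ : Type} [Field K0] [Field F] [Field L] [Algebra K0 F] [Algebra K0 L] {V : ValuationSubring F}
    {φ : V →+* L} (hc : ∀ c : K0, Rd V φ (algebraMap K0 F c) (algebraMap K0 L c)) {x : σ → F} {y : σ → L}
    (hxy : ∀ o, Rd V φ (x o) (y o)) (h : MvPolynomial σ K0) : Rd V φ (MvPolynomial.aeval x h) (MvPolynomial.aeval y h) := by
  induction h using MvPolynomial.induction_on with
  | C a => rw [MvPolynomial.aeval_C, MvPolynomial.aeval_C]; exact hc a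
  | add p q hp hq => rw [map_add, map_add]; exact hp.add hq
  | mul_X p i hp => rw [map_mul, map_mul, MvPolynomial.aeval_X, MvPolynomial.aeval_X]; exact hp.mul (hxy i)

private theorem onV_spc {K0 F L R : Type} [Field K0] [Field F] [Field L] [Algebra K0 F] [Algebra K0 L] [CommRing R] [Algebra K0 R]
    {V : ValuationSubring F} {φ : V →+* L} (hc : ∀ c : K0, Rd V φ (algebraMap K0 F c) (algebraMap K0 L c)) {d k : ℕ}
    {r : Fin d → R} {P : Vc (Ix k d) F} {p : Vc (Ix k d) L} (hP : OnV (K0 := K0) (F := F) r P) (h : Spc (wo k d) V φ P p) :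
    OnV (K0 := K0) (F := L) r p := by
  intro j
  obtain ⟨h1, c, _, h3⟩ := h j
  refine ⟨h1, fun N f hf h0 => ?_⟩
  have h4 := rd_aeval hc h3 f
  have h5 : MvPolynomial.aeval (fun i => c ^ wo k d j i * P j i) f = 0 := by
    have h6 := hom_scale hf c (P j)
    rw [(hP j).2 N f hf h0, mul_zero] at h6
    rw [← h6]
    congr 2
    funext i
    rw [pow_one]
  rw [h5] at h4
  exact h4.unique Rd.zero

private theorem onV_mp {K0 F L R : Type} [Field K0] [Field F] [Field L] [Algebra K0 F] [Algebra K0 L] [Algebra F L]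
    [IsScalarTower K0 F L] [CommRing R] [Algebra K0 R] {d k : ℕ}
    {r : Fin d → R} {p : Vc (Ix k d) F} (hp : OnV (K0 := K0) (F := F) r p) :
    OnV (K0 := K0) (F := L) r (mp (algebraMap F L) p) := by
  intro j
  refine ⟨fun h => (hp j).1 ?_, fun N f hf h0 => ?_⟩
  · funext i
    have h1 : algebraMap F L (p j i) = 0 := congrFun h i
    exact (map_eq_zero _).1 h1
  · have h1 := (hp j).2 N f hf h0
    have h2 : mp (algebraMap F L) p j = (algebraMap F L) ∘ (p j) := rfl
    rw [h2, MvPolynomial.aeval_algebraMap_apply, h1, map_zero]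

private theorem onV_prp {K0 F R : Type} [Field K0] [Field F] [Algebra K0 F] [CommRing R] [Algebra K0 R] {d k : ℕ}
    {r : Fin d → R} {P P' : Vc (Ix k d) F} (hp : OnV (K0 := K0) (F := F) r P) (h : Prp (wo k d) P' P) :
    OnV (K0 := K0) (F := F) r P' := by
  have hnz := h.nz (fun j => (hp j).1)
  obtain ⟨c, _, rfl⟩ := h
  intro j
  refine ⟨hnz j, fun N f hf h0 => ?_⟩
  have h6 := hom_scale hf (c j) (P j)
  rw [(hp j).2 N f hf h0, mul_zero] at h6
  rw [← h6]
  congr 2
  funext i
  change c j ^ wo k d j i * P j i = _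
  rw [pow_one]

theorem spE {K0 K K1 R : Type} [Field K0] [Field K] [Field K1] [IsAlgClosed K] [IsAlgClosed K1] [Algebra K0 K] [Algebra K K1] [Algebra K0 K1]
    [IsScalarTower K0 K K1] [CommRing R] [Algebra K0 R] {V0 : ValuationSubring K1} {φ0 : V0 →+* K} [IsLocalHom φ0]
    (hφ : ∀ c : K, Rd V0 φ0 (algebraMap K K1 c) c) {d k : ℕ} (r : Fin d → R) :
    Clo (wo k d) V0 φ0 (OnV (K0 := K0) (F := Om K1) r) (OnV (K0 := K0) (F := Om K) r) where
  nz1 := fun P hP j => (hP j).1
  ext := fun E P p hP h => by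
    refine onV_spc (fun c => ?_) hP h
    obtain ⟨hm, hv⟩ := hφ (algebraMap K0 K c)
    have h1 := E.ext ⟨_, hm⟩
    rw [hv] at h1
    change Rd E.V E.ψ (algebraMap K1 (Om K1) (algebraMap K K1 (algebraMap K0 K c))) _ at h1
    rw [← IsScalarTower.algebraMap_apply K0 K K1, ← IsScalarTower.algebraMap_apply K0 K1 (Om K1),
      ← IsScalarTower.algebraMap_apply K0 K (Om K)] at h1
    exact h1
  spc := fun π P p hP h => by
    refine onV_mp (onV_spc (fun c => ?_) hP h)
    rw [IsScalarTower.algebraMap_apply K0 K (Om K)]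
    exact π.const _
  prp := fun P P' hP h => onV_prp hP h
  cst := fun π P p q hP h h' => by
    refine onV_mp (onV_spc (fun c => ?_) (onV_spc (fun c => ?_) hP h) h')
    · rw [IsScalarTower.algebraMap_apply K0 K K1]
      exact hφ _
    · rw [IsScalarTower.algebraMap_apply K0 K1 (Om K1)]
      exact π.const _

end H19.DM
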