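import Pool.Agent.H19.DM.SpB
import Pool.Agent.H19.DM.SpC
import Pool.Agent.H19.DM.SpE

/-! # DM.SpD : torsion alternating products specialise -/

namespace H19.DM

open H68.BB H77.AF SZ

/-- the alternating product of points of `R` -/
noncomputable def altC {K0 K R : Type} [Field K0] [Field K] [Algebra K0 K] [CommRing R] [Algebra K0 R] {k : ℕ}
    (P : Fin k → R →ₐ[K0] K) : Cyc (pts K0 K R) k :=
  ∑ σ : Equiv.Perm (Fin k), (Equiv.Perm.sign σ : ℤ) • (Finsupp.single (fun i => P (σ i)) 1 : Cyc (pts K0 K R) k)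

/-- a specialisation map on vectors -/
private theorem sp_exists {K K1 : Type} [Field K] [Field K1] [IsAlgClosed K1] (V0 : ValuationSubring K1) (φ0 : V0 →+* K)
    (k d : ℕ) : ∃ sp : Vc (Ix k d) K1 → Vc (Ix k d) K, (∀ P, NZ P → Spc (wo k d) V0 φ0 P (sp P)) ∧
      (∀ P, ¬ NZ P → sp P = 0) ∧
      ∀ (P : Vc (Ix k d) K1) (p : Vc (Ix k d) K), (∀ j, P j none = 1) → (∀ j o, Rd V0 φ0 (P j o) (p j o)) → sp P = p := by
  classical
  have key : ∀ P : Vc (Ix k d) K1, ∃ p : Vc (Ix k d) K, (NZ P → Spc (wo k d) V0 φ0 P p) ∧ (¬ NZ P → p = 0) ∧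
      ∀ p' : Vc (Ix k d) K, (∀ j, P j none = 1) → (∀ j o, Rd V0 φ0 (P j o) (p' j o)) → p = p' := by
    intro P
    by_cases h : ∃ p : Vc (Ix k d) K, (∀ j, P j none = 1) ∧ ∀ j o, Rd V0 φ0 (P j o) (p j o)
    · obtain ⟨p, h1, h2⟩ := h
      have hn : ∀ j, p j none = 1 := by
        intro j
        have h3 := h2 j none
        rw [h1 j] at h3
        exact h3.unique Rd.one
      have hnz : NZ p := by
        intro j hj
        have h3 := hn j
        rw [hj] at h3
        exact zero_ne_one h3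
      have hNZ : NZ P := by
        intro j hj
        have h3 := h1 j
        rw [hj] at h3
        exact zero_ne_one h3
      exact ⟨p, fun _ => Spc.of_rd hnz h2, fun h => absurd hNZ h, fun p' _ h3 =>
        funext fun j => funext fun o => (h2 j o).unique (h3 j o)⟩
    · by_cases hN : NZ P
      · obtain ⟨p, hp⟩ := spc_exists (w := wo k d) (fun _ _ => one_pos) V0 φ0 hN
        exact ⟨p, fun _ => hp, fun h => absurd hN h, fun p' h1 h2 => absurd ⟨p', h1, h2⟩ h⟩
      · exact ⟨0, fun h => absurd h hN, fun _ => rfl, fun p' h1 h2 => absurd ⟨p', h1, h2⟩ h⟩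
  choose sp h1 h2 h3 using key
  exact ⟨sp, h1, h2, fun P p hP hp => h3 P p hP hp⟩

private theorem gens_exists {K0 R : Type} [Field K0] [CommRing R] [Algebra K0 R] [Algebra.FiniteType K0 R] :
    ∃ (d : ℕ) (r : Fin d → R), Algebra.adjoin K0 (Set.range r) = ⊤ := by
  obtain ⟨S, hS⟩ := Algebra.FiniteType.out (R := K0) (A := R)
  refine ⟨S.card, fun i => (S.equivFin.symm i : R), ?_⟩
  rw [← hS]
  congr 1
  ext x
  constructor
  · rintro ⟨i, rfl⟩
    exact (S.equivFin.symm i).2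
  · intro hx
    exact ⟨S.equivFin ⟨x, hx⟩, by simp⟩

theorem spec {K0 K K1 R : Type} [Field K0] [Field K] [Field K1] [IsAlgClosed K] [IsAlgClosed K1] [CharZero K1] [Algebra K0 K]
    [Algebra K K1] [Algebra K0 K1] [IsScalarTower K0 K K1] [CommRing R] [Algebra K0 R] [Algebra.FiniteType K0 R]
    {V0 : ValuationSubring K1} {φ0 : V0 →+* K} [IsLocalHom φ0] (hφ : ∀ c : K, Rd V0 φ0 (algebraMap K K1 c) c) {k : ℕ}
    (P1 : Fin k → R →ₐ[K0] K1) (P : Fin k → R →ₐ[K0] K) (hP : ∀ i r, Rd V0 φ0 (P1 i r) (P i r))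
    (h : altC P1 ∈ tor (RatEq (pts K0 K1 R) k)) : altC P ∈ tor (RatEq (pts K0 K R) k) := by
  classical
  obtain ⟨d, r, hr⟩ := gens_exists (K0 := K0) (R := R)
  obtain ⟨n, hn, hz⟩ := mem_tor.1 h
  obtain ⟨z', hz', hbd⟩ := spB hr hz
  obtain ⟨sp, hs1, hs2, hs3⟩ := sp_exists V0 φ0 k d
  obtain ⟨ρ, hρ1, hρ2, hρ3⟩ := spC (K0 := K0) (K := K) (k := k) hr
  obtain ⟨N, hN⟩ := orb_exists (w := wo k d) fun _ _ => one_pos
  have hC := spE (K0 := K0) (K := K) (K1 := K1) hφ (k := k) r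
  have h1 := spz (fun _ _ => one_pos) hN hC hs1 hz'
  have h2 := hρ3 _ h1
  set F : Cy (Ix k d) K1 →+ Cy (Ix k d) K := Finsupp.mapDomain.addMonoidHom sp with hF
  have hFs : ∀ Q : Vc (Ix k d) K1, F (Finsupp.single Q 1) = Finsupp.single (sp Q) 1 := by
    intro Q
    change Finsupp.mapDomain sp (Finsupp.single Q 1) = _
    rw [Finsupp.mapDomain_single]
  -- cycles at infinity
  have hinf : ∀ z ∈ Bd k d K1, ρ (F z) = 0 := by
    intro z hz
    unfold Bd at hz
    induction hz using AddSubgroup.closure_induction with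
    | zero => rw [map_zero, map_zero]
    | add x y _ _ hx hy => rw [map_add, map_add, hx, hy, add_zero]
    | neg x _ hx => rw [map_neg, map_neg, hx, neg_zero]
    | mem z hz =>
      obtain ⟨Q, ⟨j, hj⟩, rfl⟩ := hz
      rw [hFs]
      apply hρ2
      by_cases hQ : NZ Q
      · obtain ⟨_, c, hc, h5⟩ := hs1 Q hQ j
        refine ⟨j, ?_⟩
        have h6 := h5 none
        rw [hj, mul_zero] at h6
        exact h6.unique Rd.zero
      · refine ⟨j, ?_⟩
        rw [hs2 Q hQ]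
        rfl
  -- the alternating product
  have hv : ∀ σ : Equiv.Perm (Fin k), sp (vc (K0 := K0) (F := K1) r (fun i => P1 (σ i))) =
      vc (K0 := K0) (F := K) r (fun i => P (σ i)) := by
    intro σ
    refine hs3 _ _ (fun j => rfl) fun j o => ?_
    cases o with
    | none => exact Rd.one
    | some i => exact hP (σ j) (r i)
  have hρv : ∀ Q : Fin k → R →ₐ[K0] K, ρ (Finsupp.single (vc (K0 := K0) (F := K) r Q) 1) = Finsupp.single Q 1 := by
    intro Q
    have h3 := hρ1 Q (fun _ => 1) (fun _ => one_ne_zero)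
    have h4 : scl (wo k d) (fun _ => (1 : K)) (vc (K0 := K0) r Q) = vc (K0 := K0) (F := K) r Q := by
      funext j o
      simp only [scl, one_pow, one_mul]
    rw [h4] at h3
    exact h3
  obtain ⟨Vm, hVm⟩ : ∃ Vm : Cyc (pts K0 K1 R) k →+ Cy (Ix k d) K1, ∀ z, Vm z = Finsupp.mapDomain (vc (K0 := K0) (F := K1) r) z :=
    ⟨Finsupp.mapDomain.addMonoidHom (vc (K0 := K0) (F := K1) r), fun z => rfl⟩
  have hVs : ∀ Q : Fin k → R →ₐ[K0] K1, Vm (Finsupp.single Q 1 : Cyc (pts K0 K1 R) k) =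
      Finsupp.single (vc (K0 := K0) (F := K1) r Q) 1 := fun Q => by
    rw [hVm]
    exact Finsupp.mapDomain_single
  have hG : ρ (F (Vm (altC P1))) = altC P := by
    unfold altC
    rw [map_sum, map_sum, map_sum]
    refine Finset.sum_congr rfl fun σ _ => ?_
    rw [map_zsmul Vm, map_zsmul F, map_zsmul ρ, hVs, hFs, hv, hρv]
    rfl
  have h7 : ρ (N • Finsupp.mapDomain sp z') = (N * n) • altC P := by
    have e3 : Finsupp.mapDomain sp z' = F z' := rfl
    have e4 : z' = (z' - Vm (n • altC P1)) + Vm (n • altC P1) := by abel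
    rw [← hVm] at hbd
    rw [e3, e4, map_nsmul, map_add, map_add, hinf _ hbd, zero_add, map_nsmul, map_nsmul, map_nsmul, hG, smul_smul]
  rw [h7] at h2
  exact mem_tor.2 ⟨N * n, Nat.mul_pos hN.1 hn, h2⟩

end H19.DM
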