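import Pool.Agent.H19.DM.GDef

/-! # DM.SqT : the polynomial of `T` is squarefree, the coordinate ring is a domain (MATHLIB, about 120 lines)

`k` a field of characteristic zero, `β ≠ 0`, `γ² ≠ β²`: `h = X^(2M) - 2 γ X^M + β²` is separable: `h' = 2 M X^(M-1) (X^M - γ)`; a common root `x` of `h`, `h'` in an algebraic closure: `x = 0` gives `β = 0`; `x^M = γ` gives `γ² - 2 γ² + β² = 0`.  (Or a Bezout identity: with `Y = X^M`: `(Y - γ)² - (γ² - β²) = h`, so
`h - (Y - γ) * (Y - γ) = -(γ² - β²)`: `h` and `Y - γ` are coprime, `h` and `X` are coprime (`h(0) = β² ≠ 0`), so `h` and `h'` are coprime: `Polynomial.Separable`.)  `Separable.squarefree`.  (`sq_sep` in `Pool/Agent/H19/EM/Sq.lean` (private, copy it) is the separability for `α = -2 γ`, `β := be²`; `not_sq` there is very close to what is needed for `dom_T`.)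
`dom_T`: `H19.VG.dc_dom`: `r² = gT * s²` in `B[X]` with `s ≠ 0`: map to `k[X]`, `k = FractionRing B` (injective): `gT` has positive degree `2M` and is squarefree: a prime factor `p` of `gT` (`exists_irreducible_factor..`; `gT` is not a unit) has multiplicity one in `gT`, so its multiplicity (`emultiplicity`/`multiplicity`) in `gT s²` is odd and in
`r²` even (or: WLOG descend: `p ∣ r`, `p² ∣ gT s²`, so `p ∣ s²`, `p ∣ s`: infinite descent on the degree of `s`; or `isCoprime` and `Squarefree` of `gT`: dividing `r, s` by their gcd, `r² = gT s²` with `r, s` coprime gives `s` unit, `gT` a square times a unit: not squarefree as it is not a unit). -/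

namespace H19.DM

open Polynomial

private theorem sq_sep {F : Type} [Field F] [CharZero F] {α β : F} {m : ℕ} (hm : 0 < m) (hβ : β ≠ 0)
    (hαβ : α ^ 2 - 4 * β ≠ 0) : (X ^ (2 * m) + C α * X ^ m + C β : F[X]).Separable := by
  obtain ⟨k, rfl⟩ : ∃ k, m = k + 1 := ⟨m - 1, by omega⟩
  have hX : IsCoprime (X ^ (2 * (k + 1)) + C α * X ^ (k + 1) + C β : F[X]) X := by
    refine ⟨C β⁻¹, - C β⁻¹ * (X ^ (2 * k + 1) + C α * X ^ k), ?_⟩
    have e1 : C β⁻¹ * C β = (1 : F[X]) := by rw [← C_mul, inv_mul_cancel₀ hβ, C_1]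
    linear_combination e1
  have hδ : 4 * β - α ^ 2 ≠ 0 := fun h => hαβ (by linear_combination -h)
  have h2 : IsCoprime (X ^ (2 * (k + 1)) + C α * X ^ (k + 1) + C β : F[X]) (2 * X ^ (k + 1) + C α) := by
    refine ⟨4 * C (4 * β - α ^ 2)⁻¹, - C (4 * β - α ^ 2)⁻¹ * (2 * X ^ (k + 1) + C α), ?_⟩
    have e1 : C (4 * β - α ^ 2)⁻¹ * (4 * C β - C α ^ 2) = (1 : F[X]) := by
      have e4 : (C (4 * β - α ^ 2) : F[X]) = 4 * C β - C α ^ 2 := by
        rw [C_sub, C_mul, C_pow]
        rfl
      rw [← e4, ← C_mul, inv_mul_cancel₀ hδ, C_1]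
    linear_combination e1
  have hk : (((k : F) + 1)) ≠ 0 := by exact_mod_cast Nat.succ_ne_zero k
  have hu : IsCoprime (X ^ (2 * (k + 1)) + C α * X ^ (k + 1) + C β : F[X]) (C ((k : F) + 1)) :=
    ⟨0, C (((k : F) + 1)⁻¹), by rw [zero_mul, zero_add, ← C_mul, inv_mul_cancel₀ hk, C_1]⟩
  have hd : derivative (X ^ (2 * (k + 1)) + C α * X ^ (k + 1) + C β : F[X]) =
      C ((k : F) + 1) * (X ^ k * (2 * X ^ (k + 1) + C α)) := by
    simp only [derivative_add, derivative_X_pow, derivative_C_mul, derivative_C]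
    have e2 : 2 * (k + 1) - 1 = k + (k + 1) := by omega
    rw [e2, Nat.add_sub_cancel]
    push_cast
    simp only [C_mul, C_add, C_1, pow_add, pow_one]
    have e3 : C (2 : F) = (2 : F[X]) := rfl
    rw [e3]
    ring
  unfold Polynomial.Separable
  rw [hd]
  exact hu.mul_right ((hX.pow_right).mul_right h2)

private theorem gT_eq {B : Type} [CommRing B] (M : ℕ) (be ga : B) :
    gT M be ga = -(X ^ (2 * M) + C (-(2 * ga)) * X ^ M + C (be ^ 2)) := by
  unfold gT
  rw [C_neg]
  ring

theorem sqf_T {k : Type} [Field k] [CharZero k] {M : ℕ} (hM : 0 < M) {be ga : k} (hbe : be ≠ 0) (hns : ga ^ 2 ≠ be ^ 2) :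
    Squarefree (gT M be ga) := by
  have h1 : (X ^ (2 * M) + C (-(2 * ga)) * X ^ M + C (be ^ 2) : k[X]).Separable := by
    refine sq_sep hM (pow_ne_zero 2 hbe) ?_
    intro h0
    apply hns
    have h2 : (4 : k) * (ga ^ 2 - be ^ 2) = 0 := by linear_combination h0
    rcases mul_eq_zero.1 h2 with h3 | h3
    · exact absurd h3 (OfNat.ofNat_ne_zero 4)
    · exact sub_eq_zero.1 h3
  rw [gT_eq]
  intro x hx
  exact h1.squarefree x ((dvd_neg).1 hx)

theorem dom_T {B : Type} [CommRing B] [IsDomain B] [CharZero B] {M : ℕ} (hM : 0 < M) {be ga : B} (hbe : be ≠ 0)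
    (hns : ga ^ 2 ≠ be ^ 2) : IsDomain (OT M be ga) := by
  refine H19.VG.dc_dom (gT M be ga) ?_
  intro r s h
  by_contra hs
  have hinj : Function.Injective (algebraMap B (FractionRing B)) := IsFractionRing.injective B (FractionRing B)
  have : CharZero (FractionRing B) := charZero_of_injective_algebraMap hinj
  set F := FractionRing B
  set f := algebraMap B F with hf
  have hbe' : f be ≠ 0 := fun h0 => hbe (hinj (by rw [h0, map_zero]))
  have hns' : f ga ^ 2 ≠ f be ^ 2 := fun h0 => hns (hinj (by rw [map_pow, map_pow]; exact h0))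
  have hsq : Squarefree (gT M (f be) (f ga)) := sqf_T hM hbe' hns'
  set g : F[X] := gT M (f be) (f ga) with hg
  have hS : mapRingHom f s ≠ 0 := by
    intro h0
    exact hs ((map_injective f hinj) (by simpa using h0))
  have hmap : mapRingHom f (gT M be ga) = g := by
    rw [hg]
    unfold gT
    simp only [map_neg, map_add, map_sub, map_mul, map_pow, coe_mapRingHom, map_C, map_X, map_ofNat]
  have hE : (mapRingHom f r) ^ 2 = g * (mapRingHom f s) ^ 2 := by
    have := congrArg (mapRingHom f) h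
    rw [map_pow, map_mul, map_pow, hmap] at this
    exact this
  have hdvd : mapRingHom f s ∣ mapRingHom f r := by
    have h1 : (mapRingHom f s) ^ 2 ∣ (mapRingHom f r) ^ 2 := ⟨g, by rw [hE]; ring⟩
    exact (IsIntegrallyClosed.pow_dvd_pow_iff two_ne_zero).1 h1
  obtain ⟨t, ht⟩ := hdvd
  have htt : t ^ 2 = g := by
    have h1 : (mapRingHom f s) ^ 2 * t ^ 2 = (mapRingHom f s) ^ 2 * g := by
      rw [← mul_pow, ← ht, hE]
      ring
    exact mul_left_cancel₀ (pow_ne_zero 2 hS) h1
  have hdeg : g.natDegree = 2 * M := by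
    rw [hg, gT_eq, natDegree_neg]
    compute_degree!
    · have h1 : ¬ (2 * M = M) := by omega
      have h2 : ¬ (M = 0) := by omega
      rw [if_neg h1, if_neg h2]
      simp
    all_goals omega
  have htu : IsUnit t := hsq t ⟨1, by rw [mul_one, ← pow_two, htt]⟩
  have hgu : IsUnit g := by
    rw [← htt]
    exact htu.pow 2
  have := natDegree_eq_zero_of_isUnit hgu
  omega

end H19.DM
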