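import Pool.Agent.H19.DM.AltT
import Pool.Agent.H19.DM.SpD
import Pool.Agent.H19.DM.GP
import Pool.Agent.H19.DM.SqT
import Pool.Agent.H77.UB.Lin

/-! # DM.Ind : alternating products of all points (the points are moved to general position one after the other) -/

namespace H19.DM

open H68.BB H77.AF Polynomial TensorProduct H19.ES

theorem injBO {B : Type} [CommRing B] [IsDomain B] {M : ℕ} (be ga : B) :
    Function.Injective (algebraMap B (OT M be ga)) := by
  have hd : (X ^ 2 - C (gT M be ga) : B[X][X]).degree ≠ 0 := by
    rw [degree_X_pow_sub_C two_pos]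
    exact two_ne_zero
  have h1 : Function.Injective (AdjoinRoot.of (X ^ 2 - C (gT M be ga) : B[X][X])) :=
    AdjoinRoot.of.injective_of_degree_ne_zero hd
  have h2 : (algebraMap B (OT M be ga)) = (AdjoinRoot.of (X ^ 2 - C (gT M be ga) : B[X][X])).comp C := by
    ext c
    rw [IsScalarTower.algebraMap_apply B B[X] (OT M be ga)]
    rfl
  rw [h2]
  exact h1.comp C_injective

private theorem mono {K0 B K K1 : Type} [Field K0] [CommRing B] [Algebra K0 B] [Field K] [Algebra K0 K] [Field K1] [Algebra K0 K1]
    (j : K →ₐ[K0] K1) {M : ℕ} {be ga : B} {t : B} {q q' : OT M be ga →ₐ[K0] K} (h : Cop t q q') : Cop t (j.comp q) (j.comp q') := by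
  refine ⟨fun h1 => h.1 (j.injective h1), fun h1 => h.2 (j.injective ?_)⟩
  rw [map_mul, map_mul]
  exact h1

theorem altAll {K0 B : Type} [Field K0] [IsAlgClosed K0] [CharZero K0] [CommRing B] [IsDomain B] [Algebra K0 B] [Algebra K0[X] B]
    [IsScalarTower K0 K0[X] B] [Module.Finite K0[X] B] [FaithfulSMul K0[X] B] {M : ℕ} (hM : 2 ≤ M) {be ga : B} (hbe : be ≠ 0)
    (hga : ∀ c : K0, ga ≠ algebraMap K0 B c * be) :
    ∃ k0 : ℕ, ∀ {L R : Type} [Field L] [Algebra K0 L] [Algebra (OT M be ga) L] [IsScalarTower K0 (OT M be ga) L]
      [IsFractionRing (OT M be ga) L] [CommRing R] [IsDomain R] [Algebra K0 R] [Algebra.FiniteType K0 R] (ι : R →ₐ[K0] L)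
      (_ : Function.Injective ι) (_ : ∀ q : OT M be ga, ι.toRingHom.IsIntegralElem (algebraMap (OT M be ga) L q)) (k : ℕ), k0 ≤ k →
      ∀ (K : Type) [Field K] [IsAlgClosed K] [Algebra K0 K] (P : Fin k → R →ₐ[K0] K),
      altC P ∈ tor (RatEq (pts K0 K R) k) := by
  classical
  obtain ⟨k0, hk0⟩ := altT (K0 := K0) (B := B) hM hbe hga
  refine ⟨k0, fun {L R} _ _ _ _ _ _ _ _ _ ι hι hint k hk K _ _ _ P => ?_⟩
  have hBc : CharZero B := charZero_of_injective_algebraMap (algebraMap K0 B).injective
  have hft : Algebra.FiniteType K0 B := by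
    have h1 : Algebra.FiniteType K0 K0[X] := inferInstance
    have h2 : Algebra.FiniteType K0[X] B := inferInstance
    exact Algebra.FiniteType.trans h1 h2
  have hOd : IsDomain (OT M be ga) := dom_T (by omega) hbe (ns_of hga)
  have hOf : Algebra.FiniteType K0 (OT M be ga) := H19.VG.dc_ft _
  have hBO := injBO (M := M) be ga
  -- `t` is not constant
  have htB : ∀ c : K0, tA K0 B ≠ algebraMap K0 B c * 1 := by
    intro c h
    rw [mul_one] at h
    have h1 : algebraMap K0[X] B (X - C c) = 0 := by
      rw [map_sub, sub_eq_zero]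
      have h2 : algebraMap K0[X] B (C c) = algebraMap K0 B c := by
        rw [IsScalarTower.algebraMap_apply K0 K0[X] B]
        rfl
      rw [h2]
      exact h
    have h3 : (X - C c : K0[X]) = 0 := (map_eq_zero_iff _ (FaithfulSMul.algebraMap_injective K0[X] B)).1 h1
    exact X_sub_C_ne_zero c h3
  have key : ∀ (n : ℕ) (K : Type) [Field K] [IsAlgClosed K] [Algebra K0 K] (P : Fin k → R →ₐ[K0] K)
      (q : Fin k → OT M be ga →ₐ[K0] K) (I : Finset (Fin k)), Iᶜ.card = n → (∀ i ∈ I, FR ι (q i) (P i)) →
      (∀ i ∈ I, Gnr (q i)) → (∀ i ∈ I, ∀ i' ∈ I, i ≠ i' → Cop (tA K0 B) (q i) (q i')) →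
      altC P ∈ tor (RatEq (pts K0 K R) k) := by
    intro n
    induction n with
    | zero =>
      intro K _ _ _ P q I hI h1 h2 h3
      have hIu : I = Finset.univ := by
        rw [Finset.card_eq_zero, Finset.compl_eq_empty_iff] at hI
        exact hI
      subst hIu
      exact hk0 ι hint k hk K P q (fun i => h1 i (Finset.mem_univ i)) (fun i => h2 i (Finset.mem_univ i))
        (fun i i' => h3 i (Finset.mem_univ i) i' (Finset.mem_univ i'))
    | succ n ih =>
      intro K _ _ _ P q I hI h1 h2 h3
      obtain ⟨i0, hi0⟩ : ∃ i0, i0 ∈ Iᶜ := by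
        apply Finset.card_pos.1
        omega
      have hi0' : i0 ∉ I := Finset.mem_compl.1 hi0
      obtain ⟨K1, _, _, _, _, _, V0, φ0, hloc, P1, q1, hφ, hP1, hFR, hinj⟩ := gp ι hι hint (P i0)
      have hK1 : CharZero K1 := charZero_of_injective_algebraMap (algebraMap K0 K1).injective
      obtain ⟨j, hj⟩ : ∃ j : K →ₐ[K0] K1, ∀ x, j x = algebraMap K K1 x := ⟨IsScalarTower.toAlgHom K0 K K1, fun x => rfl⟩
      obtain ⟨J, hJ⟩ : ∃ J : K ⊗[K0] OT M be ga →ₐ[K] K1,
          J = Algebra.TensorProduct.lift (Algebra.ofId K K1) q1 (fun _ _ => Commute.all _ _) := ⟨_, rfl⟩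
      rw [← hJ] at hinj
      have hJ1 : ∀ o : OT M be ga, J ((1 : K) ⊗ₜ[K0] o) = q1 o := by
        intro o
        rw [hJ, Algebra.TensorProduct.lift_tmul, map_one, one_mul]
      -- general position
      have hlin : ∀ x y : B, x ≠ 0 → (∀ c : K0, y ≠ algebraMap K0 B c * x) → ∀ c : K,
          q1 (algebraMap B (OT M be ga) y) ≠ algebraMap K K1 c * q1 (algebraMap B (OT M be ga) x) := by
        intro x y hx hy c h
        have h5 := H77.UB.lin1 (K := K) (K0 := K0) (A := OT M be ga) (x := algebraMap B (OT M be ga) x)
          (y := algebraMap B (OT M be ga) y) ?_ ?_ c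
        · apply h5
          apply hinj
          rw [map_mul, AlgHom.commutes, hJ1, hJ1]
          exact h
        · intro h0
          exact hx ((map_eq_zero_iff _ hBO).1 h0)
        · intro c' h0
          apply hy c'
          apply hBO
          rw [map_mul, ← IsScalarTower.algebraMap_apply K0 B (OT M be ga)]
          exact h0
      have hG1 : Gnr q1 := by
        intro c c' h
        change q1 (algebraMap B (OT M be ga) c) = q1 (algebraMap B (OT M be ga) c') at h
        rw [← hJ1, ← hJ1] at h
        have h5 := hinj h
        by_contra hne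
        have h6 : (1 : K) ⊗ₜ[K0] (algebraMap B (OT M be ga) c) - (1 : K) ⊗ₜ[K0] (algebraMap B (OT M be ga) c') =
            (0 : K ⊗[K0] OT M be ga) := by rw [h5, sub_self]
        rw [← TensorProduct.tmul_sub, ← map_sub] at h6
        have h7 := Algebra.TensorProduct.includeRight_injective (R := K0) (A := K) (B := OT M be ga)
          (algebraMap K0 K).injective
        have h8 : (Algebra.TensorProduct.includeRight : OT M be ga →ₐ[K0] K ⊗[K0] OT M be ga)
          (algebraMap B (OT M be ga) (c - c')) = 0 := h6
        have h9 := (map_eq_zero_iff _ h7).1 h8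
        exact hne (sub_eq_zero.1 ((map_eq_zero_iff _ hBO).1 h9))
      have hC1 : ∀ i ∈ I, Cop (tA K0 B) q1 (j.comp (q i)) := by
        intro i hi
        refine ⟨fun h => ?_, fun h => ?_⟩
        · refine hlin 1 (tA K0 B) one_ne_zero htB (q i (algebraMap B (OT M be ga) (tA K0 B))) ?_
          rw [map_one, map_one, mul_one, h, ← hj]
          rfl
        · have hb : q i (algebraMap B (OT M be ga) be) ≠ 0 := by
            intro h0
            apply hbe
            apply h2 i hi
            change q i (algebraMap B (OT M be ga) be) = q i (algebraMap B (OT M be ga) 0)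
            rw [h0, map_zero, map_zero]
          refine hlin be ga hbe hga (q i (algebraMap B (OT M be ga) ga) / q i (algebraMap B (OT M be ga) be)) ?_
          have hb' : algebraMap K K1 (q i (algebraMap B (OT M be ga) be)) ≠ 0 := by
            rw [Ne, map_eq_zero_iff _ (algebraMap K K1).injective]
            exact hb
          rw [map_div₀, div_mul_eq_mul_div, eq_div_iff hb']
          have h6 : ∀ o, (j.comp (q i)) o = algebraMap K K1 (q i o) := fun o => hj _
          rw [h6, h6] at h
          exact h
      have hC2 : ∀ i ∈ I, Cop (tA K0 B) (j.comp (q i)) q1 := by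
        intro i hi
        obtain ⟨h5, h6⟩ := hC1 i hi
        exact ⟨fun h => h5 h.symm, fun h => h6 h.symm⟩
      have hrec := ih K1 (fun i => if i = i0 then P1 else j.comp (P i)) (fun i => if i = i0 then q1 else j.comp (q i))
        (insert i0 I) ?_ ?_ ?_ ?_
      · refine spec hφ _ P (fun i r => ?_) hrec
        by_cases hi : i = i0
        · subst hi
          simp only [if_true]
          exact hP1 r
        · simp only [if_neg hi]
          have h5 := hφ (P i r)
          rw [← hj] at h5
          exact h5
      · rw [Finset.compl_insert, Finset.card_erase_of_mem hi0, hI]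
        rfl
      · intro i hi
        by_cases hii : i = i0
        · subst hii
          simp only [if_true]
          exact hFR
        · simp only [if_neg hii]
          have hiI := (Finset.mem_insert.1 hi).resolve_left hii
          intro r
          obtain ⟨u, v, hv, h5, h6⟩ := h1 i hiI r
          refine ⟨u, v, fun h0 => hv (j.injective ?_), h5, ?_⟩
          · rw [map_zero]
            exact h0
          · change j (q i u) = j (P i r) * j (q i v)
            rw [h6, map_mul]
      · intro i hi
        by_cases hii : i = i0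
        · subst hii
          simp only [if_true]
          exact hG1
        · simp only [if_neg hii]
          have hiI := (Finset.mem_insert.1 hi).resolve_left hii
          exact j.injective.comp (h2 i hiI)
      · intro i hi i' hi' hne
        by_cases hii : i = i0
        · have hii' : i' ≠ i0 := fun h => hne (by rw [hii, h])
          have hiI' := (Finset.mem_insert.1 hi').resolve_left hii'
          simp only [if_pos hii, if_neg hii']
          exact hC1 i' hiI'
        · have hiI := (Finset.mem_insert.1 hi).resolve_left hii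
          by_cases hii' : i' = i0
          · simp only [if_neg hii, if_pos hii']
            exact hC2 i hiI
          · have hiI' := (Finset.mem_insert.1 hi').resolve_left hii'
            simp only [if_neg hii, if_neg hii']
            exact mono j (h3 i hiI i' hiI' hne)
  -- junk
  obtain ⟨q0, -⟩ := exists_pt (K0 := K0) (R := OT M be ga) (r := 1) one_ne_zero
  obtain ⟨j, -⟩ : ∃ j : K0 →ₐ[K0] K, j = Algebra.ofId K0 K := ⟨_, rfl⟩
  exact key _ K P (fun _ => j.comp q0) ∅ rfl (fun i hi => absurd hi (Finset.notMem_empty i))
    (fun i hi => absurd hi (Finset.notMem_empty i)) (fun i hi => absurd hi (Finset.notMem_empty i))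

end H19.DM
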