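import Pool.Agent.H19.DM.ChrBR
import Pool.Agent.H19.DM.ChrAR
import Pool.Agent.H19.DM.MovD
import Pool.Agent.H19.EM.Cx
import Pool.Agent.H19.EM.Sgn
import Pool.Agent.H19.EM.Vert
import Pool.Agent.H19.ES.Fub

/-! # DM.L2R : the theorem at level 2 for functionals with allowed base points and tuples over general base points

`pbase` reduces everything with constant base points (`sgn_path`, `vert`) to `H19.EM`, for the surface over the algebra `K^N`. -/

namespace H19.ES.EM

open H68.BB Polynomial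

variable {K A : Type} [Field K] [IsAlgClosed K] [CharZero K] [CommRing A] [Algebra K A] {Al : (A →ₐ[K] K) → Prop}

omit [IsAlgClosed K] [CharZero K] in
private theorem pN_upd {N n : ℕ} (b : Fin N → (A →ₐ[K] K)) (s : Fin n → Pt K (Fin N → K) K) (i : Fin n) (z : K) :
    (fun j => pN b (Function.update s i (mulw z (s i)) j)) =
      Function.update (fun j => pN b (s j)) i (mulw z (pN b (s i))) := by
  funext j
  by_cases hj : j = i
  · subst hj
    rw [Function.update_self, Function.update_self]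
    rfl
  · rw [Function.update_of_ne hj, Function.update_of_ne hj]

theorem sgn_pathR {k m : ℕ} (hm : 0 < m) {im : K} (him : im ^ 2 = -1) {be ga : A} {G : Type} [AddCommGroup G] [Module ℂ G]
    {χ : rootsOfUnity m K →* ℂ} (Φ : FnlR Al (OnT m be ga) k G) (hI : HomR χ Φ.cl) (P : Fin k → Pt K A K)
    (hA : ∀ i, Al (P i).b) (hP : ∀ i, OnT m be ga (P i)) (hx : ∀ i, (P i).x ≠ 0)
    (hT : Ty (fun i => (P i).b be) (fun i => (P i).b ga)) {σ : Equiv.Perm (Fin k)} {w : Fin k → K}
    (h : KPath im (fun i => (P i).b be) (fun i => (P i).b ga) (fun i => kap m im be (P i)) σ w) :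
    ∃ c, Chn m be ga P σ c ∧ Φ.cl c = (Equiv.Perm.sign σ : ℤ) • Φ.cl (P ∘ σ) := by
  obtain ⟨Ψ, hΨ⟩ := pbase Φ (fun i => (P i).b) hA
  have hq : ∀ i, pN (fun i => (P i).b) (qN i (P i).x (P i).y) = P i := fun i => pN_qN _ i _ _
  have hIΨ : HomC χ Ψ := by
    intro ζ s i
    rw [hΨ, hΨ, pN_upd]
    exact hI ζ _ i
  obtain ⟨c, hc, h1⟩ := sgn_path hm him Ψ hIΨ (fun i => qN i (P i).x (P i).y) hP hx hT h
  refine ⟨fun j => pN (fun i => (P i).b) (c j), ⟨fun j => ?_, hc.on, hc.x0, hc.M, hc.w⟩, ?_⟩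
  · have h2 : (pN (fun i => (P i).b) (c j)).b = (pN (fun i => (P i).b) (qN (σ j) (P (σ j)).x (P (σ j)).y)).b := by
      unfold pN
      rw [hc.b j]
    rw [h2, hq]
  · rw [hΨ, hΨ] at h1
    rw [h1]
    have h3 : (fun i => pN (fun i => (P i).b) (((fun i => qN i (P i).x (P i).y) ∘ σ) i)) = P ∘ σ :=
      funext fun j => hq (σ j)
    rw [h3]

theorem vertR {m : ℕ} (hm : 2 ≤ m) {im : K} (him : im ^ 2 = -1) {be ga : A} {G : Type} [AddCommGroup G] (tf : TF G)
    (Φ : FnlR Al (OnT m be ga) 1 G) (b0 : A →ₐ[K] K) (hA : Al b0) (hns : b0 ga ^ 2 ≠ b0 be ^ 2) (B : Finset K)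
    (h : ∀ P : Pt K A K, P.b = b0 → OnT m be ga P → kap m im be P ∉ B → Φ.cl (fun _ => P) = 0) (P : Pt K A K)
    (hb : P.b = b0) (hP : OnT m be ga P) : Φ.cl (fun _ => P) = 0 := by
  subst hb
  obtain ⟨Ψ, hΨ⟩ := pbase Φ (fun _ : Fin 1 => P.b) (fun _ => hA)
  have hq : ∀ x y : K, pN (fun _ : Fin 1 => P.b) (qN 0 x y) = ⟨P.b, x, y⟩ := fun x y => pN_qN _ 0 _ _
  have h1 := vert hm him tf Ψ ((Algebra.ofId K K).comp (Pi.evalAlgHom K (fun _ : Fin 1 => K) 0)) hns B
    (fun R hR hon hk => ?_) (qN 0 P.x P.y) rfl hP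
  · rw [hΨ] at h1
    have h2 : (fun _ : Fin 1 => P) = fun i : Fin 1 => pN (fun _ : Fin 1 => P.b) (qN 0 P.x P.y) := by
      funext i
      exact (hq _ _).symm
    rw [h2]
    exact h1
  · rw [hΨ]
    have h3 : pN (fun _ : Fin 1 => P.b) R = ⟨P.b, R.x, R.y⟩ := by
      rw [← hq]
      unfold pN
      rw [hR]
      rfl
    rw [h3]
    refine h _ rfl ?_ ?_
    · rw [← h3]
      exact hon
    · rw [← h3]
      exact hk

/-- good tuples -/
theorem l2_goodR [Algebra K[X] A] {m : ℕ} (hm : 2 ≤ m) {im : K} (him : im ^ 2 = -1) {be ga : A} {k E : ℕ} (hk : 0 < k)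
    (hmv : ∀ b : Fin k → (A →ₐ[K] K), Function.Injective (fun i => b i (tA K A)) → (∀ i, Al (b i)) →
      ∀ π0 : Place K (Om K), Rd π0.V π0.φ (tt K) 0 → Nonempty (Mvg be ga k E b π0))
    {G : Type} [AddCommGroup G] [Module ℂ G] {χ : rootsOfUnity m K →* ℂ} (Φ : FnlR Al (OnT m be ga) k G) (hI : HomR χ Φ.cl)
    (P : Fin k → Pt K A K) (hP : ∀ i, OnT m be ga (P i)) (hG : Gd Al (tA K A) be ga (fun i => (P i).b)) :
    altSum Φ.cl P = 0 := by
  classical
  have hA : ∀ i, Al (P i).b := hG.1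
  have hinj : Function.Injective (fun i => (P i).b (tA K A)) := hG.2.1
  have hT : Ty (fun i => (P i).b be) (fun i => (P i).b ga) := hG.2.2
  obtain ⟨Gp, hG0, hG⟩ := gen (k := k) him hT
  have key := fub hG0 (fun v => ∀ P' : Fin k → Pt K A K, (∀ i, (P' i).b = (P i).b) → (∀ i, OnT m be ga (P' i)) →
    (∀ i, kap m im be (P' i) = v i) → altSum Φ.cl P' = 0) ?_ ?_ (fun i => kap m im be (P i)) P (fun _ => rfl) hP (fun _ => rfl)
  · exact key
  · intro v hv P' hb hP' hkap
    obtain ⟨hok, hpath⟩ := hG v hv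
    have hx : ∀ i, (P' i).x ≠ 0 := by
      intro i h0
      have h1 := hP' i
      unfold OnT at h1
      rw [h0, zero_pow (by omega), zero_pow (by omega)] at h1
      have h2 : ((P' i).y - im * (P' i).b be) * ((P' i).y + im * (P' i).b be) = 0 := by
        linear_combination h1 - ((P' i).b be) ^ 2 * him
      obtain ⟨h3, h4, -⟩ := hok i
      have h5 := hkap i
      unfold kap at h5
      rw [h0, zero_pow (by omega)] at h5
      rcases mul_eq_zero.1 h2 with h6 | h6
      · apply h4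
        rw [← h5, ← hb i]
        linear_combination h6
      · apply h3
        rw [← h5]
        linear_combination h6
    have hb' : (fun i => (P' i).b) = fun i => (P i).b := funext hb
    have hT' : Ty (fun i => (P' i).b be) (fun i => (P' i).b ga) := by
      have e1 : (fun i => (P' i).b be) = fun i => (P i).b be := funext fun i => by rw [hb i]
      have e2 : (fun i => (P' i).b ga) = fun i => (P i).b ga := funext fun i => by rw [hb i]
      rw [e1, e2]
      exact hT
    obtain ⟨π0, hV, hφ⟩ := place_exists K (0 : K)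
    have h0 : Rd π0.V π0.φ (tt K) 0 := ⟨hV, hφ⟩
    have hinj' : Function.Injective (fun i => (P' i).b (tA K A)) := by
      have e3 : (fun i => (P' i).b (tA K A)) = fun i => (P i).b (tA K A) := funext fun i => by rw [hb i]
      rw [e3]
      exact hinj
    have hA' : ∀ i, Al (P' i).b := fun i => by rw [hb i]; exact hA i
    obtain ⟨mv⟩ := hmv (fun i => (P' i).b) hinj' hA' π0 h0
    refine goodR (by omega) hk hP' hx hT' h0 mv hA' Φ hI (fun σ => ?_)
    obtain ⟨w, hw⟩ := hpath σ
    refine sgn_pathR (by omega) him Φ hI P' hA' hP' hx hT' (σ := σ) (w := w) ?_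
    have e1 : (fun i => (P' i).b be) = fun i => (P i).b be := funext fun i => by rw [hb i]
    have e2 : (fun i => (P' i).b ga) = fun i => (P i).b ga := funext fun i => by rw [hb i]
    have e3 : (fun i => kap m im be (P' i)) = v := funext hkap
    rw [e1, e2, e3]
    exact hw
  · intro v i B' hc c P' hb hP' hkap
    have hA' : ∀ i, Al (P' i).b := fun i => by rw [hb i]; exact hA i
    obtain ⟨Ψ, hΨ⟩ := slot1R (Φ := Φ) P' (fun j => OnT_cst' (hP' j)) hA' i
    have h1 : Ψ.cl (fun _ => P' i) = 0 := by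
      refine vertR hm him (tf_complex G) Ψ (P i).b (hA i) (hT.ns i) B' ?_ (P' i) (hb i) (hP' i)
      intro R hRb hR hRB
      rw [hΨ]
      refine hc (kap m im be R) hRB (Function.update P' i R) (fun j => ?_) (fun j => ?_) (fun j => ?_)
      · by_cases hj : j = i
        · subst hj; rw [Function.update_self]; exact hRb
        · rw [Function.update_of_ne hj]; exact hb j
      · by_cases hj : j = i
        · subst hj; rw [Function.update_self]; exact hR
        · rw [Function.update_of_ne hj]; exact hP' j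
      · by_cases hj : j = i
        · subst hj; rw [Function.update_self, Function.update_self]
        · rw [Function.update_of_ne hj, Function.update_of_ne hj]
          have h2 := hkap j
          rw [Function.update_of_ne hj] at h2
          exact h2
    rw [hΨ, Function.update_eq_self] at h1
    exact h1

/-- `k0` depends only on the exponent `m`, the rank `rk`, the degree `s0` of the structure constants and the degree `e0` of the coordinates of `be`, `ga` -/
theorem l2aR {m : ℕ} (hm : 2 ≤ m) (rk s0 e0 : ℕ) : ∃ k0 : ℕ, ∀ {K A : Type} [Field K] [IsAlgClosed K] [CharZero K] [CommRing A] [IsDomain A]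
    [Algebra K A] [Algebra K[X] A] [IsScalarTower K K[X] A] (f : Module.Basis (Fin rk) K[X] A), StB f s0 →
    ∀ {im : K}, im ^ 2 = -1 → ∀ {be ga : A}, (∀ j, (f.repr be j).natDegree ≤ e0) → (∀ j, (f.repr ga j).natDegree ≤ e0) →
    ∀ {Al : (A →ₐ[K] K) → Prop}, (∀ b, Al b → (Algebra.discr K[X] f).eval (b (tA K A)) ≠ 0) →
    ∀ k, k0 ≤ k → ∀ (G : Type) [AddCommGroup G], TF G →
    ∀ (Φ : FnlR Al (OnT m be ga) k G) (P : Fin k → Pt K A K), (∀ i, OnT m be ga (P i)) →
      Gd Al (tA K A) be ga (fun i => (P i).b) → altSum Φ.cl P = 0 := by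
  obtain ⟨E, k1, h⟩ := mvgD rk s0 e0
  refine ⟨m * (max k1 1), fun {K A} _ _ _ _ _ _ _ _ f hf {im} him {be ga} hb hg {Al} hAl k hk G _ tf Φ P hP hGd => ?_⟩
  obtain ⟨V, _, _, j, hj⟩ := exists_cx G tf
  obtain ⟨Φ', hΦ'⟩ := mapR j Φ
  obtain ⟨X, hX⟩ := exists_char K (m := m) (by omega)
  obtain ⟨Ψ, hsum, hhom⟩ := chr_decR (by omega) X hX Φ'
  have h1 : ∀ c, altSum (Ψ c).cl P = 0 := fun c =>
    chr_altR (by omega) hk X (Ψ c) c (hhom c) (fun k' hk' χ Φ0 hχ P' hP' hGd' =>
      l2_goodR hm him (E := E) (le_trans (le_max_right _ _) hk')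
        (fun b hbi hbA π0 h0 => h f hf be ga hb hg k' (le_trans (le_max_left _ _) hk') b hbi (fun i => hAl _ (hbA i)) π0 h0)
        Φ0 hχ P' hP' hGd') P hP hGd
  have h2 : ((m : ℂ) ^ k) • altSum Φ'.cl P = 0 := by
    unfold altSum
    rw [Finset.smul_sum]
    have h3 : ∀ σ : Equiv.Perm (Fin k), ((m : ℂ) ^ k) • ((Equiv.Perm.sign σ : ℤ) • Φ'.cl (P ∘ σ)) =
        ∑ c, (Equiv.Perm.sign σ : ℤ) • (Ψ c).cl (P ∘ σ) := by
      intro σ
      rw [smul_comm, ← hsum, Finset.smul_sum]
    rw [Finset.sum_congr rfl fun σ _ => h3 σ, Finset.sum_comm]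
    exact Finset.sum_eq_zero fun c _ => h1 c
  have h4 : altSum Φ'.cl P = 0 := by
    refine (smul_eq_zero.1 h2).resolve_left (pow_ne_zero _ ?_)
    exact_mod_cast (show m ≠ 0 by omega)
  apply hj
  rw [map_zero, ← h4]
  unfold altSum
  rw [map_sum]
  refine Finset.sum_congr rfl fun σ _ => ?_
  rw [map_zsmul, hΦ']

end H19.ES.EM
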