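import Pool.Agent.H19.DM.GDef

/-! # DM.LiftH : the coordinate ring of `T` is an integral extension of the coordinate ring of `y² = x^e (x^(2m) + a x^m + b)` (MATHLIB, about 120 lines)

`θ`: `C c ↦ C (i c)`, `X ↦ w²`, `y ↦ im δ w^e`: `AdjoinRoot.lift (eval₂RingHom (algebraMap B _ ∘ i) (wT²)) (im • dT * wT^e)`; relation: `(im δ w^e)² = -δ² w^(2e) = (w²)^e (w^(4m) - 2 γ w^(2m) + β²)` (`dT² = gT(w)`: `dc_root` in `VG/DCov.lean` (private), `AdjoinRoot.mk_self`).
INJECTIVE: an element is `p(x) + q(x) y` (`dc_gen`), its image is `p^i(w²) + im q^i(w²) w^e δ`; `u(w) + v(w) δ = 0` implies `u = v = 0` in `B[X]` (`dc_uniq` in `VG/DCov.lean`, private: copy it), `p^i(X²) = 0` implies `p = 0` (`Polynomial.map_injective`, `expand`).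
INTEGRAL: elements of `B` (`hint`), `w` (`w² = θ x`), `δ` (`δ² ∈ B[w]`) are integral over the image, and they generate `OT` (`dc_gen`, `Polynomial.induction_on'`); integral elements form a subring (`integralClosure`/`RingHom.IsIntegralElem.add`, `.mul`). -/

namespace H19.DM

open Polynomial

section

private theorem lh_uniq {A : Type} [CommRing A] [Nontrivial A] (g : A[X]) {p q : A[X]}
    (h : AdjoinRoot.of (X ^ 2 - C g) p + AdjoinRoot.of (X ^ 2 - C g) q * AdjoinRoot.root (X ^ 2 - C g) = 0) :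
    p = 0 ∧ q = 0 := by
  have hd : (X ^ 2 - C g : A[X][X]).natDegree = 2 := natDegree_X_pow_sub_C
  have h1 : AdjoinRoot.mk (X ^ 2 - C g) (C q * X + C p) = 0 := by
    rw [map_add, map_mul, AdjoinRoot.mk_C, AdjoinRoot.mk_C, AdjoinRoot.mk_X, add_comm]
    exact h
  rw [AdjoinRoot.mk_eq_zero] at h1
  have h2 : (C q * X + C p : A[X][X]) = 0 := by
    by_contra h0
    refine (H19.VG.dc_monic g).not_dvd_of_natDegree_lt h0 ?_ h1
    rw [hd]
    exact lt_of_le_of_lt natDegree_linear_le one_lt_two
  constructor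
  · have h3 := congrArg (fun f => coeff f 0) h2
    simpa using h3
  · have h3 := congrArg (fun f => coeff f 1) h2
    simpa using h3

private theorem lh_root {A : Type} [CommRing A] (g : A[X]) :
    AdjoinRoot.root (X ^ 2 - C g) ^ 2 = AdjoinRoot.of (X ^ 2 - C g) g := by
  have h2 : AdjoinRoot.mk (X ^ 2 - C g) (X ^ 2 - C g) = 0 := AdjoinRoot.mk_self
  rw [map_sub, map_pow, AdjoinRoot.mk_X, AdjoinRoot.mk_C] at h2
  exact sub_eq_zero.mp h2

/-- the map on polynomials: coefficients by `i`, `X` to `X ^ 2` -/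
private noncomputable def lh0 {A B : Type} [CommRing A] [CommRing B] (i : A →+* B) : A[X] →+* B[X] :=
  (expand B 2 : B[X] →ₐ[B] B[X]).toRingHom.comp (mapRingHom i)

private theorem lh0_C {A B : Type} [CommRing A] [CommRing B] (i : A →+* B) (c : A) : lh0 i (C c) = C (i c) := by
  show expand B 2 ((C c).map i) = C (i c)
  rw [map_C, expand_C]

private theorem lh0_X {A B : Type} [CommRing A] [CommRing B] (i : A →+* B) : lh0 i X = X ^ 2 := by
  show expand B 2 (map i X) = X ^ 2
  rw [map_X, expand_X]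

private theorem lh0_inj {A B : Type} [CommRing A] [CommRing B] {i : A →+* B} (hi : Function.Injective i) :
    Function.Injective (lh0 i) := by
  intro p q h
  have h1 : expand B 2 (p.map i) = expand B 2 (q.map i) := h
  exact map_injective i hi (expand_injective two_pos h1)

end

theorem liftH {K0 A B : Type} [Field K0] [CommRing A] [Nontrivial A] [Algebra K0 A] [CommRing B] [Nontrivial B] [Algebra K0 B] {i : A →ₐ[K0] B}
    (hi : Function.Injective i) (hint : i.toRingHom.IsIntegral) {a b : A} {be ga : B} (ha : i a = -2 * ga) (hb : i b = be ^ 2)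
    {m : ℕ} (hm : 0 < m) (e : ℕ) {im : K0} (him : im ^ 2 = -1) :
    ∃ θ : OH m e a b →ₐ[K0] OT (2 * m) be ga, Function.Injective θ ∧ θ.toRingHom.IsIntegral := by
  classical
  set g' : B[X] := gT (2 * m) be ga with hg'
  set F : B[X] →+* OT (2 * m) be ga := AdjoinRoot.of (X ^ 2 - C g') with hF
  set δ : OT (2 * m) be ga := AdjoinRoot.root (X ^ 2 - C g') with hδ
  have hδ2 : δ ^ 2 = F g' := lh_root g'
  set f0 : A[X] →+* OT (2 * m) be ga := F.comp (lh0 i.toRingHom) with hf0
  have himF : ∀ c : K0, algebraMap K0 (OT (2 * m) be ga) c = F (C (algebraMap K0 B c)) := fun c => rfl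
  set y0 : OT (2 * m) be ga := F (C (algebraMap K0 B im) * X ^ e) * δ with hy0
  have him2 : (algebraMap K0 B im) ^ 2 = -1 := by
    rw [← map_pow, him, map_neg, map_one]
  have hrel : eval₂ f0 y0 (X ^ 2 - C (gH m e a b)) = 0 := by
    rw [eval₂_sub, eval₂_pow, eval₂_X, eval₂_C, hy0, mul_pow, hδ2, ← map_pow, ← map_mul, hf0, RingHom.comp_apply, ← map_sub]
    have h1 : lh0 i.toRingHom (gH m e a b) = X ^ (2 * e) * (X ^ (2 * (2 * m)) + C (i a) * X ^ (2 * m) + C (i b)) := by
      unfold gH
      rw [map_mul, map_add, map_add, map_mul, map_pow, map_pow, map_pow, lh0_X, lh0_C, lh0_C, ← pow_mul, ← pow_mul, ← pow_mul]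
      rfl
    have h2 : (C (algebraMap K0 B im) * X ^ e) ^ 2 * g' - lh0 i.toRingHom (gH m e a b) = 0 := by
      rw [h1, hg', ha, hb]
      unfold gT
      rw [mul_pow, ← C_pow, him2]
      simp only [map_neg, map_one, map_mul, map_pow, map_ofNat]
      ring
    rw [h2, map_zero]
  let θ0 : OH m e a b →+* OT (2 * m) be ga := AdjoinRoot.lift f0 y0 hrel
  have hθC : ∀ p : A[X], θ0 (AdjoinRoot.of (X ^ 2 - C (gH m e a b)) p) = F (lh0 i.toRingHom p) := fun p => by
    rw [AdjoinRoot.lift_of hrel]
    rfl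
  have hθr : θ0 (AdjoinRoot.root (X ^ 2 - C (gH m e a b))) = y0 := AdjoinRoot.lift_root hrel
  let θ : OH m e a b →ₐ[K0] OT (2 * m) be ga :=
    { θ0 with
      commutes' := fun r => by
        have h1 : algebraMap K0 (OH m e a b) r = AdjoinRoot.of (X ^ 2 - C (gH m e a b)) (C (algebraMap K0 A r)) := rfl
        show θ0 (algebraMap K0 (OH m e a b) r) = _
        rw [h1, hθC, lh0_C, himF]
        congr 2
        exact i.commutes r }
  have hθ : ∀ z, θ z = θ0 z := fun z => rfl
  refine ⟨θ, ?_, ?_⟩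
  · rw [injective_iff_map_eq_zero]
    intro z hz
    rw [hθ] at hz
    obtain ⟨p, q, rfl⟩ := H19.VG.dc_gen (gH m e a b) z
    rw [map_add, map_mul, hθC, hθC, hθr, hy0, ← mul_assoc, ← map_mul] at hz
    obtain ⟨h1, h2⟩ := lh_uniq g' hz
    have hp : p = 0 := lh0_inj (i := i.toRingHom) hi (by rw [h1, map_zero])
    have hu : IsUnit (C (algebraMap K0 B im) : B[X]) := by
      refine IsUnit.map C (IsUnit.map (algebraMap K0 B) (isUnit_iff_ne_zero.2 ?_))
      rintro rfl
      rw [zero_pow two_ne_zero] at him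
      exact one_ne_zero (neg_eq_zero.1 him.symm)
    have hq1 : lh0 i.toRingHom q = 0 := by
      have h3 : (lh0 i.toRingHom q * C (algebraMap K0 B im)) * X ^ e = 0 := by rw [mul_assoc]; exact h2
      have h4 : lh0 i.toRingHom q * C (algebraMap K0 B im) = 0 :=
        (monic_X_pow e : (X ^ e : B[X]).Monic).mul_left_eq_zero_iff.1 h3
      exact (hu.mul_left_eq_zero).1 h4
    have hq : q = 0 := lh0_inj (i := i.toRingHom) hi (by rw [hq1, map_zero])
    rw [hp, hq, map_zero, zero_mul, add_zero]
  · letI : Algebra (OH m e a b) (OT (2 * m) be ga) := θ0.toAlgebra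
    have hC : ∀ c : B, IsIntegral (OH m e a b) (F (C c)) := by
      intro c
      obtain ⟨P, hP, hPc⟩ := hint c
      refine ⟨P.map ((AdjoinRoot.of (X ^ 2 - C (gH m e a b))).comp C), hP.map _, ?_⟩
      rw [eval₂_map]
      have h1 : (algebraMap (OH m e a b) (OT (2 * m) be ga)).comp ((AdjoinRoot.of (X ^ 2 - C (gH m e a b))).comp C) =
          (F.comp C).comp i.toRingHom := by
        apply RingHom.ext
        intro r
        show θ0 (AdjoinRoot.of (X ^ 2 - C (gH m e a b)) (C r)) = F (C (i r))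
        rw [hθC, lh0_C]
        rfl
      rw [h1]
      show eval₂ ((F.comp C).comp i.toRingHom) ((F.comp C) c) P = 0
      rw [← hom_eval₂, hPc, map_zero]
    have hX : IsIntegral (OH m e a b) (F X) := by
      refine IsIntegral.of_pow two_pos ?_
      have h1 : (F X) ^ 2 = algebraMap (OH m e a b) (OT (2 * m) be ga) (AdjoinRoot.of (X ^ 2 - C (gH m e a b)) X) := by
        show (F X) ^ 2 = θ0 (AdjoinRoot.of (X ^ 2 - C (gH m e a b)) X)
        rw [hθC, lh0_X, map_pow]
      rw [h1]
      exact isIntegral_algebraMap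
    have hpol : ∀ p : B[X], IsIntegral (OH m e a b) (F p) := by
      intro p
      induction p using Polynomial.induction_on' with
      | add p q hp hq =>
        rw [map_add]
        exact hp.add hq
      | monomial n c =>
        rw [← C_mul_X_pow_eq_monomial, map_mul, map_pow]
        exact (hC c).mul (hX.pow n)
    have hδi : IsIntegral (OH m e a b) δ := by
      refine IsIntegral.of_pow two_pos ?_
      rw [hδ2]
      exact hpol _
    intro z
    obtain ⟨p, q, rfl⟩ := H19.VG.dc_gen g' z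
    exact (hpol p).add ((hpol q).mul hδi)

end H19.DM
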