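import Pool.Agent.H19.DM.Ind
import Pool.Agent.H19.DM.LiftH
import Pool.Agent.H19.EM.HCov

/-! # DM.MainA : alternating products on every affine surface dominated by `y² = x^e (x^(2m) + a x^m + b)` -/

namespace H19.DM

open H68.BB H77.AF Polynomial TensorProduct

/-- integrality is transitive -/
private theorem int_trans {R L L' O O' : Type} [CommRing R] [Field L] [Field L'] [CommRing O] [CommRing O'] [Algebra O L]
    [Algebra O' L'] (ι : R →+* L) (hint : ∀ q : O, ι.IsIntegralElem (algebraMap O L q)) (θ : O →+* O') (hθ : θ.IsIntegral)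
    (ψ : L →+* L') (hψ : ∀ q : O, ψ (algebraMap O L q) = algebraMap O' L' (θ q)) (q : O') :
    (ψ.comp ι).IsIntegralElem (algebraMap O' L' q) := by
  letI : Algebra R L' := (ψ.comp ι).toAlgebra
  have h1 : ∀ x : O, IsIntegral R (algebraMap O' L' (θ x)) := by
    intro x
    obtain ⟨p, hp, h2⟩ := hint x
    refine ⟨p, hp, ?_⟩
    have h3 := congrArg ψ h2
    rw [map_zero, hom_eval₂, hψ] at h3
    exact h3
  let φ : O →+* integralClosure R L' :=
    ((algebraMap O' L').comp θ).codRestrict (integralClosure R L').toSubring (fun x => h1 x)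
  obtain ⟨p, hp, h2⟩ := hθ q
  have h3 : IsIntegral (integralClosure R L') (algebraMap O' L' q) := by
    refine ⟨p.map φ, hp.map φ, ?_⟩
    rw [eval₂_map]
    have h4 : (algebraMap (integralClosure R L') L').comp φ = (algebraMap O' L').comp θ := by
      ext x
      rfl
    rw [h4]
    have h5 := congrArg (algebraMap O' L') h2
    rw [map_zero, hom_eval₂] at h5
    exact h5
  exact isIntegral_trans (R := R) (A := integralClosure R L') _ h3

theorem dm_alt {K0 A : Type} [Field K0] [IsAlgClosed K0] [CharZero K0] [CommRing A] [IsDomain A] [Algebra K0 A]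
    [Algebra K0[X] A] [IsScalarTower K0 K0[X] A] [Module.Finite K0[X] A] [FaithfulSMul K0[X] A] {a b : A} {m : ℕ} (e : ℕ)
    (hm : 0 < m) (hj : ∀ p q : K0, algebraMap K0 A p * a ^ 2 + algebraMap K0 A q * b = 0 → p = 0 ∧ q = 0) :
    ∃ k0 : ℕ, ∀ {L R : Type} [Field L] [Algebra K0 L] [Algebra (OH m e a b) L] [IsScalarTower K0 (OH m e a b) L]
      [IsFractionRing (OH m e a b) L] [CommRing R] [IsDomain R] [Algebra K0 R] [Algebra.FiniteType K0 R] (ι : R →ₐ[K0] L)
      (_ : Function.Injective ι) (_ : ∀ q : OH m e a b, ι.toRingHom.IsIntegralElem (algebraMap (OH m e a b) L q)) (k : ℕ),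
      k0 ≤ k → ∀ (K : Type) [Field K] [IsAlgClosed K] [Algebra K0 K] (P : Fin k → R →ₐ[K0] K),
      altC P ∈ tor (RatEq (pts K0 K R) k) := by
  obtain ⟨B, _, _, _, _, _, _, _, i, be, ga, hi, hint, ha, hb, hbe0, hga0⟩ := H19.ES.EM.hcov hj
  have hBc : CharZero B := charZero_of_injective_algebraMap (algebraMap K0 B).injective
  obtain ⟨im, him⟩ := IsAlgClosed.exists_pow_nat_eq (-1 : K0) (n := 2) two_pos
  obtain ⟨θ, hθ, hθint⟩ := liftH hi hint ha hb hm e him
  have hOd : IsDomain (OT (2 * m) be ga) := dom_T (by omega) hbe0 (ns_of hga0)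
  obtain ⟨k0, hk0⟩ := altAll (K0 := K0) (B := B) (M := 2 * m) (by omega) hbe0 hga0
  refine ⟨k0, fun {L R} _ _ _ _ _ _ _ _ _ ι hι hin k hk K _ _ _ P => ?_⟩
  let L' := FractionRing (OT (2 * m) be ga)
  have hinj : Function.Injective ((IsScalarTower.toAlgHom K0 (OT (2 * m) be ga) L').comp θ) :=
    (IsFractionRing.injective (OT (2 * m) be ga) L').comp hθ
  let ψ : L →ₐ[K0] L' := IsFractionRing.liftAlgHom (K := L) hinj
  have hψ : ∀ q : OH m e a b, ψ (algebraMap (OH m e a b) L q) = algebraMap (OT (2 * m) be ga) L' (θ q) := by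
    intro q
    exact IsFractionRing.liftAlgHom_apply hinj _ |>.trans (IsFractionRing.lift_algebraMap _ _)
  refine hk0 (ψ.comp ι) (ψ.injective.comp hι) (fun q => ?_) k hk K P
  exact int_trans ι.toRingHom hin θ.toRingHom hθint ψ.toRingHom hψ q

end H19.DM
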