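import Mathlib

/-! # DM.NN2 : Noether normalisation with two variables (MATHLIB, about 120 lines)

`exists_finite_inj_algHom_of_fg` (`Mathlib/RingTheory/NoetherNormalization.lean`): an injective finite `g : MvPolynomial (Fin s) K0 → R`.  `s = 2`: in `L` the elements `ι (g X_i)` are algebraically independent and `L` is algebraic over them (`L = Frac O`, `O` integral over `R`, `R` integral over `g`), so they are a transcendence basis;
`t0`, `x0` are algebraically independent and `L` is algebraic over them: a transcendence basis too; equal cardinalities (`IsTranscendenceBasis.cardinalMk_eq` or `Algebra.trdeg`).  Then `T = g X_0`, `X' = g X_1`. -/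

namespace H19.DM

theorem nn2 {K0 O L R : Type} [Field K0] [CommRing O] [Algebra K0 O] [Field L] [Algebra K0 L] [Algebra O L] [IsScalarTower K0 O L]
    [IsFractionRing O L] [CommRing R] [IsDomain R] [Algebra K0 R] [Algebra.FiniteType K0 R] (ι : R →ₐ[K0] L) (hι : Function.Injective ι)
    (hint : ∀ q : O, ι.toRingHom.IsIntegralElem (algebraMap O L q)) {t0 x0 : O} (hai : AlgebraicIndependent K0 ![t0, x0])
    (hO : ∀ r : O, IsIntegral (Algebra.adjoin K0 ({t0, x0} : Set O)) r) :
    ∃ T X' : R, AlgebraicIndependent K0 ![T, X'] ∧ ∀ r : R, IsIntegral (Algebra.adjoin K0 ({T, X'} : Set R)) r := by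
  classical
  have hOL : Function.Injective (algebraMap O L) := IsFractionRing.injective O L
  have hOd : IsDomain O := hOL.isDomain (algebraMap O L)
  -- the transcendence basis coming from `O`
  have hr0 : Set.range ![t0, x0] = ({t0, x0} : Set O) := by
    rw [Matrix.range_cons, Matrix.range_cons, Matrix.range_empty, Set.union_empty, Set.singleton_union]
  have hb0 : IsTranscendenceBasis K0 ![t0, x0] := by
    rw [isTranscendenceBasis_iff_algebraicIndependent_isAlgebraic]
    refine ⟨hai, ⟨fun r => ?_⟩⟩
    have h1 := (hO r).isAlgebraic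
    rw [hr0]
    exact h1
  have hfO : FaithfulSMul O L := (faithfulSMul_iff_algebraMap_injective O L).2 hOL
  have haO : Algebra.IsAlgebraic O L := IsLocalization.isAlgebraic L (nonZeroDivisors O)
  have hb1 := hb0.algebraMap_comp (A := L)
  -- the normalisation
  obtain ⟨s, g, hg, hgi⟩ := exists_integral_inj_algHom_of_fg K0 R
  have hx : AlgebraicIndependent K0 (fun i : Fin s => g (MvPolynomial.X i)) := by
    rw [algebraicIndependent_iff_injective_aeval]
    have h1 : MvPolynomial.aeval (fun i : Fin s => g (MvPolynomial.X i)) = g := by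
      refine MvPolynomial.algHom_ext fun i => ?_
      rw [MvPolynomial.aeval_X]
    rw [h1]
    exact hg
  have hrange : Algebra.adjoin K0 (Set.range fun i : Fin s => g (MvPolynomial.X i)) = g.range := by
    rw [← MvPolynomial.aeval_range]
    congr 1
    refine MvPolynomial.algHom_ext fun i => ?_
    rw [MvPolynomial.aeval_X]
  have hint1 : ∀ r : R, IsIntegral (Algebra.adjoin K0 (Set.range fun i : Fin s => g (MvPolynomial.X i))) r := by
    intro r
    rw [hrange]
    obtain ⟨f, hf, hfr⟩ := hgi r
    refine ⟨f.map g.rangeRestrict.toRingHom, hf.map _, ?_⟩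
    rw [Polynomial.eval₂_map]
    exact hfr
  have hb2 : IsTranscendenceBasis K0 (fun i : Fin s => g (MvPolynomial.X i)) := by
    rw [isTranscendenceBasis_iff_algebraicIndependent_isAlgebraic]
    exact ⟨hx, ⟨fun r => (hint1 r).isAlgebraic⟩⟩
  let _ : Algebra R L := ι.toRingHom.toAlgebra
  have htow : IsScalarTower K0 R L := IsScalarTower.of_algebraMap_eq fun x => (ι.commutes x).symm
  have hfR : FaithfulSMul R L := (faithfulSMul_iff_algebraMap_injective R L).2 hι
  have haR : Algebra.IsAlgebraic R L := by
    refine ⟨fun l => ?_⟩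
    obtain ⟨a, b, -, rfl⟩ := IsFractionRing.div_surjective (A := O) l
    have h1 : IsAlgebraic R (algebraMap O L a) := (show IsIntegral R (algebraMap O L a) from hint a).isAlgebraic
    have h2 : IsAlgebraic R (algebraMap O L b) := (show IsIntegral R (algebraMap O L b) from hint b).isAlgebraic
    rw [div_eq_mul_inv]
    exact h1.mul h2.inv
  have hb3 := hb2.algebraMap_comp (A := L)
  have hcard := hb1.cardinalMk_eq hb3
  have hs : s = 2 := by
    rw [Cardinal.mk_fin, Cardinal.mk_fin] at hcard
    exact_mod_cast hcard.symm
  subst hs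
  refine ⟨g (MvPolynomial.X 0), g (MvPolynomial.X 1), ?_, ?_⟩
  · have h1 : ![g (MvPolynomial.X 0), g (MvPolynomial.X 1)] = fun i : Fin 2 => g (MvPolynomial.X i) := by
      funext i
      fin_cases i <;> rfl
    rw [h1]
    exact hx
  · intro r
    have h1 : Set.range (fun i : Fin 2 => g (MvPolynomial.X i)) = ({g (MvPolynomial.X 0), g (MvPolynomial.X 1)} : Set R) := by
      ext y
      constructor
      · rintro ⟨i, rfl⟩
        fin_cases i
        · exact Or.inl rfl
        · exact Or.inr rfl
      · rintro (rfl | rfl)
        · exact ⟨0, rfl⟩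
        · exact ⟨1, rfl⟩
    rw [← h1]
    exact hint1 r

end H19.DM
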