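import Pool.Agent.H19.DM.GDef

/-! # DM.PDR : from restricted relations on point data to functionals with allowed base points (ADAPT `Pool/Agent/H19/EM/PDF.lean`, about 150 lines)

As `of_pd` in `EM/PDF.lean`: `Ψ.cl p = if h : ∃ x, ∀ i, RX (p i) (x i) then cl h.choose else 0`.  `rel`: for `S` with `On`, Galois stable, `OkR Al π S`, `OkR Al π' S`: `S' = S.pmap (yT eY k)` is Galois stable (`pd_stable` there), `Fibre π S' c1`, `Fibre π' S' c1'` with
`c = (c1.map cl).sum` (`pd_fibre` there), and `OkP AlX π S'`: a member of `S'` is the tuple `y i` of `s ∈ S`; if `SpT π y x` then all `s i` are integral (`off` and `hex`), so `Sp π (s i) (p i)` for some `p i` (`Int.exists_Sp`), `sp` gives `x' i` with `RX (p i) (x' i)`, `D.sp π (y i) (x' i)`, `x' i = x i` (`usp`),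
and `Al (p i).b` by `OkR`, so `AlX (x i)` by `hAl`. -/

namespace H19.ES.EM

open H68.BB

section

variable {K A' : Type} [Field K] [CommRing A'] [Algebra K A']

private theorem pr_pmap {α β : Type} {p : α → Prop} (f : ∀ a, p a → β) {S T : Multiset α} (hST : S = T)
    (h : ∀ a ∈ S, p a) (h' : ∀ a ∈ T, p a) : S.pmap f h = T.pmap f h' := by
  subst hST
  rfl

/-- the tuple of points over `Ω` -/
private noncomputable def yR {D : H77.AF.PD K} {On : Pt K A' (Om K) → Prop} {RY : Pt K A' (Om K) → D.Y → Prop}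
    (eY : ∀ P, On P → ∃ y, RY P y) (k : ℕ) (s : Fin k → Pt K A' (Om K)) (h : ∀ i, On (s i)) : Fin k → D.Y :=
  fun i => (eY (s i) (h i)).choose

open Classical in
/-- the value of a tuple -/
private noncomputable def clR {D : H77.AF.PD K} (RX : Pt K A' K → D.X → Prop) (k : ℕ) {G : Type} [AddCommGroup G]
    (cl : (Fin k → D.X) → G) (p : Fin k → Pt K A' K) : G :=
  if h : ∃ x : Fin k → D.X, ∀ i, RX (p i) (x i) then cl h.choose else 0

private theorem clR_eq {D : H77.AF.PD K} {RX : Pt K A' K → D.X → Prop} (uX : ∀ p x x', RX p x → RX p x' → x = x')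
    {k : ℕ} {G : Type} [AddCommGroup G] (cl : (Fin k → D.X) → G) {p : Fin k → Pt K A' K} {x : Fin k → D.X}
    (hx : ∀ i, RX (p i) (x i)) : clR RX k cl p = cl x := by
  have h : ∃ x : Fin k → D.X, ∀ i, RX (p i) (x i) := ⟨x, hx⟩
  have h1 : h.choose = x := funext fun i => uX _ _ _ (h.choose_spec i) (hx i)
  unfold clR
  rw [dif_pos h, h1]

private theorem pr_stable {D : H77.AF.PD K} {On : Pt K A' (Om K) → Prop} {RY : Pt K A' (Om K) → D.Y → Prop}
    (uY : ∀ P y y', RY P y → RY P y' → y = y') (eY : ∀ P, On P → ∃ y, RY P y)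
    (act : ∀ (σ : Om K ≃ₐ[RatFunc K] Om K) P y, RY P y → RY (P.map (σ.toAlgHom.restrictScalars K)) (D.act σ y))
    {k : ℕ} (S : Multiset (Fin k → Pt K A' (Om K))) (hS : ∀ s ∈ S, ∀ i, On (s i)) (hG : GalStable S) :
    H77.AF.GalStable (S.pmap (yR eY k) hS) := by
  intro σ
  rw [Multiset.map_pmap]
  have hσ : ∀ s ∈ S.map (gal σ), ∀ i, On (s i) := by
    rw [hG σ]
    exact hS
  have h1 : (S.map (gal σ)).pmap (yR eY k) hσ = S.pmap (yR eY k) hS := pr_pmap _ (hG σ) _ _
  rw [← h1]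
  have key : ∀ (T : Multiset (Fin k → Pt K A' (Om K))) (h2 : ∀ s ∈ T, ∀ i, On (s i))
      (h3 : ∀ s ∈ T.map (gal σ), ∀ i, On (s i)),
      T.pmap (fun s h i => D.act σ (yR eY k s h i)) h2 = (T.map (gal σ)).pmap (yR eY k) h3 := by
    intro T
    induction T using Multiset.induction_on with
    | empty => intro h2 h3; rfl
    | cons t T ih =>
      intro h2 h3
      have h4 : ∀ s ∈ T, ∀ i, On (s i) := fun s hs => h2 s (Multiset.mem_cons_of_mem hs)
      have h5 : ∀ s ∈ T.map (gal σ), ∀ i, On (s i) := fun s hs => h3 s (by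
        rw [Multiset.map_cons]
        exact Multiset.mem_cons_of_mem hs)
      have h6 : ∀ s ∈ gal σ t ::ₘ T.map (gal σ), ∀ i, On (s i) := by
        rw [← Multiset.map_cons]
        exact h3
      have e1 : ((t ::ₘ T).map (gal σ)).pmap (yR eY k) h3
          = (gal σ t ::ₘ T.map (gal σ)).pmap (yR eY k) h6 := pr_pmap _ (Multiset.map_cons _ _ _) _ _
      rw [e1, Multiset.pmap_cons, Multiset.pmap_cons, ← ih h4 h5]
      congr 1
      funext i
      exact uY _ _ _ (act σ (t i) _ (eY (t i) (h2 t (Multiset.mem_cons_self t T) i)).choose_spec)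
        (eY (gal σ t i) (h6 (gal σ t) (Multiset.mem_cons_self _ _) i)).choose_spec
  exact key S hS hσ

private theorem pr_fibre {D : H77.AF.PD K} {On : Pt K A' (Om K) → Prop} {RX : Pt K A' K → D.X → Prop}
    {RY : Pt K A' (Om K) → D.Y → Prop} (uX : ∀ p x x', RX p x → RX p x' → x = x') (eY : ∀ P, On P → ∃ y, RY P y)
    (sp : ∀ π P y p, On P → RY P y → Sp π P p → ∃ x, RX p x ∧ D.sp π y x)
    (off : ∀ π P y, On P → RY P y → ¬ Int π P → D.off π y)
    {k : ℕ} {G : Type} [AddCommGroup G] (cl : (Fin k → D.X) → G) (π : Place K (Om K))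
    (S : Multiset (Fin k → Pt K A' (Om K))) (C : Multiset G) (h : Multiset.Rel (Lim1 (clR RX k cl) π) S C) :
    ∀ hS : ∀ s ∈ S, ∀ i, On (s i), ∃ c1 : Multiset (Fin k → D.X),
      H77.AF.Fibre π (S.pmap (yR eY k) hS) c1 ∧ C.sum = (c1.map cl).sum := by
  induction h with
  | zero =>
    intro hS
    refine ⟨0, ⟨0, 0, ?_, Multiset.Rel.zero, fun P hP => absurd hP (Multiset.notMem_zero P)⟩, ?_⟩
    · rw [Multiset.pmap_zero, add_zero]
    · rw [Multiset.sum_zero, Multiset.map_zero, Multiset.sum_zero]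
  | @cons s c S C h1 h2 ih =>
    intro hS
    have hs : ∀ i, On (s i) := hS s (Multiset.mem_cons_self s S)
    have hS' : ∀ s ∈ S, ∀ i, On (s i) := fun t ht => hS t (Multiset.mem_cons_of_mem ht)
    obtain ⟨c1, ⟨S1, S2, hSS, hR, ho⟩, hc⟩ := ih hS'
    have hp : (s ::ₘ S).pmap (yR eY k) hS = yR eY k s hs ::ₘ S.pmap (yR eY k) hS' := Multiset.pmap_cons _ _ _ _
    rw [hp]
    rcases h1 with ⟨p, hpS, rfl⟩ | ⟨⟨i, hi⟩, rfl⟩
    · choose x hx hxs using fun i => sp π (s i) (yR eY k s hs i) (p i) (hs i) (eY (s i) (hs i)).choose_spec (hpS i)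
      refine ⟨x ::ₘ c1, ⟨yR eY k s hs ::ₘ S1, S2, ?_, ?_, ho⟩, ?_⟩
      · rw [hSS, Multiset.cons_add]
      · exact Multiset.Rel.cons hxs hR
      · rw [Multiset.sum_cons, hc, clR_eq uX cl hx, Multiset.map_cons, Multiset.sum_cons]
    · refine ⟨c1, ⟨S1, yR eY k s hs ::ₘ S2, ?_, hR, ?_⟩, ?_⟩
      · rw [hSS, Multiset.add_cons]
      · intro P hP
        rcases Multiset.mem_cons.1 hP with rfl | hP
        · exact ⟨i, off π (s i) _ (hs i) (eY (s i) (hs i)).choose_spec hi⟩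
        · exact ho P hP
      · rw [Multiset.sum_cons, hc, zero_add]

end

theorem of_pdR {K A' : Type} [Field K] [CommRing A'] [Algebra K A'] {D : H77.AF.PD K} {On : Pt K A' (Om K) → Prop} {k : ℕ}
    {Al : (A' →ₐ[K] K) → Prop} {AlX : D.X → Prop}
    (RX : Pt K A' K → D.X → Prop) (RY : Pt K A' (Om K) → D.Y → Prop)
    (uX : ∀ p x x', RX p x → RX p x' → x = x') (uY : ∀ P y y', RY P y → RY P y' → y = y')
    (eY : ∀ P, On P → ∃ y, RY P y)
    (act : ∀ (σ : Om K ≃ₐ[RatFunc K] Om K) P y, RY P y → RY (P.map (σ.toAlgHom.restrictScalars K)) (D.act σ y))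
    (sp : ∀ π P y p, On P → RY P y → Sp π P p → ∃ x, RX p x ∧ D.sp π y x)
    (off : ∀ π P y, On P → RY P y → ¬ Int π P → D.off π y)
    (hex : ∀ π y x, D.sp π y x → ¬ D.off π y) (usp : ∀ π y x x', D.sp π y x → D.sp π y x' → x = x')
    (hAl : ∀ p x, RX p x → Al p.b → AlX x) {G : Type} [AddCommGroup G] (cl : (Fin k → D.X) → G) (hcl : H19.DM.RelR D AlX cl) :
    ∃ Ψ : FnlR Al On k G, ∀ (p : Fin k → Pt K A' K) (x : Fin k → D.X), (∀ i, RX (p i) (x i)) → Ψ.cl p = cl x := by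
  have hok : ∀ (π : Place K (Om K)) (S : Multiset (Fin k → Pt K A' (Om K))) (hS : ∀ s ∈ S, ∀ i, On (s i)), OkR Al π S →
      H19.DM.OkP AlX π (S.pmap (yR eY k) hS) := by
    intro π S hS ho t ht x hx
    obtain ⟨s, hs, rfl⟩ := Multiset.mem_pmap.1 ht
    have hint : ∀ i, Int π (s i) := by
      intro i
      by_contra hi
      exact hex π _ _ (hx i) (off π (s i) _ (hS s hs i) (eY (s i) (hS s hs i)).choose_spec hi)
    choose p hp using fun i => (hint i).exists_Sp
    intro i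
    obtain ⟨x', hx', hs'⟩ := sp π (s i) (yR eY k s (hS s hs) i) (p i) (hS s hs i) (eY (s i) (hS s hs i)).choose_spec (hp i)
    have h1 : x' = x i := usp π _ _ _ hs' (hx i)
    rw [← h1]
    exact hAl (p i) x' hx' (ho s hs p hp i)
  refine ⟨⟨clR RX k cl, ?_⟩, fun p x hx => clR_eq uX cl hx⟩
  intro S π π' c c' hS hG ho ho' h h'
  obtain ⟨C, hC, rfl⟩ := h
  obtain ⟨C', hC', rfl⟩ := h'
  obtain ⟨c1, hf, hc⟩ := pr_fibre uX eY sp off cl π S C hC hS
  obtain ⟨c1', hf', hc'⟩ := pr_fibre uX eY sp off cl π' S C' hC' hS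
  rw [hc, hc']
  exact hcl _ π π' c1 c1' (pr_stable uY eY act S hS hG) (hok π S hS ho) (hok π' S hS ho') hf hf'

end H19.ES.EM
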