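import Pool.Agent.H77.AF.Pts
import Pool.Agent.H71.SZ.MainS

/-! # DM.SpA : points of an affine variety as vectors in projective space (definitions; small facts proved)

`r : Fin d → R` generators of the `K0`-algebra `R`.  The point `P : R → F` is the vector `(1, P (r 0), .., P (r (d-1)))`, indexed by `Option (Fin d)`.  `OnV`: all blocks are nonzero and satisfy the homogeneous equations of the projective closure.
`Bd`: cycles supported on vectors one of whose blocks is in the hyperplane at infinity (`none`-coordinate zero). -/

namespace H19.DM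

open H68.BB H77.AF SZ

/-- the blocks -/
abbrev Ix (k d : ℕ) : Fin k → Type := fun _ => Option (Fin d)

/-- all weights are one -/
abbrev wo (k d : ℕ) : ∀ j : Fin k, Ix k d j → ℕ := fun _ _ => 1

/-- the vector of a tuple of points -/
def vc {K0 R F : Type} [Field K0] [CommRing R] [Algebra K0 R] [Field F] [Algebra K0 F] {d k : ℕ} (r : Fin d → R)
    (P : Fin k → R →ₐ[K0] F) : Vc (Ix k d) F := fun j o => o.elim 1 (fun i => P j (r i))

/-- the vector is on the projective closure of `X^k` -/
def OnV {K0 R F : Type} [Field K0] [CommRing R] [Algebra K0 R] [Field F] [Algebra K0 F] {d k : ℕ} (r : Fin d → R)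
    (P : Vc (Ix k d) F) : Prop :=
  ∀ j, P j ≠ 0 ∧ ∀ (N : ℕ) (h : MvPolynomial (Option (Fin d)) K0), h.IsHomogeneous N →
    MvPolynomial.aeval (fun o : Option (Fin d) => o.elim (1 : R) r) h = 0 → MvPolynomial.aeval (P j) h = 0

/-- cycles at infinity -/
noncomputable def Bd (k d : ℕ) (F : Type) [Zero F] : AddSubgroup (Cy (Ix k d) F) :=
  AddSubgroup.closure {z | ∃ P : Vc (Ix k d) F, (∃ j, P j none = 0) ∧ z = Finsupp.single P 1}

end H19.DM
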