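import Pool.Agent.H19.DM.SpA

/-! # DM.SpB : affine rational equivalence is projective rational equivalence modulo cycles at infinity (about 200 lines)

Generator: `S` Galois stable, `Fibre π S c`, `Fibre π' S c'`, `z = cyc c - cyc c'`.  `S^ = S.map (vc r)`: `Gst` (`mp σ (vc r P) = vc r (act σ P)`), all members satisfy `OnV`: block `(1, P (r i))` is nonzero, and `aeval (P j vector) h = P j (aeval (1, r) h) = 0` (`MvPolynomial.aeval_algHom_apply`-style; both sides are algebra homomorphisms of `h`: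
`MvPolynomial.algHom_ext`).  At `π`: `S = S1 + S2`; `Rel (Spc (wo k d) π.V π.φ) (S1.map (vc r)) (c.map (vc r))` (scalar `1`; the `none`-coordinate is `1`); for `S2` choose (`SZ.rel_exists`, weights `1 > 0`; it needs the blocks nonzero) `D` with `Rel Spc (S2.map (vc r)) D`; every member `q` of `D` has a block `j` with `q j none = 0`: the member
of `S2` has `P j` off: some `P j x ∉ V`, so some generator `P j (r i) ∉ V` (`hr`: otherwise the subalgebra `{x | P j x ∈ V}` (it contains `K0`: constants are in `V` by `π.const`) contains all generators); if `c * (1, P j (r i))` is integral with nonzero reduction at `none` then `c` is a unit of `V` and `P j (r i) ∈ V`: contradiction; so the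
reduction at `none` is `0`.  (`Multiset.rel_of_mem..`: `Multiset.Rel` gives for every member of `D` a related member of `S2`: `Multiset.exists_mem_of_rel_of_mem`.)
The same at `π'`.  `z' = cy (c.map (vc r) + D) - cy (c'.map (vc r) + D') ∈ RatG`, `z' - mapDomain (vc r) z = cy D - cy D' ∈ Bd`.  `cy`, `cyc`, `mapDomain` are additive.  Then `AddSubgroup.closure_induction`. -/

namespace H19.DM

open H68.BB H77.AF SZ

variable {K0 K R : Type} [Field K0] [Field K] [Algebra K0 K] [CommRing R] [Algebra K0 R] {d k : ℕ} {r : Fin d → R}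

private theorem mem_V (hr : Algebra.adjoin K0 (Set.range r) = ⊤) (π : Place K (Om K)) (y : R →ₐ[K0] Om K)
    (h : ∀ i, y (r i) ∈ π.V) (x : R) : y x ∈ π.V := by
  have hx : x ∈ Algebra.adjoin K0 (Set.range r) := by rw [hr]; exact Algebra.mem_top
  induction hx using Algebra.adjoin_induction with
  | mem x hx => obtain ⟨i, rfl⟩ := hx; exact h i
  | algebraMap c =>
    rw [AlgHom.commutes, IsScalarTower.algebraMap_apply K0 K (Om K)]
    exact (π.const _).choose
  | add x z _ _ hx hz => rw [map_add]; exact add_mem hx hz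
  | mul x z _ _ hx hz => rw [map_mul]; exact mul_mem hx hz

private theorem onV_vc {F : Type} [Field F] [Algebra K0 F] (P : Fin k → R →ₐ[K0] F) :
    OnV (K0 := K0) r (vc (K0 := K0) (F := F) r P) := by
  intro j
  refine ⟨fun h => ?_, fun N h _ h0 => ?_⟩
  · have := congrFun h none
    exact one_ne_zero this
  · have e : vc r P j = fun o : Option (Fin d) => P j (o.elim (1 : R) r) := by
      funext o
      cases o with
      | none => exact (map_one (P j)).symm
      | some i => rfl
    rw [e, ← MvPolynomial.comp_aeval, AlgHom.comp_apply, h0, map_zero]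

private noncomputable def ac (σ : Om K ≃ₐ[RatFunc K] Om K) (y : R →ₐ[K0] Om K) : R →ₐ[K0] Om K := (pts K0 K R).act σ y

private theorem gst_vc {S : Multiset (Fin k → R →ₐ[K0] Om K)} (hS : GalStable (D := pts K0 K R) S) :
    Gst (S.map (vc (K0 := K0) (F := Om K) r)) := by
  intro σ
  have h : S.map (fun P i => ac σ (P i)) = S := hS σ
  rw [Multiset.map_map]
  conv_rhs => rw [← h]
  rw [Multiset.map_map]
  refine Multiset.map_congr rfl fun P _ => ?_
  funext j o
  cases o with
  | none => exact map_one σ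
  | some i => rfl

private theorem fib [IsAlgClosed K] (hr : Algebra.adjoin K0 (Set.range r) = ⊤) {S : Multiset (Fin k → R →ₐ[K0] Om K)} (π : Place K (Om K))
    {c : Multiset (Fin k → R →ₐ[K0] K)} (h : Fibre (D := pts K0 K R) π S c) :
    ∃ D : Multiset (Vc (Ix k d) K), Multiset.Rel (Spc (wo k d) π.V π.φ) (S.map (vc (K0 := K0) (F := Om K) r))
      (c.map (vc (K0 := K0) (F := K) r) + D) ∧ cy D ∈ Bd k d K := by
  obtain ⟨S1, S2, h12, h1, h2⟩ := h
  change Multiset (Fin k → R →ₐ[K0] Om K) at S1 S2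
  change S = S1 + S2 at h12
  subst h12
  have hnz : ∀ P ∈ S2.map (vc (K0 := K0) (F := Om K) r), NZ P := by
    intro P hP
    obtain ⟨Q, _, rfl⟩ := Multiset.mem_map.1 hP
    exact fun j => (onV_vc (K0 := K0) Q j).1
  obtain ⟨D, hD⟩ := rel_exists (w := wo k d) (fun _ _ => Nat.one_pos) π.V π.φ hnz
  refine ⟨D, ?_, ?_⟩
  · rw [Multiset.map_add]
    refine Multiset.Rel.add ?_ hD
    rw [Multiset.rel_map]
    refine h1.mono fun P _ p _ hPp => Spc.of_rd (fun j => (onV_vc (K0 := K0) p j).1) fun j o => ?_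
    cases o with
    | none => exact Rd.one
    | some i => exact hPp j (r i)
  · unfold cy
    refine AddSubgroup.multiset_sum_mem _ _ fun z hz => ?_
    obtain ⟨q, hq, rfl⟩ := Multiset.mem_map.1 hz
    obtain ⟨P, hP, hPq⟩ := Multiset.exists_mem_of_rel_of_mem (Multiset.rel_flip.2 hD) hq
    obtain ⟨Q, hQ, rfl⟩ := Multiset.mem_map.1 hP
    obtain ⟨j, x, hx⟩ := h2 Q hQ
    refine AddSubgroup.subset_closure ⟨q, ⟨j, ?_⟩, rfl⟩
    by_contra hne
    obtain ⟨_, a, ha, hR⟩ := hPq j
    have := π.isLocal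
    apply hx
    refine mem_V hr π (Q j) (fun i => ?_) x
    have e1 : Rd π.V π.φ a (q j none) := by
      have := hR none
      simpa [vc] using this
    have e2 : Rd π.V π.φ (a * Q j (r i)) (q j (some i)) := by
      have := hR (some i)
      simpa [vc] using this
    have e3 := (e1.inv hne).mul e2
    rw [← mul_assoc, inv_mul_cancel₀ ha, one_mul] at e3
    exact e3.mem

omit [Field K] in
private theorem cy_add {J : Type} {I : J → Type} (c D : Multiset (Vc I K)) : cy (c + D) = cy c + cy D := by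
  unfold cy
  rw [Multiset.map_add, Multiset.sum_add]

private noncomputable def F0 (r : Fin d → R) : Cyc (pts K0 K R) k →+ Cy (Ix k d) K :=
  (Finsupp.mapDomain.addMonoidHom (vc (K0 := K0) (F := K) r) : ((Fin k → R →ₐ[K0] K) →₀ ℤ) →+ Cy (Ix k d) K)

private noncomputable def cyA (c : Multiset (Fin k → R →ₐ[K0] K)) : (Fin k → R →ₐ[K0] K) →₀ ℤ :=
  (c.map (fun P => (Finsupp.single P 1 : (Fin k → R →ₐ[K0] K) →₀ ℤ))).sum

private theorem map_cyA (c : Multiset (Fin k → R →ₐ[K0] K)) :
    Finsupp.mapDomain (vc (K0 := K0) (F := K) r) (cyA c) = cy (c.map (vc (K0 := K0) (F := K) r)) := by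
  induction c using Multiset.induction_on with
  | empty => simp [cy, cyA]
  | cons P c ih =>
    unfold cyA cy at ih ⊢
    rw [Multiset.map_cons, Multiset.sum_cons, Multiset.map_cons, Multiset.map_cons, Multiset.sum_cons, Finsupp.mapDomain_add, ih,
      Finsupp.mapDomain_single]

theorem spB {K0 K R : Type} [Field K0] [Field K] [IsAlgClosed K] [Algebra K0 K] [CommRing R] [Algebra K0 R] {d k : ℕ} {r : Fin d → R}
    (hr : Algebra.adjoin K0 (Set.range r) = ⊤) {z : Cyc (pts K0 K R) k} (hz : z ∈ RatEq (pts K0 K R) k) :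
    ∃ z' ∈ RatG (wo k d) (OnV (K0 := K0) (F := Om K) r),
      z' - Finsupp.mapDomain (vc (K0 := K0) (F := K) r) z ∈ Bd k d K := by
  change ∃ z' ∈ RatG (wo k d) (OnV (K0 := K0) (F := Om K) r), z' - F0 r z ∈ Bd k d K
  unfold H77.AF.RatEq at hz
  induction hz using AddSubgroup.closure_induction with
  | zero => exact ⟨0, AddSubgroup.zero_mem _, by rw [map_zero, sub_zero]; exact AddSubgroup.zero_mem _⟩
  | add x y _ _ hx hy =>
    obtain ⟨a, ha, ha'⟩ := hx
    obtain ⟨b, hb, hb'⟩ := hy
    refine ⟨a + b, AddSubgroup.add_mem _ ha hb, ?_⟩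
    rw [map_add, add_sub_add_comm]
    exact AddSubgroup.add_mem _ ha' hb'
  | neg x _ hx =>
    obtain ⟨a, ha, ha'⟩ := hx
    refine ⟨-a, AddSubgroup.neg_mem _ ha, ?_⟩
    have e2 : -a - F0 r (-x) = -(a - F0 r x) := by rw [map_neg]; abel
    rw [e2]
    exact AddSubgroup.neg_mem _ ha'
  | mem z hz =>
    obtain ⟨S, π, π', c, c', hG, hF, hF', rfl⟩ := hz
    change Multiset (Fin k → R →ₐ[K0] Om K) at S
    change Multiset (Fin k → R →ₐ[K0] K) at c c'
    obtain ⟨D, hD, hB⟩ := fib hr π hF
    obtain ⟨D', hD', hB'⟩ := fib hr π' hF'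
    refine ⟨cy (c.map (vc (K0 := K0) (F := K) r) + D) - cy (c'.map (vc (K0 := K0) (F := K) r) + D'),
      AddSubgroup.subset_closure ⟨S.map (vc (K0 := K0) (F := Om K) r), π, π', _, _, ?_, gst_vc hG, hD, hD', rfl⟩, ?_⟩
    · intro P hP
      obtain ⟨Q, _, rfl⟩ := Multiset.mem_map.1 hP
      exact onV_vc Q
    · have ec : F0 r (cyc (D := pts K0 K R) c) = cy (c.map (vc (K0 := K0) (F := K) r)) := map_cyA c
      have ec' : F0 r (cyc (D := pts K0 K R) c') = cy (c'.map (vc (K0 := K0) (F := K) r)) := map_cyA c'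
      rw [map_sub, ec, ec', cy_add, cy_add]
      have e2 : ∀ a b a' b' : Cy (Ix k d) K, a + b - (a' + b') - (a - a') = b - b' := fun a b a' b' => by abel
      rw [e2]
      exact AddSubgroup.sub_mem _ hB hB'

end H19.DM
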