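import Pool.Agent.H19.DM.MainA
import Pool.Agent.H19.DM.NN2
import Pool.Agent.H19.DM.CPt
import Pool.Agent.H19.DM.AIn
import Pool.Agent.H19.EM.Sq
import Pool.Agent.H19.VG.AltSym
import Pool.Agent.H19.VG.UnionS
import Pool.Agent.H19.VG.CurP
import Pool.Agent.H19.VG.DCov
import Pool.Agent.H19.VG.Hom
import Pool.Agent.H77.UB.V1

/-! # DM.V1R : exterior products of many zero-cycles supported on a curve of an affine surface dominated by
`y² = x^e (x^(2m) + a x^m + b)` are torsion -/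

namespace H19.DM

open H68.BB H77.AF H77.SN H19.VG Polynomial

/-- the inclusion of a closed subvariety -/
private noncomputable def hq {K0 R : Type} [Field K0] [CommRing R] [Algebra K0 R] (q : Ideal R) (K : Type) [Field K] [Algebra K0 K] :
    PHom (pts K0 K (R ⧸ q)) (pts K0 K R) where
  f := fun P => AlgHom.comp (P : R ⧸ q →ₐ[K0] K) (Ideal.Quotient.mkₐ K0 q)
  g := fun P => AlgHom.comp (P : R ⧸ q →ₐ[K0] Om K) (Ideal.Quotient.mkₐ K0 q)
  act := fun σ y => rfl
  sp := fun π y x h r => h (Ideal.Quotient.mkₐ K0 q r)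
  off := fun π y h => by
    obtain ⟨r, hr⟩ := h
    obtain ⟨r, rfl⟩ := Ideal.Quotient.mk_surjective r
    exact ⟨r, hr⟩

/-- symmetrised products of points on a curve -/
private theorem cur_sym {K0 R : Type} [Field K0] [IsAlgClosed K0] [CharZero K0] [CommRing R] [Algebra K0 R]
    [Algebra.FiniteType K0 R] (q : Ideal R) [q.IsPrime] {U : R ⧸ q} (hU : Transcendental K0 U) (hA : Alg1 K0 U) :
    ∃ n : ℕ, 0 < n ∧ ∀ (K : Type) [Field K] [IsAlgClosed K] [Algebra K0 K] (P : Fin n → R →ₐ[K0] K),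
      (∀ i, ∀ r ∈ q, P i r = 0) →
      ∑ σ : Equiv.Perm (Fin n), (Finsupp.single (fun i => P (σ i)) 1 : Cyc (pts K0 K R) n) ∈ tor (RatEq (pts K0 K R) n) := by
  have : Algebra.FiniteType K0 (R ⧸ q) :=
    Algebra.FiniteType.of_surjective (Ideal.Quotient.mkₐ K0 q) (Ideal.Quotient.mkₐ_surjective K0 q)
  obtain ⟨n, hn, h⟩ := curP (D := R ⧸ q) hU hA
  refine ⟨n, hn, fun K _ _ _ P hP => ?_⟩
  let P' : Fin n → R ⧸ q →ₐ[K0] K := fun i => Ideal.Quotient.liftₐ q (P i) (hP i)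
  have hP' : ∀ i, (hq q K).f (P' i) = P i := by
    intro i
    apply AlgHom.ext
    intro r
    rfl
  have h1 := (hq q K).sym (h K P')
  refine Eq.mp (congrArg (fun w => w ∈ tor (RatEq (pts K0 K R) n)) (Finset.sum_congr rfl fun σ _ => ?_)) h1
  congr 1

/-- one component of the curve -/
private theorem comp_sym {K0 R : Type} [Field K0] [IsAlgClosed K0] [CharZero K0] [CommRing R] [IsDomain R]
    [Algebra K0 R] [Algebra.FiniteType K0 R] {T X' : R} (hai : AlgebraicIndependent K0 ![T, X'])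
    (hint : ∀ r : R, IsIntegral (Algebra.adjoin K0 ({T, X'} : Set R)) r) (p : Ideal R) [p.IsPrime]
    (hp : (∀ r : R ⧸ p, ∃ c : K0, r = algebraMap K0 (R ⧸ p) c) ∨ ∃ U : R ⧸ p, Transcendental K0 U ∧ Alg1 K0 U) :
    ∃ n : ℕ, 0 < n ∧ ∀ (K : Type) [Field K] [IsAlgClosed K] [Algebra K0 K] (P : Fin n → R →ₐ[K0] K),
      (∀ i, ∀ r ∈ p, P i r = 0) →
      ∑ σ : Equiv.Perm (Fin n), (Finsupp.single (fun i => P (σ i)) 1 : Cyc (pts K0 K R) n) ∈ tor (RatEq (pts K0 K R) n) := by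
  rcases hp with hp | ⟨U, hU, hA⟩
  · have hinj : Function.Injective (algebraMap K0 (R ⧸ p)) := (algebraMap K0 _).injective
    choose cc hcc using hp
    let π0 : R ⧸ p →ₐ[K0] K0 :=
      { toFun := cc
        map_one' := hinj (by rw [← hcc, map_one])
        map_mul' := fun x y => hinj (by rw [← hcc, map_mul, ← hcc, ← hcc])
        map_zero' := hinj (by rw [← hcc, map_zero])
        map_add' := fun x y => hinj (by rw [← hcc, map_add, ← hcc, ← hcc])
        commutes' := fun c => hinj (by rw [← hcc]; rfl) }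
    obtain ⟨q, hqp, hle, U, hU, hA⟩ := cpt hai hint (π0.comp (Ideal.Quotient.mkₐ K0 p))
    obtain ⟨n, hn, h⟩ := cur_sym q hU hA
    refine ⟨n, hn, fun K _ _ _ P hP => h K P fun i r hr => hP i r ?_⟩
    have h1 : π0 (Ideal.Quotient.mk p r) = 0 := hle r hr
    rw [← Ideal.Quotient.eq_zero_iff_mem]
    have h2 : algebraMap K0 (R ⧸ p) (π0 (Ideal.Quotient.mk p r)) = Ideal.Quotient.mk p r := (hcc _).symm
    rw [← h2, h1, map_zero]
  · exact cur_sym p hU hA

/-- products of `M` zero-cycles supported on a curve are torsion -/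
theorem v1R {K0 A : Type} [Field K0] [IsAlgClosed K0] [CharZero K0] [CommRing A] [IsDomain A] [Algebra K0 A]
    [Algebra K0[X] A] [IsScalarTower K0 K0[X] A] [Module.Finite K0[X] A] [FaithfulSMul K0[X] A] {a b : A} {m : ℕ} (e : ℕ)
    (hm : 0 < m) (hj : ∀ p q : K0, algebraMap K0 A p * a ^ 2 + algebraMap K0 A q * b = 0 → p = 0 ∧ q = 0)
    {L R : Type} [Field L] [Algebra K0 L] [Algebra (OH m e a b) L] [IsScalarTower K0 (OH m e a b) L]
    [IsFractionRing (OH m e a b) L] [CommRing R] [IsDomain R] [Algebra K0 R] [Algebra.FiniteType K0 R] (ι : R →ₐ[K0] L)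
    (hι : Function.Injective ι) (hint : ∀ q : OH m e a b, ι.toRingHom.IsIntegralElem (algebraMap (OH m e a b) L q))
    {g : R} (hg : g ≠ 0) :
    ∃ M : ℕ, 0 < M ∧ ∀ (K : Type) [Field K] [IsAlgClosed K] [Algebra K0 K] (z : Fin M → Cyc1 (pts K0 K R)),
      (∀ i, ∀ P : R →ₐ[K0] K, P ∈ (z i).support → P g = 0) → prodM z ∈ tor (RatEq (pts K0 K R) M) := by
  classical
  obtain ⟨k, hk⟩ := dm_alt (K0 := K0) (A := A) e hm hj
  obtain ⟨hai, hO⟩ := aiN (K0 := K0) (gH m e a b)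
  obtain ⟨T, X', hai', hint'⟩ := nn2 (O := OH m e a b) ι hι hint hai hO
  obtain ⟨n, p, hprime, hdim, hcov⟩ := comps T X' hint' hg
  have hrel := fun i => comp_sym hai' hint' (p i) (hdim i)
  choose mm hmm0 hmm using hrel
  obtain ⟨s, hs⟩ : ∃ s, s = ∑ i, mm i := ⟨_, rfl⟩
  refine ⟨s * k + 1, Nat.succ_pos _, ?_⟩
  intro K _ _ _ z hz
  refine alt_sym (D := pts K0 K R) (Nat.lt_succ_self (s * k)) (L := {P : R →ₐ[K0] K | P g = 0})
    (fun P _ => ?_) ?_ z (fun i P hP => hz i P hP)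
  · exact hk ι hι hint (k + 1) (Nat.le_succ k) K P
  · intro P hP
    refine union_sym (D := pts K0 K R) (fun i => {P : R →ₐ[K0] K | ∀ r ∈ p i, P r = 0}) mm
      (fun i P hP => hmm i K P hP) (le_of_eq hs.symm) P ?_
    intro j
    exact hcov K (P j) (hP j)

end H19.DM
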